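import Pool.Agent.Helper705_SA.Amalg
import Pool.Agent.N509.TK.Loc
import Pool.Agent.N509.TX.Sub

/-!
# Amalgamated products in the class
-/

set_option autoImplicit false

namespace Pool.Agent.U385.RT

open SimpleGraph
open Pool.Agent.Helper705_SA
open Pool.Agent.Y110.FJ
open Pool.Agent.N509.TK (edges)
open Pool.Agent.R941.FJ (C_equiv C_le C_cyc mem_sup_normal)

variable {C : ∀ (G : Type) [Group G], Prop}

theorem coset_act {G : Type} [Group G] (A B : Subgroup G) (g : G) (u v : (G ⧸ A) ⊕ (G ⧸ B))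
    (h : (cosetGraph A B).Adj u v) : (cosetGraph A B).Adj (g • u) (g • v) := by
  obtain ⟨k, ⟨rfl, rfl⟩ | ⟨rfl, rfl⟩⟩ := h
  · exact ⟨g * k, Or.inl ⟨rfl, rfl⟩⟩
  · exact ⟨g * k, Or.inr ⟨rfl, rfl⟩⟩

theorem C_coset (hC : ClosedE C) {G : Type} [Group G] (A : Subgroup G) (hA : C A) (q : G ⧸ A) :
    C ↥(MulAction.stabilizer G q) := by
  obtain ⟨g, rfl⟩ := QuotientGroup.mk_surjective q
  rw [stab_coset]
  exact C_equiv hC.base (A.equivMapOfInjective _ (MulAut.conj g).injective).symm hA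

/-- **amalgamated products with a homomorphism which is injective on the amalgamated subgroup** -/
theorem am_edge (hC : ClosedE C) {G : Type} [Group G] (A B : Subgroup G) (h : IsAmalgam A B)
    (hA : C A) (hB : C B) {P : Type} [Group P] (f : G →* P) (hP : C P)
    (hf : ∀ x ∈ A, x ∈ B → f x = 1 → x = 1) : C G := by
  have key : ∀ k g : G, g • (QuotientGroup.mk k : G ⧸ A) = QuotientGroup.mk k →
      g • (QuotientGroup.mk k : G ⧸ B) = QuotientGroup.mk k → f g = 1 → g = 1 := by
    intro k g h1 h2 h3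
    have h4 : ∀ D : Subgroup G, g • (QuotientGroup.mk k : G ⧸ D) = QuotientGroup.mk k →
        k⁻¹ * g * k ∈ D := by
      intro D h
      change (QuotientGroup.mk (g * k) : G ⧸ D) = QuotientGroup.mk k at h
      rw [eq_comm, QuotientGroup.eq, ← mul_assoc] at h
      exact h
    have h5 := hf _ (h4 A h1) (h4 B h2) (by rw [map_mul, map_mul, h3, mul_one, ← map_mul,
      inv_mul_cancel, map_one])
    have h6 : g = k * (k⁻¹ * g * k) * k⁻¹ := by group
    rw [h6, h5, mul_one, mul_inv_cancel]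
  refine edges (G := G) (V := (G ⧸ A) ⊕ (G ⧸ B)) (T := cosetGraph A B) hC
    (cosetGraph_isTree A B h) (coset_act A B) ?_ ?_
  · rintro (v | v)
    · have h1 : MulAction.stabilizer G (Sum.inl v : (G ⧸ A) ⊕ (G ⧸ B)) =
          MulAction.stabilizer G v := by
        ext x
        rw [MulAction.mem_stabilizer_iff, MulAction.mem_stabilizer_iff]
        exact ⟨fun h => Sum.inl_injective h, fun h => congrArg Sum.inl h⟩
      rw [h1]
      exact C_coset hC A hA v
    · have h1 : MulAction.stabilizer G (Sum.inr v : (G ⧸ A) ⊕ (G ⧸ B)) =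
          MulAction.stabilizer G v := by
        ext x
        rw [MulAction.mem_stabilizer_iff, MulAction.mem_stabilizer_iff]
        exact ⟨fun h => Sum.inr_injective h, fun h => congrArg Sum.inr h⟩
      rw [h1]
      exact C_coset hC B hB v
  · intro u v huv
    refine ⟨P, _, f, hP, fun g hgu hgv hg => ?_⟩
    obtain ⟨k, ⟨rfl, rfl⟩ | ⟨rfl, rfl⟩⟩ := huv
    · exact key k g (Sum.inl_injective hgu) (Sum.inr_injective hgv) hg
    · exact key k g (Sum.inl_injective hgv) (Sum.inr_injective hgu) hg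

/-- commuting retractions -/
structure Rets {N V : Type} [Group N] (e : Set V → N →* N) : Prop where
  mul : ∀ (S T : Set V) (x : N), e S (e T x) = e (S ∩ T) x
  supp : ∀ x : N, ∃ S : Set V, S.Finite ∧ e S x = x

section rets

variable {N V : Type} [Group N] {e : Set V → N →* N}

theorem Rets.idem (h : Rets e) (S : Set V) (x : N) : e S (e S x) = e S x := by
  rw [h.mul, Set.inter_self]

theorem Rets.mem (h : Rets e) {S : Set V} {x : N} : x ∈ (e S).range ↔ e S x = x := by
  constructor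
  · rintro ⟨y, rfl⟩
    exact h.idem S y
  · exact fun h1 => ⟨x, h1⟩

theorem Rets.mono (h : Rets e) {S T : Set V} (hST : S ⊆ T) : (e S).range ≤ (e T).range := by
  intro x hx
  rw [h.mem] at hx ⊢
  rw [← hx, h.mul, Set.inter_eq_right.2 hST]

/-- `N` is the amalgamated product of the images of the retractions which kill `u` or `v` -/
def Ind (e : Set V → N →* N) (u v : V) : Prop := IsAmalgam (e {u}ᶜ).range (e {v}ᶜ).range

theorem Rets.am (h : Rets e) {u v : V} (hI : Ind e u v) (σ : Set V) :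
    IsAmalgam ((e (σ \ {u})).range.subgroupOf (e σ).range)
      ((e (σ \ {v})).range.subgroupOf (e σ).range) := by
  have hσ : ∀ (w : V) (x : N), e σ (e {w}ᶜ x) = e (σ \ {w}) x := by
    intro w x
    rw [h.mul]
    rfl
  have hσ' : ∀ (w : V) (x : N), x ∈ (e {w}ᶜ).range → e σ x ∈ (e (σ \ {w})).range := by
    rintro w _ ⟨y, rfl⟩
    rw [hσ]
    exact ⟨y, rfl⟩
  have hle : ∀ w, (e (σ \ {w})).range ≤ (e σ).range := fun w => h.mono Set.sdiff_subset
  have hle' : ∀ w, (e (σ \ {w})).range ≤ (e {w}ᶜ).range := fun w => h.mono fun x hx => hx.2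
  refine ⟨?_, ?_⟩
  · rw [eq_top_iff]
    rintro ⟨x, hx⟩ -
    have h1 : x ∈ (e {u}ᶜ).range ⊔ (e {v}ᶜ).range := by
      rw [hI.1]
      trivial
    have key : (e {u}ᶜ).range ⊔ (e {v}ᶜ).range ≤
        ((((e (σ \ {u})).range.subgroupOf (e σ).range) ⊔
          ((e (σ \ {v})).range.subgroupOf (e σ).range)).map (Subgroup.subtype _)).comap (e σ) := by
      refine sup_le ?_ ?_
      · intro y hy
        have h2 := hσ' u y hy
        exact ⟨⟨e σ y, hle u h2⟩, Subgroup.mem_sup_left h2, rfl⟩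
      · intro y hy
        have h2 := hσ' v y hy
        exact ⟨⟨e σ y, hle v h2⟩, Subgroup.mem_sup_right h2, rfl⟩
    obtain ⟨z, hz, hzx⟩ := key h1
    have h3 : z = ⟨x, hx⟩ := by
      apply Subtype.ext
      have h4 : (z : N) = e σ x := hzx
      rw [h4]
      exact h.mem.1 hx
    rwa [h3] at hz
  · intro K _ f g hfg
    let q : ∀ w, (e {w}ᶜ).range →* ((e (σ \ {w})).range.subgroupOf (e σ).range) := fun w =>
      { toFun := fun x => ⟨⟨e σ x, ⟨(x : N), rfl⟩⟩, hσ' w x x.2⟩
        map_one' := Subtype.ext (Subtype.ext (map_one (e σ)))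
        map_mul' := fun x y => Subtype.ext (Subtype.ext (map_mul (e σ) (x : N) (y : N))) }
    let F : (e {u}ᶜ).range →* K := f.comp (q u)
    let G : (e {v}ᶜ).range →* K := g.comp (q v)
    obtain ⟨Φ, hΦ1, hΦ2⟩ := hI.2 K F G (fun x hA hB => hfg ⟨e σ x, ⟨x, rfl⟩⟩ (hσ' u x hA)
      (hσ' v x hB))
    refine ⟨Φ.comp (Subgroup.subtype _), ?_, ?_⟩
    · rintro ⟨⟨a, ha⟩, ha'⟩
      have h1 := hΦ1 ⟨a, hle' u ha'⟩
      rw [MonoidHom.comp_apply]
      refine h1.trans ?_
      show f _ = f _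
      congr 1
      apply Subtype.ext
      apply Subtype.ext
      exact h.mem.1 ha
    · rintro ⟨⟨a, ha⟩, ha'⟩
      have h1 := hΦ2 ⟨a, hle' v ha'⟩
      rw [MonoidHom.comp_apply]
      refine h1.trans ?_
      show g _ = g _
      congr 1
      apply Subtype.ext
      apply Subtype.ext
      exact h.mem.1 ha

/-- finite sets -/
theorem Rets.fin (hC : ClosedE C) (h : Rets e)
    (hσ : ∀ σ : Set V, σ.Finite → (∀ u ∈ σ, ∀ v ∈ σ, u ≠ v → ¬ Ind e u v) → C (e σ).range)
    (n : ℕ) : ∀ σ : Set V, σ.Finite → σ.ncard = n → C (e σ).range := by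
  induction n using Nat.strong_induction_on with
  | _ n ih =>
    intro σ hfin hn
    by_cases hcl : ∀ u ∈ σ, ∀ v ∈ σ, u ≠ v → ¬ Ind e u v
    · exact hσ σ hfin hcl
    · push Not at hcl
      obtain ⟨u, hu, v, hv, huv, hI⟩ := hcl
      have hsub : ∀ w ∈ σ, C ↥((e (σ \ {w})).range.subgroupOf (e σ).range) := by
        intro w hw
        have h1 : (σ \ {w}).ncard < n := by
          rw [← hn]
          exact Set.ncard_sdiff_singleton_lt_of_mem hw hfin
        exact C_equiv hC.base (Subgroup.subgroupOfEquivOfLe (h.mono Set.sdiff_subset))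
          (ih _ h1 _ (hfin.subset Set.sdiff_subset) rfl)
      have h2 : (e (σ \ {u})).range ≤ (e σ).range := h.mono Set.sdiff_subset
      refine am_edge hC _ _ (h.am hI σ) (hsub u hu) (hsub v hv)
        (((e (σ \ {u})).comp (Subgroup.subtype _)).codRestrict (e (σ \ {u})).range
          fun x => ⟨x, rfl⟩) (ih _ ?_ (σ \ {u}) (hfin.subset Set.sdiff_subset) rfl) ?_
      · rw [← hn]
        exact Set.ncard_sdiff_singleton_lt_of_mem hu hfin
      · rintro ⟨x, hx⟩ hxu - h1
        have h3 : e (σ \ {u}) x = 1 := congrArg Subtype.val h1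
        apply Subtype.ext
        show x = 1
        exact (h.mem.1 hxu).symm.trans h3

/-- **commuting retractions** -/
theorem Rets.main (hC : ClosedE C) (h : Rets e) :
    C N ↔ ∀ σ : Set V, σ.Finite → (∀ u ∈ σ, ∀ v ∈ σ, u ≠ v → ¬ Ind e u v) → C (e σ).range := by
  constructor
  · intro hN σ _ _
    exact hC.base.of_injective _ _ (Subgroup.subtype _) (Subgroup.subtype_injective _) hN
  · intro hσ
    refine Pool.Agent.N509.TX.of_fg hC fun H hfg => ?_
    obtain ⟨S, hS⟩ := (Group.fg_iff_subgroup_fg H).1 hfg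
    obtain ⟨σ, hfin, hle⟩ : ∃ σ : Set V, σ.Finite ∧ (S : Set N) ⊆ (e σ).range := by
      choose τ hτ1 hτ2 using h.supp
      refine ⟨⋃ x ∈ S, τ x, S.finite_toSet.biUnion fun x _ => hτ1 x, fun x hx => ?_⟩
      rw [SetLike.mem_coe, h.mem]
      conv_lhs => rw [← hτ2 x, h.mul]
      have h1 : (⋃ x ∈ S, τ x) ∩ τ x = τ x :=
        Set.inter_eq_right.2 (Set.subset_biUnion_of_mem (u := fun x => τ x) hx)
      rw [h1, hτ2]
    refine C_le hC.base (?_ : H ≤ (e σ).range) (h.fin hC hσ _ σ hfin rfl)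
    rw [← hS, Subgroup.closure_le]
    exact hle

end rets

end Pool.Agent.U385.RT
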