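import Pool.Agent.U385.RT.Emb

/-!
# Classes of groups closed under wreath products and free extensions
-/

set_option autoImplicit false

namespace Pool.Agent.U385.RT

open SimpleGraph
open Pool.Agent.Y110.FJ (permAut Amg)
open Pool.Agent.Y462.PA (Am)
open Monoid (CoprodI)
open scoped Classical

variable {C : ∀ (G : Type) [Group G], Prop}

/-- closure under amalgamated products with a homomorphism to a group in the class which is
injective on the amalgamated subgroup -/
structure AmC (C : ∀ (G : Type) [Group G], Prop) : Prop where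
  inj : ∀ (G H : Type) [Group G] [Group H] (f : G →* H), Function.Injective f → C H → C G
  int : C (Multiplicative ℤ)
  am : ∀ (K A B P : Type) [Group K] [Group A] [Group B] [Group P] (α : K →* A) (β : K →* B),
    Function.Injective α → Function.Injective β → C A → C B → ∀ f : Am α β →* P, C P →
      (∀ k, f (Am.inl α β (α k)) = 1 → k = 1) → C (Am α β)

/-- closure under wreath products and free extensions -/
structure WrC (C : ∀ (G : Type) [Group G], Prop) : Prop where
  inj : ∀ (G H : Type) [Group G] [Group H] (f : G →* H), Function.Injective f → C H → C G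
  int : C (Multiplicative ℤ)
  prod : ∀ (G H : Type) [Group G] [Group H], C G → C H → C (G × H)
  free : ∀ (X P : Type) [Group P] [MulAction P X], C P → C (FreeGroup X ⋊[permAut X P] P)
  wr : ∀ (N P : Type) [Group N] [Group P], C N → C P → C (Wre N P)

theorem WrC.amC (hC : WrC C) : AmC C where
  inj := hC.inj
  int := hC.int
  am := by
    intro K A B P _ _ _ _ α β hα hβ hA hB f hP hf
    have hfK : ∀ k, f (Am.inr α β (β k)) = f (Am.inl α β (α k)) := fun k => by rw [Am.glue]
    obtain ⟨φ, hφ1, hφ2, hφ3⟩ := exists_emb α (f.comp (Am.inl α β)) (by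
      rw [injective_iff_map_eq_one]
      exact fun k hk => hf k hk)
    obtain ⟨ψ, hψ1, hψ2, hψ3⟩ := exists_emb β (f.comp (Am.inr α β)) (by
      rw [injective_iff_map_eq_one]
      intro k hk
      exact hf k ((hfK k).symm.trans hk))
    let NA := (f.comp (Am.inl α β)).ker
    let NB := (f.comp (Am.inr α β)).ker
    have hW : C (Wre (NA × NB) P) := hC.wr _ _ (hC.prod _ _
      (hC.inj _ _ NA.subtype NA.subtype_injective hA)
      (hC.inj _ _ NB.subtype NB.subtype_injective hB)) hP
    have hφ0 : ∀ p, φ 1 p = 1 := fun p => by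
      rw [← map_one α]
      exact hφ3 1 p
    have hψ0 : ∀ p, ψ 1 p = 1 := fun p => by
      rw [← map_one β]
      exact hψ3 1 p
    let ιA : A →* Wre (NA × NB) P :=
      { toFun := fun a => ⟨fun p => (φ a p, 1), f (Am.inl α β a)⟩
        map_one' := by
          refine SemidirectProduct.ext ?_ ?_
          · funext p
            exact Prod.ext (hφ0 p) rfl
          · rw [map_one, map_one]
            rfl
        map_mul' := fun a b => by
          refine SemidirectProduct.ext ?_ ?_
          · funext p
            exact Prod.ext (hφ1 a b p) (mul_one _).symm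
          · rw [map_mul, map_mul]
            rfl }
    let ιB : B →* Wre (NA × NB) P :=
      { toFun := fun b => ⟨fun p => (1, ψ b p), f (Am.inr α β b)⟩
        map_one' := by
          refine SemidirectProduct.ext ?_ ?_
          · funext p
            exact Prod.ext rfl (hψ0 p)
          · rw [map_one, map_one]
            rfl
        map_mul' := fun a b => by
          refine SemidirectProduct.ext ?_ ?_
          · funext p
            exact Prod.ext (mul_one _).symm (hψ1 a b p)
          · rw [map_mul, map_mul]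
            rfl }
    let Θ : Am α β →* Wre (NA × NB) P := Am.lift α β ιA ιB (fun k => by
      refine SemidirectProduct.ext ?_ ?_
      · funext p
        exact Prod.ext (hφ3 k p) (hψ3 k p).symm
      · exact (hfK k).symm)
    have hΘA : ∀ a, Θ (Am.inl α β a) = ιA a := fun a => Am.lift_inl _ _ _ _ _ _
    have hΘB : ∀ b, Θ (Am.inr α β b) = ιB b := fun b => Am.lift_inr _ _ _ _ _ _
    obtain ⟨X, _, E, hE⟩ := am_emb (Am.inl α β).range (Am.inr α β).range
      ((Am.inl α β).comp α).range (Pool.Agent.Y419.PA.amg α β) Θ (by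
        rintro _ ⟨a, rfl⟩ h
        rw [hΘA] at h
        have h1 : f (Am.inl α β a) = 1 := congrArg SemidirectProduct.right h
        have h2 : (fun p => (φ a p, (1 : NB))) = 1 := congrArg SemidirectProduct.left h
        rw [hφ2 a h1 fun p => congrArg Prod.fst (congrFun h2 p), map_one]) (by
        rintro _ ⟨b, rfl⟩ h
        rw [hΘB] at h
        have h1 : f (Am.inr α β b) = 1 := congrArg SemidirectProduct.right h
        have h2 : (fun p => ((1 : NA), ψ b p)) = 1 := congrArg SemidirectProduct.left h
        rw [hψ2 b h1 fun p => congrArg Prod.snd (congrFun h2 p), map_one])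
    exact hC.inj _ _ E hE (hC.free X _ hW)

theorem AmC.am_inr (hC : AmC C) {K A B : Type} [Group K] [Group A] [Group B] {α : K →* A}
    {β : K →* B} (hα : Function.Injective α) (hβ : Function.Injective β) (hA : C A)
    (hB : C B) {P : Type} [Group P] (f : Am α β →* P) (hP : C P)
    (hf : ∀ b, f (Am.inr α β b) = 1 → b = 1) : C (Am α β) := by
  refine hC.am _ _ _ _ α β hα hβ hA hB f hP fun k hk => ?_
  rw [Am.glue] at hk
  exact (injective_iff_map_eq_one β).1 hβ k (hf _ hk)

section

variable {V : Type} [LinearOrder V] {Γ : SimpleGraph V} {G : V → Type} [∀ v, Group (G v)]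
  {R : ∀ u v, Set (Monoid.Coprod (G u) (G v))}

theorem AmC.star (hC : AmC C) (b : V) {P : Type} [Group P] (hP : C P) (Φ : CoprodI G →* P)
    (hΦ : ∀ a : G b, Φ (CoprodI.of a) = 1 → a = 1)
    (hrel : ∀ u, u < b → Γ.Adj u b → ∀ r ∈ R u b, Φ (two G u b r) = 1)
    (hedge : ∀ u, u < b → Γ.Adj u b → C (Qs Γ R {u, b})) (n : ℕ) :
    ∀ K : Set V, K.Finite → K.ncard = n → (∀ u ∈ K, u < b ∧ Γ.Adj u b) →
      (∀ u ∈ K, ∀ v ∈ K, ¬ Γ.Adj u v) → C (Qs Γ R (insert b K)) := by
  induction n with
  | zero =>
    intro K hfin hn _ _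
    obtain ⟨f, hf, -⟩ := single (Γ := Γ) (R := R) b (T := insert b K) (by
      intro v hv
      rcases hv with rfl | hv
      · rfl
      · rw [Set.ncard_eq_zero hfin] at hn
        rw [hn] at hv
        exact absurd hv (Set.notMem_empty v))
    refine hC.inj _ _ (((Φ.comp CoprodI.of) : G b →* P).comp f) ?_ hP
    have h1 : Function.Injective (Φ.comp CoprodI.of : G b →* P) := by
      rw [injective_iff_map_eq_one]
      exact hΦ
    exact h1.comp hf
  | succ n ih =>
    intro K hfin hn hlowK hindK
    obtain ⟨u, hu⟩ : K.Nonempty := by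
      rw [Set.nonempty_iff_ne_empty]
      rintro rfl
      simp at hn
    have hub := (hlowK u hu).1
    have hlow : ∀ T : Set V, T ⊆ insert b K → ∀ v ∈ T, v ≠ b → v < b := by
      intro T hT v hv hvb
      rcases hT hv with rfl | h
      · exact absurd rfl hvb
      · exact (hlowK v h).1
    have hind : ∀ T : Set V, T ⊆ insert b K → ∀ x ∈ T, ∀ y ∈ T, x ≠ b → y ≠ b →
        ¬ Γ.Adj x y := by
      intro T hT x hx y hy hxb hyb
      rcases hT hx with rfl | h
      · exact absurd rfl hxb
      rcases hT hy with rfl | h'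
      · exact absurd rfl hyb
      exact hindK x h y h'
    have hT1 : insert b (K \ {u}) ⊆ insert b K := Set.insert_subset_insert Set.sdiff_subset
    have hT2 : ({u, b} : Set V) ⊆ insert b K := by
      rintro x (rfl | rfl)
      · exact Or.inr hu
      · exact Or.inl rfl
    have hT0 : ({b} : Set V) ⊆ insert b K := by
      rintro x rfl
      exact Or.inl rfl
    have h01 : ({b} : Set V) ⊆ insert b (K \ {u}) := by
      rintro x rfl
      exact Or.inl rfl
    have h02 : ({b} : Set V) ⊆ {u, b} := by
      rintro x rfl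
      exact Or.inr rfl
    have hC1 : C (Qs Γ R (insert b (K \ {u}))) := by
      refine ih (K \ {u}) (hfin.subset Set.sdiff_subset) ?_ (fun v hv => hlowK v hv.1)
        (fun x hx y hy => hindK x hx.1 y hy.1)
      rw [Set.ncard_sdiff_singleton_of_mem hu, hn]
      rfl
    have hC2 : C (Qs Γ R {u, b}) := hedge u hub (hlowK u hu).2
    obtain ⟨f0, hf0, hf0'⟩ := single (Γ := Γ) (R := R) b (T := {b}) (fun v hv => hv)
    have hpsi : ∀ {T : Set V} (hT : T ⊆ insert b K) (h : ({b} : Set V) ⊆ T) (x : Qs Γ R {b}),
        psi Φ b hrel (hlow T hT) (hind T hT) (tr h x) = 1 → x = 1 := by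
      intro T hT h x hx
      rw [hf0' x, tr_of h rfl, psi_of Φ b hrel _ _ (h rfl)] at hx
      rw [hf0' x, hΦ _ hx, map_one, map_one]
    have hα : Function.Injective (tr (Γ := Γ) (R := R) h01) := by
      rw [injective_iff_map_eq_one]
      intro x hx
      exact hpsi hT1 h01 x (by rw [hx, map_one])
    have hβ : Function.Injective (tr (Γ := Γ) (R := R) h02) := by
      rw [injective_iff_map_eq_one]
      intro x hx
      exact hpsi hT2 h02 x (by rw [hx, map_one])
    have hcup : ∀ x ∈ insert b K, x ∈ insert b (K \ {u}) ∨ x ∈ ({u, b} : Set V) := by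
      intro x hx
      rcases hx with rfl | hx
      · exact Or.inl (Or.inl rfl)
      · by_cases hxu : x = u
        · exact Or.inr (Or.inl hxu)
        · exact Or.inl (Or.inr ⟨hx, hxu⟩)
    have hcap : ∀ x ∈ insert b (K \ {u}), x ∈ ({u, b} : Set V) → x ∈ ({b} : Set V) := by
      intro x hx hx'
      rcases hx' with h | h
      · rcases hx with hx | hx
        · exact hx
        · exact absurd h hx.2
      · exact h
    have hno : ∀ x ∈ insert b (K \ {u}), ∀ y ∈ ({u, b} : Set V), x ∉ ({b} : Set V) →
        y ∉ ({b} : Set V) → ¬ Γ.Adj x y := by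
      intro x hx y hy hxb hyb
      exact hind (insert b K) subset_rfl x (hT1 hx) y (hT2 hy) hxb hyb
    have e1 : ∀ c, psi Φ b hrel (hlow _ hT1) (hind _ hT1) (tr h01 c) =
        psi Φ b hrel (hlow _ hT2) (hind _ hT2) (tr h02 c) := by
      intro c
      rw [hf0' c, tr_of h01 rfl, tr_of h02 rfl, psi_of Φ b hrel _ _ (h01 rfl),
        psi_of Φ b hrel _ _ (h02 rfl)]
    refine hC.inj _ _ (toAm h01 h02 hcup hcap hT1 hT2 hno) (toAm_inj ..) ?_
    refine hC.am _ _ _ _ _ _ hα hβ hC1 hC2 (Am.lift _ _ (psi Φ b hrel (hlow _ hT1) (hind _ hT1))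
      (psi Φ b hrel (hlow _ hT2) (hind _ hT2)) e1) hP ?_
    intro k hk
    rw [Am.lift_inl] at hk
    exact hpsi hT1 h01 k hk

theorem AmC.edge (hC : AmC C) (h : OneSided C Γ R) {u v : V} (huv : u < v)
    (hadj : Γ.Adj u v) : C (Qs Γ R {u, v}) := by
  let E := Monoid.Coprod (G u) (G v) ⧸ Subgroup.normalClosure (R u v)
  let q : Monoid.Coprod (G u) (G v) →* E := QuotientGroup.mk' _
  let φ : ∀ x, G x →* E := fun x => if x = u then (q.comp Monoid.Coprod.inl).comp (prV u x)
    else if x = v then (q.comp Monoid.Coprod.inr).comp (prV v x) else 1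
  have hφu : ∀ a : G u, CoprodI.lift φ (CoprodI.of a) = q (Monoid.Coprod.inl a) := by
    intro a
    rw [CoprodI.lift_of]
    show (if u = u then (q.comp Monoid.Coprod.inl).comp (prV u u)
      else if u = v then (q.comp Monoid.Coprod.inr).comp (prV v u) else 1) a = _
    rw [if_pos rfl, prV_v]
    rfl
  have hφv : ∀ a : G v, CoprodI.lift φ (CoprodI.of a) = q (Monoid.Coprod.inr a) := by
    intro a
    rw [CoprodI.lift_of]
    show (if v = u then (q.comp Monoid.Coprod.inl).comp (prV u v)
      else if v = v then (q.comp Monoid.Coprod.inr).comp (prV v v) else 1) a = _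
    rw [if_neg huv.ne', if_pos rfl, prV_v]
    rfl
  have hφx : ∀ x, x ∉ ({u, v} : Set V) → ∀ a : G x, CoprodI.lift φ (CoprodI.of a) = 1 := by
    intro x hx a
    rw [CoprodI.lift_of]
    show (if x = u then (q.comp Monoid.Coprod.inl).comp (prV u x)
      else if x = v then (q.comp Monoid.Coprod.inr).comp (prV v x) else 1) a = _
    have h1 : x ≠ u := fun h => hx (Or.inl h)
    have h2 : x ≠ v := fun h => hx (Or.inr h)
    rw [if_neg h1, if_neg h2]
    rfl
  have htwo : ∀ r, CoprodI.lift φ (two G u v r) = q r := by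
    intro r
    have h1 : (CoprodI.lift φ).comp (two G u v) = q := by
      apply Monoid.Coprod.hom_ext
      · ext a
        show CoprodI.lift φ (two G u v (Monoid.Coprod.inl a)) = q (Monoid.Coprod.inl a)
        rw [two, Monoid.Coprod.lift_apply_inl, hφu]
      · ext a
        show CoprodI.lift φ (two G u v (Monoid.Coprod.inr a)) = q (Monoid.Coprod.inr a)
        rw [two, Monoid.Coprod.lift_apply_inr, hφv]
    exact DFunLike.congr_fun h1 r
  let f : Qs Γ R {u, v} →* E := Qs.lift (CoprodI.lift φ)
    (fun x y hx hy hxy _ r hr => by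
      obtain ⟨rfl, rfl⟩ : x = u ∧ y = v := by
        rcases hx with rfl | rfl <;> rcases hy with rfl | rfl
        · exact absurd hxy (lt_irrefl _)
        · exact ⟨rfl, rfl⟩
        · exact absurd hxy (lt_asymm huv)
        · exact absurd hxy (lt_irrefl _)
      rw [htwo]
      exact (QuotientGroup.eq_one_iff _).2 (Subgroup.subset_normalClosure hr))
    (fun x hx a => hφx x hx a)
  let g : E →* Qs Γ R {u, v} := QuotientGroup.lift _ ((pi {u, v}).comp (two G u v)) (by
    apply Subgroup.normalClosure_le_normal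
    intro r hr
    exact pi_rel (S := {u, v}) (Or.inl rfl) (Or.inr rfl) huv hadj hr)
  have hgq : ∀ r, g (q r) = pi {u, v} (two G u v r) := fun r => rfl
  have hgf : ∀ x, g (f x) = x := by
    intro x
    have h1 : g.comp f = MonoidHom.id _ := by
      apply Qs.hom_ext
      intro y hy a
      show g (CoprodI.lift φ (CoprodI.of a)) = pi {u, v} (CoprodI.of a)
      rcases hy with rfl | rfl
      · rw [hφu, hgq, two, Monoid.Coprod.lift_apply_inl]
      · rw [hφv, hgq, two, Monoid.Coprod.lift_apply_inr]
    exact DFunLike.congr_fun h1 x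
  exact hC.inj _ _ f (Function.LeftInverse.injective hgf) (h.edge u v huv hadj)

theorem AmC.fin (hC : AmC C) (hh : OneSided C Γ R) (n : ℕ) :
    ∀ S : Set V, S.Finite → S.ncard = n → C (Qs Γ R S) := by
  have hfst := hh.fst
  have htri := hh.tri
  induction n using Nat.strong_induction_on with
  | _ n ih =>
    intro S hfin hn
    by_cases hne : S.Nonempty
    swap
    · refine hC.inj _ _ (1 : Qs Γ R S →* Multiplicative ℤ) ?_ hC.int
      intro x y _
      rw [empty_eq hne x, empty_eq hne y]
    obtain ⟨b, hb, hmax⟩ := Set.exists_max_image S id hfin hne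
    simp only [id] at hmax
    have hlt : (S \ {b}).ncard < n := hn ▸ Set.ncard_sdiff_singleton_lt_of_mem hb hfin
    have hsub : S \ {b} ⊆ S := Set.sdiff_subset
    let K : Set V := {u | u ∈ S ∧ Γ.Adj u b}
    have hKb : b ∉ K := fun h => Γ.loopless.irrefl b h.2
    have h01 : K ⊆ insert b K := Set.subset_insert b K
    have h02 : K ⊆ S \ {b} := fun u hu => ⟨hu.1, fun h => hKb (h ▸ hu)⟩
    have hdK : ∀ u v, u ∈ insert b K → v ∈ insert b K → u < v → Γ.Adj u v → v ∈ K → u ∈ K := by
      intro u v hu _ huv _ hvK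
      rcases hu with rfl | hu
      · exact absurd (hmax v hvK.1) (not_le.2 huv)
      · exact hu
    have hindK : ∀ u ∈ K, ∀ v ∈ K, ¬ Γ.Adj u v := fun u hu v hv huv => htri u v b huv hv.2 hu.2
    have hα : Function.Injective (tr (Γ := Γ) (R := R) h01) :=
      Function.LeftInverse.injective (rt_tr hfst h01 hdK)
    have hβ : Function.Injective (tr (Γ := Γ) (R := R) h02) :=
      indep_inj hfst htri hh.vinj _ (S \ {b}) (hfin.subset hsub) rfl K h02 hindK
    have hno : ∀ u ∈ insert b K, ∀ v ∈ S \ {b}, u ∉ K → v ∉ K → ¬ Γ.Adj u v := by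
      intro u hu v hv huK hvK huv
      rcases hu with rfl | hu
      · exact hvK ⟨hv.1, huv.symm⟩
      · exact huK hu
    have hcup : ∀ x ∈ S, x ∈ insert b K ∨ x ∈ S \ {b} := by
      intro x hx
      by_cases hxb : x = b
      · exact Or.inl (Or.inl hxb)
      · exact Or.inr ⟨hx, hxb⟩
    have hcap : ∀ x ∈ insert b K, x ∈ S \ {b} → x ∈ K := by
      intro x hx hx'
      rcases hx with hx | hx
      · exact absurd hx hx'.2
      · exact hx
    have hT : insert b K ⊆ S := by
      intro x hx
      rcases hx with rfl | hx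
      · exact hb
      · exact hx.1
    obtain ⟨P, _, Φ, hP, hΦ, hrel⟩ := hh.hom b
    have hC1 : C (Qs Γ R (insert b K)) := by
      refine hC.star b hP Φ hΦ hrel (fun u hub hadj => hC.edge hh hub hadj) _ K
        (hfin.subset fun u hu => hu.1) rfl (fun u hu => ⟨?_, hu.2⟩) hindK
      exact lt_of_le_of_ne (hmax u hu.1) (fun h => hKb (h ▸ hu))
    have hC2 : C (Qs Γ R (S \ {b})) := ih _ hlt (S \ {b}) (hfin.subset hsub) rfl
    refine hC.inj _ _ (toAm h01 h02 hcup hcap hT hsub hno) (toAm_inj ..) ?_
    refine hC.am_inr hα hβ hC1 hC2 (P := Qs Γ R (S \ {b})) (Am.lift _ _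
      ((tr h02).comp (rt hfst h01 hdK)) (MonoidHom.id _) (fun c => ?_)) hC2 ?_
    · rw [MonoidHom.comp_apply, rt_tr]
      rfl
    · intro x hx
      rw [Am.lift_inr] at hx
      exact hx

/-- finite sets of vertices -/
theorem AmC.main [Finite V] (hC : AmC C) (hh : OneSided C Γ R) :
    C (CoprodI G ⧸ Subgroup.normalClosure (oneRel Γ R)) := by
  have h1 := hC.fin hh _ (Set.univ : Set V) Set.finite_univ rfl
  have h2 : relS Γ R (Set.univ : Set V) = oneRel Γ R := by
    ext x
    constructor
    · rintro (⟨u, v, -, -, h⟩ | ⟨v, hv, -⟩)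
      · exact ⟨u, v, h⟩
      · exact absurd (Set.mem_univ v) hv
    · rintro ⟨u, v, h⟩
      exact Or.inl ⟨u, v, Set.mem_univ u, Set.mem_univ v, h⟩
  have h3 : C (CoprodI G ⧸ Subgroup.normalClosure (relS Γ R (Set.univ : Set V))) := h1
  rwa [h2] at h3

end

end Pool.Agent.U385.RT
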