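import Pool.Agent.U385.RT.One3
import Pool.Agent.N509.TK.Fin
import Pool.Agent.Q30.FJ.Hnn
import Pool.Agent.Y961.FJ.Perm
import Pool.Agent.Y529.FJ.Ext

/-!
# Baumslag-Solitar relations along oriented graphs
-/

set_option autoImplicit false

namespace Pool.Agent.U385.RT

open SimpleGraph
open Pool.Agent.Y110.FJ
open Monoid (CoprodI)
open Multiplicative (ofAdd toAdd)
open scoped Classical

variable {C : ∀ (G : Type) [Group G], Prop}

/-- the infinite cyclic group -/
abbrev Zm : Type := Multiplicative ℤ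

/-- scaling -/
def scl : ℚˣ →* MulAut (Multiplicative ℚ) where
  toFun s :=
    { toFun := fun x => ofAdd ((s : ℚ) * toAdd x)
      invFun := fun x => ofAdd (((s⁻¹ : ℚˣ) : ℚ) * toAdd x)
      left_inv := fun x => by
        show ofAdd (((s⁻¹ : ℚˣ) : ℚ) * ((s : ℚ) * toAdd x)) = x
        rw [← mul_assoc, Units.inv_mul, one_mul]
        rfl
      right_inv := fun x => by
        show ofAdd ((s : ℚ) * (((s⁻¹ : ℚˣ) : ℚ) * toAdd x)) = x
        rw [← mul_assoc, Units.mul_inv, one_mul]
        rfl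
      map_mul' := fun x y => by
        show ofAdd ((s : ℚ) * (toAdd x + toAdd y)) = _
        rw [mul_add]
        rfl }
  map_one' := by
    ext x
    show ((1 : ℚˣ) : ℚ) * toAdd x = toAdd x
    rw [Units.val_one, one_mul]
  map_mul' s t := by
    ext x
    show ((s * t : ℚˣ) : ℚ) * toAdd x = (s : ℚ) * ((t : ℚ) * toAdd x)
    rw [Units.val_mul, mul_assoc]

/-- the affine group of the line over `ℚ` -/
abbrev Aff : Type := Multiplicative ℚ ⋊[scl] ℚˣ

theorem C_Aff (hM : ∀ (G : Type) [Group G], derivedSeries G 2 = ⊥ → C G) : C Aff := by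
  refine hM Aff (Pool.Agent.N509.TK.metab
    (SemidirectProduct.inl : Multiplicative ℚ →* Aff).range ?_ ?_)
  · rintro _ ⟨x, rfl⟩ _ ⟨y, rfl⟩
    rw [← map_mul, ← map_mul, mul_comm]
  · intro x y
    rw [SemidirectProduct.range_inl_eq_ker_rightHom, MonoidHom.mem_ker, map_commutatorElement,
      commutatorElement_eq_one_iff_mul_comm, mul_comm]

/-- translations -/
def jA : Zm →* Aff :=
  SemidirectProduct.inl.comp (AddMonoidHom.toMultiplicative (Int.castAddHom ℚ))

theorem jA_apply (n : ℤ) : jA (ofAdd n) = SemidirectProduct.inl (ofAdd (n : ℚ)) := rfl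

theorem jA_inj : Function.Injective jA := by
  intro x y h
  have h1 : ofAdd ((toAdd x : ℤ) : ℚ) = ofAdd ((toAdd y : ℤ) : ℚ) :=
    SemidirectProduct.inl_injective h
  have h2 : ((toAdd x : ℤ) : ℚ) = ((toAdd y : ℤ) : ℚ) := h1
  exact toAdd.injective (Int.cast_injective h2)

theorem conj_inl (s : ℚˣ) (x : ℚ) : (SemidirectProduct.inr s : Aff) *
    SemidirectProduct.inl (ofAdd x) = SemidirectProduct.inl (ofAdd ((s : ℚ) * x)) *
      SemidirectProduct.inr s := by
  have h := SemidirectProduct.inl_aut (φ := scl) s (ofAdd x)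
  have h1 : scl s (ofAdd x) = ofAdd ((s : ℚ) * x) := rfl
  rw [h1] at h
  rw [h]
  simp [mul_assoc]

/-- the ratio -/
noncomputable def rat {p q : ℤ} (hp : p ≠ 0) (hq : q ≠ 0) : ℚˣ :=
  Units.mk0 ((q : ℚ) / p) (div_ne_zero (Int.cast_ne_zero.2 hq) (Int.cast_ne_zero.2 hp))

theorem rat_mul {p q : ℤ} (hp : p ≠ 0) (hq : q ≠ 0) : ((rat hp hq : ℚˣ) : ℚ) * p = q := by
  have h : (p : ℚ) ≠ 0 := Int.cast_ne_zero.2 hp
  rw [rat, Units.val_mk0]
  field_simp

theorem conj_jA {p q : ℤ} (hp : p ≠ 0) (hq : q ≠ 0) (n : ℤ) :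
    (SemidirectProduct.inr (rat hp hq) : Aff) * jA (ofAdd (p * n)) =
      jA (ofAdd (q * n)) * SemidirectProduct.inr (rat hp hq) := by
  rw [jA_apply, jA_apply, conj_inl]
  congr 3
  push_cast
  rw [← mul_assoc, rat_mul]

/-- the power map -/
def pw (n : ℤ) : Zm →* Zm where
  toFun x := ofAdd (n * toAdd x)
  map_one' := by
    show ofAdd (n * 0) = 1
    rw [mul_zero]
    rfl
  map_mul' x y := by
    show ofAdd (n * (toAdd x + toAdd y)) = _
    rw [mul_add]
    rfl

theorem pw_inj {n : ℤ} (hn : n ≠ 0) : Function.Injective (pw n) := by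
  intro x y h
  have h1 : n * toAdd x = n * toAdd y := h
  exact toAdd.injective (mul_left_cancel₀ hn h1)

/-- the isomorphism of the subgroups -/
noncomputable def ph {p q : ℤ} (hp : p ≠ 0) (hq : q ≠ 0) : (pw p).range ≃* (pw q).range :=
  (MonoidHom.ofInjective (pw_inj hp)).symm.trans (MonoidHom.ofInjective (pw_inj hq))

theorem ph_apply {p q : ℤ} (hp : p ≠ 0) (hq : q ≠ 0) (n : Zm) :
    (ph hp hq ⟨pw p n, ⟨n, rfl⟩⟩ : Zm) = pw q n := by
  have h1 : (⟨pw p n, ⟨n, rfl⟩⟩ : (pw p).range) = MonoidHom.ofInjective (pw_inj hp) n := rfl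
  rw [h1, ph, MulEquiv.trans_apply, MulEquiv.symm_apply_apply]
  rfl

/-- the relation -/
def bsr (p q : ℤ) : Monoid.Coprod Zm Zm :=
  Monoid.Coprod.inl (ofAdd 1) * Monoid.Coprod.inr (ofAdd p) *
    (Monoid.Coprod.inl (ofAdd 1))⁻¹ * (Monoid.Coprod.inr (ofAdd q))⁻¹

theorem bsr_map {H : Type} [Group H] (F : Monoid.Coprod Zm Zm →* H) (p q : ℤ) :
    F (bsr p q) = F (Monoid.Coprod.inl (ofAdd 1)) * F (Monoid.Coprod.inr (ofAdd p)) *
      (F (Monoid.Coprod.inl (ofAdd 1)))⁻¹ * (F (Monoid.Coprod.inr (ofAdd q)))⁻¹ := by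
  rw [bsr, map_mul, map_mul, map_mul, map_inv, map_inv]

theorem two_bsr {V H : Type} [Group H] (F : CoprodI (fun _ : V => Zm) →* H) (u v : V) (p q : ℤ) :
    F (two (fun _ : V => Zm) u v (bsr p q)) =
      F (CoprodI.of (M := fun _ : V => Zm) (i := u) (ofAdd 1)) *
        F (CoprodI.of (M := fun _ : V => Zm) (i := v) (ofAdd 1)) ^ p *
        (F (CoprodI.of (M := fun _ : V => Zm) (i := u) (ofAdd 1)))⁻¹ *
        (F (CoprodI.of (M := fun _ : V => Zm) (i := v) (ofAdd 1)) ^ q)⁻¹ := by
  have h := bsr_map (F.comp (two (fun _ : V => Zm) u v)) p q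
  have h1 : ∀ x, two (fun _ : V => Zm) u v (Monoid.Coprod.inl x) =
      CoprodI.of (M := fun _ : V => Zm) (i := u) x := fun x => Monoid.Coprod.lift_apply_inl _ _ _
  have h2 : ∀ n : ℤ, two (fun _ : V => Zm) u v (Monoid.Coprod.inr (ofAdd n)) =
      (CoprodI.of (M := fun _ : V => Zm) (i := v) (ofAdd 1)) ^ n := by
    intro n
    have h3 : two (fun _ : V => Zm) u v (Monoid.Coprod.inr (ofAdd n)) =
        CoprodI.of (M := fun _ : V => Zm) (i := v) (ofAdd n) := Monoid.Coprod.lift_apply_inr _ _ _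
    rw [h3, ← map_zpow, ← ofAdd_zsmul, smul_eq_mul, mul_one]
  simp only [MonoidHom.comp_apply, h1, h2, map_zpow] at h
  exact h

theorem C_bs (hC : ClosedE C) (hM : ∀ (G : Type) [Group G], derivedSeries G 2 = ⊥ → C G)
    {p q : ℤ} (hp : p ≠ 0) (hq : q ≠ 0) :
    C (Monoid.Coprod Zm Zm ⧸ Subgroup.normalClosure {bsr p q}) := by
  let H := HNNExtension Zm (pw p).range (pw q).range (ph hp hq)
  let f : H →* Aff := HNNExtension.lift jA (SemidirectProduct.inr (rat hp hq)) (by
    rintro ⟨_, x, rfl⟩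
    rw [ph_apply]
    exact conj_jA hp hq (toAdd x))
  have hf : Function.Injective (f.comp HNNExtension.of) := by
    intro x y h
    have h1 : f (HNNExtension.of x) = f (HNNExtension.of y) := h
    rw [HNNExtension.lift_of, HNNExtension.lift_of] at h1
    exact jA_inj h1
  have hH : C H := Q30.FJ.t_hnn (Pool.Agent.Y961.FJ.t_perm Pool.Agent.Y529.FJ.t_ext) C hC
    Zm Aff _ _ _ f hf (C_Aff hM)
  let F : Monoid.Coprod Zm Zm →* H :=
    Monoid.Coprod.lift (zpowersHom H HNNExtension.t) HNNExtension.of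
  have hF1 : F (Monoid.Coprod.inl (ofAdd 1)) = HNNExtension.t := by
    rw [Monoid.Coprod.lift_apply_inl]
    simp
  have hF2 : ∀ x, F (Monoid.Coprod.inr x) = HNNExtension.of x := fun x =>
    Monoid.Coprod.lift_apply_inr _ _ _
  have hpw : ∀ n : ℤ, pw n (ofAdd 1) = ofAdd n := by
    intro n
    show ofAdd (n * 1) = ofAdd n
    rw [mul_one]
  have hFr : F (bsr p q) = 1 := by
    rw [bsr_map, hF1, hF2, hF2]
    have h1 := HNNExtension.equiv_eq_conj (φ := ph hp hq) (⟨pw p (ofAdd 1), ⟨_, rfl⟩⟩)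
    rw [ph_apply, hpw] at h1
    have h2 : ((⟨pw p (ofAdd 1), ⟨_, rfl⟩⟩ : (pw p).range) : Zm) = ofAdd p := hpw p
    rw [h2] at h1
    rw [← h1, mul_inv_cancel]
  let F' : (Monoid.Coprod Zm Zm ⧸ Subgroup.normalClosure {bsr p q}) →* H :=
    QuotientGroup.lift _ F (by
      apply Subgroup.normalClosure_le_normal
      rintro _ rfl
      exact hFr)
  let q' : Monoid.Coprod Zm Zm →* (Monoid.Coprod Zm Zm ⧸ Subgroup.normalClosure {bsr p q}) :=
    QuotientGroup.mk' _
  have hq' : q' (Monoid.Coprod.inl (ofAdd 1)) * q' (Monoid.Coprod.inr (ofAdd p)) =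
      q' (Monoid.Coprod.inr (ofAdd q)) * q' (Monoid.Coprod.inl (ofAdd 1)) := by
    have h1 : q' (bsr p q) = 1 :=
      (QuotientGroup.eq_one_iff _).2 (Subgroup.subset_normalClosure rfl)
    rw [bsr_map, mul_inv_eq_one, mul_inv_eq_iff_eq_mul] at h1
    exact h1
  let B : H →* (Monoid.Coprod Zm Zm ⧸ Subgroup.normalClosure {bsr p q}) :=
    HNNExtension.lift (q'.comp Monoid.Coprod.inr) (q' (Monoid.Coprod.inl (ofAdd 1))) (by
      rintro ⟨_, x, rfl⟩
      rw [ph_apply]
      show q' (Monoid.Coprod.inl (ofAdd 1)) * q' (Monoid.Coprod.inr (pw p x)) =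
        q' (Monoid.Coprod.inr (pw q x)) * q' (Monoid.Coprod.inl (ofAdd 1))
      have h1 : ∀ n : ℤ, pw n x = ofAdd n ^ (toAdd x) := by
        intro n
        apply toAdd.injective
        show n * toAdd x = toAdd (ofAdd n ^ (toAdd x))
        rw [toAdd_zpow, toAdd_ofAdd, smul_eq_mul, mul_comm]
      rw [h1, h1, map_zpow, map_zpow, map_zpow, map_zpow]
      have h2 : q' (Monoid.Coprod.inr (ofAdd q)) =
          q' (Monoid.Coprod.inl (ofAdd 1)) * q' (Monoid.Coprod.inr (ofAdd p)) *
            (q' (Monoid.Coprod.inl (ofAdd 1)))⁻¹ := by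
        rw [hq', mul_inv_cancel_right]
      rw [h2, conj_zpow, inv_mul_cancel_right])
  have hBF : ∀ x, B (F' x) = x := by
    intro x
    obtain ⟨x, rfl⟩ := QuotientGroup.mk_surjective x
    have h1 : B.comp F = q' := by
      apply Monoid.Coprod.hom_ext
      · apply MonoidHom.ext_mint
        show B (F (Monoid.Coprod.inl (ofAdd 1))) = q' (Monoid.Coprod.inl (ofAdd 1))
        rw [hF1, HNNExtension.lift_t]
      · ext
        show B (F (Monoid.Coprod.inr _)) = q' (Monoid.Coprod.inr _)
        rw [hF2, HNNExtension.lift_of]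
        rfl
    exact DFunLike.congr_fun h1 x
  exact hC.base.of_injective _ _ F' (Function.LeftInverse.injective hBF) hH

/-- the relations of an oriented graph -/
def bsRel {V : Type} (D : V → V → Prop) (p q : V → V → ℤ) : Set (FreeGroup V) :=
  {x | ∃ u v, D u v ∧ x = FreeGroup.of u * FreeGroup.of v ^ p u v * (FreeGroup.of u)⁻¹ *
    (FreeGroup.of v ^ q u v)⁻¹}

/-- **Baumslag-Solitar relations along an oriented graph** -/
theorem bs_main (hC : ClosedE C) (hM : ∀ (G : Type) [Group G], derivedSeries G 2 = ⊥ → C G)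
    {V : Type} (D : V → V → Prop) (hac : ∀ v, ¬ Relation.TransGen D v v)
    (htri : ∀ u v w, (D u v ∨ D v u) → (D v w ∨ D w v) → ¬ (D u w ∨ D w u))
    (p q : V → V → ℤ) (hp : ∀ u v, D u v → p u v ≠ 0) (hq : ∀ u v, D u v → q u v ≠ 0) :
    C (PresentedGroup (bsRel D p q)) := by
  -- a linear order
  have hpo : IsPartialOrder V (Relation.ReflTransGen D) :=
    { refl := fun _ => Relation.ReflTransGen.refl
      trans := fun _ _ _ h h' => h.trans h'
      antisymm := fun a b h h' => by
        rcases Relation.reflTransGen_iff_eq_or_transGen.1 h with h1 | h1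
        · exact h1.symm
        · exact absurd (h1.trans_left h') (hac a) }
  obtain ⟨s, hs, hle⟩ := extend_partialOrder (Relation.ReflTransGen D)
  let _ : LinearOrder V :=
    { le := s
      le_refl := hs.refl
      le_trans := hs.trans
      le_antisymm := hs.antisymm
      le_total := hs.total
      toDecidableLE := Classical.decRel _ }
  have hlt : ∀ u v, D u v → u < v := by
    intro u v h
    have h1 : u ≤ v := hle u v (Relation.ReflTransGen.single h)
    refine lt_of_le_of_ne h1 ?_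
    rintro rfl
    exact hac u (Relation.TransGen.single h)
  let Γ : SimpleGraph V :=
    { Adj := fun u v => D u v ∨ D v u
      symm := ⟨fun _ _ h => h.symm⟩
      loopless := ⟨fun v h => by
        rcases h with h | h <;> exact hac v (Relation.TransGen.single h)⟩ }
  have hadj : ∀ u v, u < v → Γ.Adj u v → D u v := by
    rintro u v huv (h | h)
    · exact h
    · exact absurd (hlt v u h) (lt_asymm huv)
  let R : ∀ u v : V, Set (Monoid.Coprod Zm Zm) := fun u v => {bsr (p u v) (q u v)}
  have hone : OneSided (G := fun _ : V => Zm) C Γ R :=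
    { tri := htri
      fst := by
        rintro u v - - _ rfl
        rw [bsr, map_mul, map_mul, map_mul, map_inv, map_inv, Monoid.Coprod.fst_apply_inl,
          Monoid.Coprod.fst_apply_inr, Monoid.Coprod.fst_apply_inr]
        group
      loc := by
        intro v
        refine ⟨Aff, _, jA, C_Aff hM, jA_inj, fun u huv ha => ?_⟩
        have h1 := hadj u v huv ha
        refine ⟨zpowersHom Aff (SemidirectProduct.inr (rat (hp u v h1) (hq u v h1))), ?_⟩
        rintro _ rfl
        rw [bsr, map_mul, map_mul, map_mul, map_inv, map_inv, Monoid.Coprod.lift_apply_inl,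
          Monoid.Coprod.lift_apply_inr, Monoid.Coprod.lift_apply_inr]
        have h2 := conj_jA (hp u v h1) (hq u v h1) 1
        rw [mul_one, mul_one] at h2
        have h3 : zpowersHom Aff (SemidirectProduct.inr (rat (hp u v h1) (hq u v h1))) (ofAdd 1) =
            SemidirectProduct.inr (rat (hp u v h1) (hq u v h1)) := by simp
        rw [h3, h2, mul_inv_cancel_right, mul_inv_cancel]
      edge := by
        intro u v huv ha
        exact C_bs hC hM (hp u v (hadj u v huv ha)) (hq u v (hadj u v huv ha)) }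
  have hmain := hone.main hC
  -- the presented group
  let q' : CoprodI (fun _ : V => Zm) →*
    (CoprodI (fun _ : V => Zm) ⧸ Subgroup.normalClosure (oneRel Γ R)) := QuotientGroup.mk' _
  let g : V → (CoprodI (fun _ : V => Zm) ⧸ Subgroup.normalClosure (oneRel Γ R)) := fun v =>
    q' (CoprodI.of (M := fun _ : V => Zm) (i := v) (ofAdd 1))
  let F : PresentedGroup (bsRel D p q) →*
      (CoprodI (fun _ : V => Zm) ⧸ Subgroup.normalClosure (oneRel Γ R)) :=
    PresentedGroup.toGroup (f := g) (by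
      rintro _ ⟨u, v, huv, rfl⟩
      rw [map_mul, map_mul, map_mul, map_inv, map_inv, map_zpow, map_zpow, FreeGroup.lift_apply_of,
        FreeGroup.lift_apply_of]
      have h1 : q' (two (fun _ : V => Zm) u v (bsr (p u v) (q u v))) = 1 :=
        (QuotientGroup.eq_one_iff _).2
          (Subgroup.subset_normalClosure ⟨u, v, hlt u v huv, Or.inl huv, _, rfl, rfl⟩)
      rw [two_bsr] at h1
      exact h1)
  let φ : CoprodI (fun _ : V => Zm) →* PresentedGroup (bsRel D p q) :=
    CoprodI.lift fun v => zpowersHom _ (PresentedGroup.of v)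
  have hφ : ∀ (v : V) (n : ℤ), φ (CoprodI.of (M := fun _ : V => Zm) (i := v) (ofAdd n)) =
      PresentedGroup.of v ^ n := by
    intro v n
    rw [CoprodI.lift_of]
    simp
  let B : (CoprodI (fun _ : V => Zm) ⧸ Subgroup.normalClosure (oneRel Γ R)) →*
      PresentedGroup (bsRel D p q) :=
    QuotientGroup.lift _ φ (by
      apply Subgroup.normalClosure_le_normal
      rintro _ ⟨u, v, huv, ha, _, rfl, rfl⟩
      have huv' := hadj u v huv ha
      rw [SetLike.mem_coe, MonoidHom.mem_ker, two_bsr, hφ, hφ, zpow_one, zpow_one]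
      have h1 : (QuotientGroup.mk' (Subgroup.normalClosure (bsRel D p q)))
          (FreeGroup.of u * FreeGroup.of v ^ p u v * (FreeGroup.of u)⁻¹ *
            (FreeGroup.of v ^ q u v)⁻¹) = 1 :=
        (QuotientGroup.eq_one_iff _).2 (Subgroup.subset_normalClosure ⟨u, v, huv', rfl⟩)
      rw [map_mul, map_mul, map_mul, map_inv, map_inv, map_zpow, map_zpow] at h1
      exact h1)
  have hBF : ∀ x, B (F x) = x := by
    intro x
    have h1 : B.comp F = MonoidHom.id _ := by
      apply PresentedGroup.ext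
      intro v
      show B (F (PresentedGroup.of v)) = PresentedGroup.of v
      have h2 : F (PresentedGroup.of v) = g v := PresentedGroup.toGroup.of _
      rw [h2]
      show φ (CoprodI.of (M := fun _ : V => Zm) (i := v) (ofAdd 1)) = _
      rw [hφ, zpow_one]
    exact DFunLike.congr_fun h1 x
  exact hC.base.of_injective _ _ F (Function.LeftInverse.injective hBF) hmain

end Pool.Agent.U385.RT
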