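import Pool.Agent.U385.RT.Pres
import Pool.Agent.Y419.PA.Tla

/-!
# Partial commutation of two groups
-/

set_option autoImplicit false

namespace Pool.Agent.U385.RT

open SimpleGraph
open Pool.Agent.Helper705_SA
open Pool.Agent.Y110.FJ
open Pool.Agent.Y462.PA (Am)
open Pool.Agent.R941.FJ (C_equiv C_le C_cyc mem_sup_normal)
open scoped Classical

variable {C : ∀ (G : Type) [Group G], Prop}

section am

variable {K A B : Type} [Group K] [Group A] [Group B] {α : K →* A} {β : K →* B}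

theorem am_isAmalgam (α : K →* A) (β : K →* B) :
    IsAmalgam (Am.inl α β).range (Am.inr α β).range := by
  refine ⟨Am.sup_range α β, ?_⟩
  intro H _ f g hfg
  obtain ⟨h, h1, h2⟩ := (Pool.Agent.Y419.PA.amg α β).univ H f g (fun c hc =>
    hfg c ((Pool.Agent.Y419.PA.amg α β).le_left hc) ((Pool.Agent.Y419.PA.amg α β).le_right hc))
  exact ⟨h, h1, h2⟩

theorem C_Am (hC : ClosedE C) (hα : Function.Injective α) (hβ : Function.Injective β) (hA : C A)
    (hB : C B) {P : Type} [Group P] (f : Am α β →* P) (hP : C P)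
    (hf : ∀ b, f (Am.inr α β b) = 1 → b = 1) : C (Am α β) := by
  obtain ⟨hl, hr⟩ := Pool.Agent.Y419.PA.t_aminj K A B α β hα hβ
  refine am_edge hC _ _ (am_isAmalgam α β) (C_equiv hC.base (MonoidHom.ofInjective hl).symm hA)
    (C_equiv hC.base (MonoidHom.ofInjective hr).symm hB) f hP ?_
  rintro _ - ⟨b, rfl⟩ hb
  rw [hf b hb, map_one]

end am

section two

variable {X Y : Type} [Group X] [Group Y] (H : Subgroup X) (H' : Subgroup Y)

/-- `X` with `H'` added -/
abbrev A0 : Type := Am H.subtype (MonoidHom.inl H H')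

/-- the group `H'` in it -/
noncomputable def a0 : H' →* A0 H H' := (Am.inr H.subtype (MonoidHom.inl H H')).comp (MonoidHom.inr H H')

/-- the projection of `A0` to `H'` -/
noncomputable def p0 : A0 H H' →* H' := Am.lift _ _ 1 (MonoidHom.snd H H') (fun c => rfl)

theorem p0_a0 (h : H') : p0 H H' (a0 H H' h) = h := Am.lift_inr _ _ _ _ _ _

/-- the free product of `X` and `Y` with commuting `H` and `H'` -/
abbrev E0 : Type := Am (a0 H H') H'.subtype

theorem C_A0 (hC : ClosedE C) (hX : C X) (hY : C Y) : C (A0 H H') := by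
  have hH' : C H' := hC.base.of_injective _ _ H'.subtype H'.subtype_injective hY
  have hH : C H := hC.base.of_injective _ _ H.subtype H.subtype_injective hX
  refine C_Am hC H.subtype_injective (fun a b h => congrArg Prod.fst h) hX
    (hC.base.prod _ _ hH hH') (P := X × H')
    (Am.lift _ _ (MonoidHom.inl X H') (H.subtype.prodMap (MonoidHom.id H')) (fun c => rfl))
    (hC.base.prod _ _ hX hH') ?_
  rintro ⟨a, b⟩ h
  have h1 : ((a : X), b) = (1 : X × H') := (Am.lift_inr _ _ _ _ _ (a, b)).symm.trans h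
  have h2 : (a : X) = 1 := congrArg Prod.fst h1
  have h3 : b = 1 := congrArg Prod.snd h1
  exact Prod.ext (Subtype.ext h2) h3

theorem C_E0 (hC : ClosedE C) (hX : C X) (hY : C Y) : C (E0 H H') := by
  refine C_Am hC (fun a b h => ?_) H'.subtype_injective (C_A0 H H' hC hX hY) hY (P := Y)
    (Am.lift _ _ (H'.subtype.comp (p0 H H')) (MonoidHom.id Y) (fun c => ?_)) hY ?_
  · rw [← p0_a0 H H' a, ← p0_a0 H H' b, h]
  · rw [MonoidHom.comp_apply, p0_a0]
    rfl
  · intro b hb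
    rw [Am.lift_inr] at hb
    exact hb

/-- the homomorphism of the product of `H` and `H'` -/
def mh {Z : Type} [Group Z] (φ : X →* Z) (ψ : Y →* Z)
    (h : ∀ a ∈ H, ∀ b ∈ H', φ a * ψ b = ψ b * φ a) : H × H' →* Z where
  toFun p := φ p.1 * ψ p.2
  map_one' := by simp
  map_mul' p q := by
    have h1 := h q.1 q.1.2 p.2 p.2.2
    simp only [Prod.fst_mul, Prod.snd_mul, Subgroup.coe_mul, map_mul]
    rw [mul_assoc, mul_assoc, ← mul_assoc (φ (q.1 : X)), h1, ← mul_assoc (ψ (p.2 : Y))]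

/-- the universal property -/
noncomputable def E0.lift {Z : Type} [Group Z] (φ : X →* Z) (ψ : Y →* Z)
    (h : ∀ a ∈ H, ∀ b ∈ H', φ a * ψ b = ψ b * φ a) : E0 H H' →* Z :=
  Am.lift _ _ (Am.lift _ _ φ (mh H H' φ ψ h) (fun c => by
      show φ (c : X) = φ (c : X) * ψ ((1 : H') : Y)
      rw [Subgroup.coe_one, map_one, mul_one])) ψ (fun c => by
      show Am.lift _ _ _ _ _ (Am.inr _ _ (MonoidHom.inr H H' c)) = _
      rw [Am.lift_inr]
      show φ ((1 : H) : X) * ψ (c : Y) = ψ (c : Y)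
      rw [Subgroup.coe_one, map_one, one_mul])

/-- the first group -/
noncomputable def E0.x : X →* E0 H H' := (Am.inl (a0 H H') H'.subtype).comp (Am.inl _ _)

/-- the second group -/
noncomputable def E0.y : Y →* E0 H H' := Am.inr (a0 H H') H'.subtype

theorem E0.comm {a : X} (ha : a ∈ H) {b : Y} (hb : b ∈ H') :
    E0.x H H' a * E0.y H H' b = E0.y H H' b * E0.x H H' a := by
  have h1 : E0.x H H' a = Am.inl (a0 H H') H'.subtype
      (Am.inr _ _ (MonoidHom.inl H H' ⟨a, ha⟩)) := by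
    rw [← Am.glue]
    rfl
  have h2 : E0.y H H' b = Am.inl (a0 H H') H'.subtype
      (Am.inr _ _ (MonoidHom.inr H H' ⟨b, hb⟩)) := (Am.glue (a0 H H') H'.subtype ⟨b, hb⟩).symm
  rw [h1, h2, ← map_mul, ← map_mul, ← map_mul, ← map_mul]
  congr 2
  exact Prod.ext (by simp) (by simp)

theorem E0.lift_x {Z : Type} [Group Z] (φ : X →* Z) (ψ : Y →* Z)
    (h : ∀ a ∈ H, ∀ b ∈ H', φ a * ψ b = ψ b * φ a) (a : X) :
    E0.lift H H' φ ψ h (E0.x H H' a) = φ a := by
  show Am.lift _ _ _ _ _ (Am.inl _ _ (Am.inl _ _ a)) = _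
  rw [Am.lift_inl, Am.lift_inl]

theorem E0.lift_y {Z : Type} [Group Z] (φ : X →* Z) (ψ : Y →* Z)
    (h : ∀ a ∈ H, ∀ b ∈ H', φ a * ψ b = ψ b * φ a) (b : Y) :
    E0.lift H H' φ ψ h (E0.y H H' b) = ψ b := Am.lift_inr _ _ _ _ _ _

end two

section pc

variable {V : Type} {G : V → Type} [∀ v, Group (G v)] (Γ : SimpleGraph V)
  (H : ∀ v : V, V → Subgroup (G v))

/-- the relations `[H v w, H w v] = 1` -/
def pcRel : Set (Monoid.CoprodI G) :=
  {r | ∃ (v w : V) (a : G v) (b : G w), Γ.Adj v w ∧ a ∈ H v w ∧ b ∈ H w v ∧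
    r = Monoid.CoprodI.of a * Monoid.CoprodI.of b * (Monoid.CoprodI.of a)⁻¹ *
      (Monoid.CoprodI.of b)⁻¹}

theorem pc_rel : ∀ r ∈ pcRel Γ H, Rel Γ G r := by
  rintro _ ⟨v, w, a, b, hvw, ha, hb, rfl⟩
  refine ⟨{v, w}, ?_, ?_, ?_⟩
  · rintro x (rfl | rfl) y (rfl | rfl) hxy
    · exact absurd rfl hxy
    · exact hvw
    · exact hvw.symm
    · exact absurd rfl hxy
  · rw [map_mul, map_mul, map_mul, map_inv, map_inv, kill_of (by simp), kill_of (by simp)]
  · rintro x (rfl | rfl)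
    · have h1 : x ∉ ({x}ᶜ : Set V) := fun h => h rfl
      rw [map_mul, map_mul, map_mul, map_inv, map_inv, kill_of' h1]
      group
    · have h1 : x ∉ ({x}ᶜ : Set V) := fun h => h rfl
      rw [map_mul, map_mul, map_mul, map_inv, map_inv, kill_of' h1]
      group

/-- the projection of the group to the group of an edge -/
noncomputable def prE {v w : V} (hvw : v ≠ w) (x : V) : G x →* E0 (H v w) (H w v) :=
  if h : x = v then h ▸ E0.x (H v w) (H w v) else
    if h' : x = w then h' ▸ E0.y (H v w) (H w v) else 1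

theorem prE_v {v w : V} (hvw : v ≠ w) : prE H hvw v = E0.x (H v w) (H w v) := by
  rw [prE, dif_pos rfl]

theorem prE_w {v w : V} (hvw : v ≠ w) : prE H hvw w = E0.y (H v w) (H w v) := by
  rw [prE, dif_neg hvw.symm, dif_pos rfl]

theorem prE_ne {v w : V} (hvw : v ≠ w) {x : V} (h1 : x ≠ v) (h2 : x ≠ w) (a : G x) :
    prE H hvw x a = 1 := by
  rw [prE, dif_neg h1, dif_neg h2]
  rfl

theorem prE_rel {v w : V} (hvw : v ≠ w) :
    Subgroup.normalClosure (pcRel Γ H) ≤ (Monoid.CoprodI.lift (prE H hvw)).ker := by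
  apply Subgroup.normalClosure_le_normal
  rintro _ ⟨x, y, a, b, hxy, ha, hb, rfl⟩
  rw [SetLike.mem_coe, MonoidHom.mem_ker, map_mul, map_mul, map_mul, map_inv, map_inv,
    Monoid.CoprodI.lift_of, Monoid.CoprodI.lift_of]
  by_cases hx : x = v ∨ x = w
  · by_cases hy : y = v ∨ y = w
    · rcases hx with rfl | rfl <;> rcases hy with rfl | rfl
      · exact absurd rfl hxy.ne
      · rw [prE_v, prE_w, E0.comm _ _ ha hb]
        group
      · rw [prE_v, prE_w, ← E0.comm _ _ hb ha]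
        group
      · exact absurd rfl hxy.ne
    · push Not at hy
      rw [prE_ne H hvw hy.1 hy.2]
      group
  · push Not at hx
    rw [prE_ne H hvw hx.1 hx.2]
    group

theorem C_edge_pc (hC : ClosedE C) (hG : ∀ v, C (G v)) {v w : V} (hvw : Γ.Adj v w) :
    C (gp (pcRel Γ H) {v, w}) := by
  have hne := hvw.ne
  let Φ : Qt (pcRel Γ H) →* E0 (H v w) (H w v) :=
    QuotientGroup.lift _ (Monoid.CoprodI.lift (prE H hne)) (prE_rel Γ H hne)
  let ι : ∀ x, G x →* Qt (pcRel Γ H) := fun x => (QuotientGroup.mk' _).comp Monoid.CoprodI.of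
  have hι : ∀ a ∈ H v w, ∀ b ∈ H w v, ι v a * ι w b = ι w b * ι v a := by
    intro a ha b hb
    have h1 : ((Monoid.CoprodI.of a * Monoid.CoprodI.of b * (Monoid.CoprodI.of a)⁻¹ *
      (Monoid.CoprodI.of b)⁻¹ : Monoid.CoprodI G) : Qt (pcRel Γ H)) = 1 :=
      (QuotientGroup.eq_one_iff _).2 (Subgroup.subset_normalClosure ⟨v, w, a, b, hvw, ha, hb, rfl⟩)
    have h2 : ι v a * ι w b * (ι v a)⁻¹ * (ι w b)⁻¹ = 1 := h1
    rw [mul_inv_eq_one, mul_inv_eq_iff_eq_mul] at h2
    exact h2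
  let Ψ : E0 (H v w) (H w v) →* Qt (pcRel Γ H) := E0.lift _ _ (ι v) (ι w) hι
  have hΨ : ∀ x ∈ gp (pcRel Γ H) {v, w}, Ψ (Φ x) = x := by
    intro x hx
    have hle : gp (pcRel Γ H) {v, w} ≤ (Ψ.comp Φ).eqLocus (MonoidHom.id _) := by
      rw [gp, Subgroup.closure_le]
      rintro _ ⟨z, (rfl | rfl), a, rfl⟩
      · have h1 : Φ ((Monoid.CoprodI.of a : Monoid.CoprodI G) : Qt (pcRel Γ H)) =
            E0.x (H z w) (H w z) a := by
          show Monoid.CoprodI.lift (prE H hne) (Monoid.CoprodI.of a) = _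
          rw [Monoid.CoprodI.lift_of, prE_v]
        show Ψ (Φ _) = _
        rw [h1]
        exact E0.lift_x _ _ _ _ _ _
      · have h1 : Φ ((Monoid.CoprodI.of a : Monoid.CoprodI G) : Qt (pcRel Γ H)) =
            E0.y (H v z) (H z v) a := by
          show Monoid.CoprodI.lift (prE H hne) (Monoid.CoprodI.of a) = _
          rw [Monoid.CoprodI.lift_of, prE_w]
        show Ψ (Φ _) = _
        rw [h1]
        exact E0.lift_y _ _ _ _ _ _
    exact hle hx
  refine hC.base.of_injective _ _ (Φ.comp (Subgroup.subtype _)) ?_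
    (C_E0 (H v w) (H w v) hC (hG v) (hG w))
  intro x y hxy
  apply Subtype.ext
  rw [← hΨ x x.2, ← hΨ y y.2]
  exact congrArg Ψ hxy

theorem gp_mono (R : Set (Monoid.CoprodI G)) {S T : Set V} (h : S ⊆ T) : gp R S ≤ gp R T :=
  Subgroup.closure_mono fun _ ⟨v, hv, a, ha⟩ => ⟨v, h hv, a, ha⟩

/-- the projection of the group to the group of a vertex -/
noncomputable def prV (v x : V) : G x →* G v := if h : x = v then h ▸ MonoidHom.id (G v) else 1

theorem prV_v (v : V) : prV (G := G) v v = MonoidHom.id (G v) := by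
  rw [prV, dif_pos rfl]

theorem prV_ne {v x : V} (h : x ≠ v) (a : G x) : prV v x a = 1 := by
  rw [prV, dif_neg h]
  rfl

theorem pc_proj (v : V) : ∃ Φ : Qt (pcRel Γ H) →* G v,
    ∀ a : G v, Φ ((Monoid.CoprodI.of a : Monoid.CoprodI G) : Qt (pcRel Γ H)) = a := by
  have hker : Subgroup.normalClosure (pcRel Γ H) ≤
      (Monoid.CoprodI.lift (prV (G := G) v)).ker := by
    apply Subgroup.normalClosure_le_normal
    rintro _ ⟨x, y, a, b, hxy, ha, hb, rfl⟩
    rw [SetLike.mem_coe, MonoidHom.mem_ker, map_mul, map_mul, map_mul, map_inv, map_inv,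
      Monoid.CoprodI.lift_of, Monoid.CoprodI.lift_of]
    by_cases hx : x = v
    · have hy : y ≠ v := fun h => hxy.ne (hx.trans h.symm)
      rw [prV_ne hy]
      group
    · rw [prV_ne hx]
      group
  refine ⟨QuotientGroup.lift _ _ hker, ?_⟩
  intro a
  show Monoid.CoprodI.lift (prV (G := G) v) (Monoid.CoprodI.of a) = _
  rw [Monoid.CoprodI.lift_of, prV_v]
  rfl

theorem C_single_pc (hC : ClosedE C) (hG : ∀ v, C (G v)) (v : V) :
    C (gp (pcRel Γ H) {v}) := by
  obtain ⟨Φ, hΦ⟩ := pc_proj Γ H v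
  have hle : gp (pcRel Γ H) {v} ≤
      ((QuotientGroup.mk' (Subgroup.normalClosure (pcRel Γ H))).comp Monoid.CoprodI.of :
        G v →* Qt (pcRel Γ H)).range := by
    rw [gp, Subgroup.closure_le]
    rintro _ ⟨z, hz, a, rfl⟩
    rw [Set.mem_singleton_iff] at hz
    subst hz
    exact ⟨a, rfl⟩
  refine hC.base.of_injective _ _ (Φ.comp (Subgroup.subtype _)) ?_ (hG v)
  rintro ⟨x, hx⟩ ⟨y, hy⟩ hxy
  obtain ⟨a, rfl⟩ := hle hx
  obtain ⟨b, rfl⟩ := hle hy
  have h1 : Φ ((Monoid.CoprodI.of a : Monoid.CoprodI G) : Qt (pcRel Γ H)) =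
    Φ ((Monoid.CoprodI.of b : Monoid.CoprodI G) : Qt (pcRel Γ H)) := hxy
  rw [hΦ, hΦ] at h1
  subst h1
  rfl

theorem C_vertex (hC : ClosedE C) (hQ : C (Qt (pcRel Γ H))) (v : V) : C (G v) := by
  obtain ⟨Φ, hΦ⟩ := pc_proj Γ H v
  refine hC.base.of_injective _ _ ((QuotientGroup.mk' (Subgroup.normalClosure (pcRel Γ H))).comp
    Monoid.CoprodI.of : G v →* Qt (pcRel Γ H)) ?_ hQ
  intro a b hab
  rw [← hΦ a, ← hΦ b]
  exact congrArg Φ hab

/-- **partial commutation along a graph without triangles** -/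
theorem pc_main (hC : ClosedE C) (hG : ∀ v, C (G v))
    (hΓ : ∀ u v w, Γ.Adj u v → Γ.Adj v w → ¬ Γ.Adj u w) : C (Qt (pcRel Γ H)) := by
  refine (pres_main hC (pc_rel Γ H)).2 fun σ _ hσ => ?_
  by_cases h0 : ∃ v ∈ σ, ∃ w ∈ σ, v ≠ w
  · obtain ⟨v, hv, w, hw, hne⟩ := h0
    have hvw := hσ v hv w hw hne
    refine C_le hC.base (gp_mono _ ?_) (C_edge_pc Γ H hC hG hvw)
    intro x hx
    by_contra hcon
    have h1 : x ≠ v := fun h => hcon (Or.inl h)
    have h2 : x ≠ w := fun h => hcon (Or.inr h)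
    exact hΓ v w x hvw (hσ w hw x hx h2.symm) (hσ v hv x hx h1.symm)
  · push Not at h0
    by_cases h1 : σ.Nonempty
    · obtain ⟨v, hv⟩ := h1
      refine C_le hC.base (gp_mono _ ?_) (C_single_pc Γ H hC hG v)
      exact fun x hx => (h0 x hx v hv)
    · rw [Set.not_nonempty_iff_eq_empty] at h1
      subst h1
      have h2 : gp (pcRel Γ H) ∅ = ⊥ := by
        rw [gp, eq_bot_iff, Subgroup.closure_le]
        rintro _ ⟨v, hv, -⟩
        exact absurd hv (Set.notMem_empty v)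
      rw [h2]
      refine hC.base.of_injective _ _
        (1 : (⊥ : Subgroup (Qt (pcRel Γ H))) →* Multiplicative ℤ) ?_ hC.base.int
      intro x y _
      exact Subsingleton.elim x y

end pc

end Pool.Agent.U385.RT
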