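import Pool.Agent.U385.RT.Comm

/-!
# Free products inside amalgamated products
-/

set_option autoImplicit false

namespace Pool.Agent.U385.RT

open Pool.Agent.Y462.PA (Am)
open Pool.Agent.Y419.PA (Fam famHom pushL pushR push_agree fam_inj)
open Monoid (CoprodI PushoutI)

variable {K A B X Y : Type} [Group K] [Group A] [Group B] [Group X] [Group Y]

/-- a pair of homomorphisms as a family -/
def xy (x : X →* A) (y : Y →* B) : ∀ b, Fam X Y b →* Fam A B b
  | true => x
  | false => y

theorem xy_inj {x : X →* A} {y : Y →* B} (hx : Function.Injective x) (hy : Function.Injective y) :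
    ∀ b, Function.Injective (xy x y b)
  | true => hx
  | false => hy

theorem xy_red {α : K →* A} {β : K →* B} {x : X →* A} {y : Y →* B}
    (hx : ∀ a k, x a = α k → a = 1) (hy : ∀ b k, y b = β k → b = 1) :
    ∀ (b : Bool) (a : Fam X Y b), xy x y b a ∈ (famHom α β b).range → a = 1
  | true, a, ⟨k, hk⟩ => hx a k hk.symm
  | false, a, ⟨k, hk⟩ => hy a k hk.symm

/-- a word in the factors of the subgroups as a word in the factors -/
def mapWord {x : X →* A} {y : Y →* B} (hx : Function.Injective x) (hy : Function.Injective y)
    (w : CoprodI.Word (Fam X Y)) : CoprodI.Word (Fam A B) where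
  toList := w.toList.map (Sigma.map id fun b => xy x y b)
  ne_one := by
    intro l hl h
    obtain ⟨m, hm, rfl⟩ := List.mem_map.1 hl
    exact w.ne_one m hm (xy_inj hx hy m.1 (h.trans (map_one _).symm))
  chain_ne := by
    rw [List.isChain_map]
    exact w.chain_ne

/-- **free products in amalgamated products** -/
theorem fp_inj {α : K →* A} {β : K →* B} (hα : Function.Injective α) (hβ : Function.Injective β)
    (x : X →* A) (y : Y →* B) (hx : Function.Injective x) (hy : Function.Injective y)
    (hxα : ∀ a k, x a = α k → a = 1) (hyβ : ∀ b k, y b = β k → b = 1) :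
    Function.Injective (Monoid.Coprod.lift ((Am.inl α β).comp x) ((Am.inr α β).comp y)) := by
  rw [injective_iff_map_eq_one]
  intro z hz
  let push : Am α β →* PushoutI (famHom α β) :=
    Am.lift α β (pushL α β) (pushR α β) (push_agree α β)
  let Ψ : CoprodI (Fam X Y) →* PushoutI (famHom α β) :=
    CoprodI.lift fun b => (PushoutI.of b).comp (xy x y b)
  let e : Monoid.Coprod X Y →* CoprodI (Fam X Y) :=
    Monoid.Coprod.lift (CoprodI.of (i := true) : Fam X Y true →* _)
      (CoprodI.of (i := false) : Fam X Y false →* _)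
  let e' : CoprodI (Fam X Y) →* Monoid.Coprod X Y := CoprodI.lift fun b =>
    match b with
    | true => (Monoid.Coprod.inl : X →* Monoid.Coprod X Y)
    | false => (Monoid.Coprod.inr : Y →* Monoid.Coprod X Y)
  have he : ∀ z, e' (e z) = z := by
    intro z
    have h : e'.comp e = MonoidHom.id _ := by
      apply Monoid.Coprod.hom_ext
      · ext a
        show e' (e (Monoid.Coprod.inl a)) = Monoid.Coprod.inl a
        have h1 : e (Monoid.Coprod.inl a) = CoprodI.of (i := true) (M := Fam X Y) a :=
          Monoid.Coprod.lift_apply_inl _ _ a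
        rw [h1]
        exact CoprodI.lift_of _ _
      · ext a
        show e' (e (Monoid.Coprod.inr a)) = Monoid.Coprod.inr a
        have h1 : e (Monoid.Coprod.inr a) = CoprodI.of (i := false) (M := Fam X Y) a :=
          Monoid.Coprod.lift_apply_inr _ _ a
        rw [h1]
        exact CoprodI.lift_of _ _
    exact DFunLike.congr_fun h z
  let L : Monoid.Coprod X Y →* Am α β :=
    Monoid.Coprod.lift ((Am.inl α β).comp x) ((Am.inr α β).comp y)
  have hL1 : ∀ a, L (Monoid.Coprod.inl a) = Am.inl α β (x a) := fun a =>
    Monoid.Coprod.lift_apply_inl _ _ a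
  have hL2 : ∀ a, L (Monoid.Coprod.inr a) = Am.inr α β (y a) := fun a =>
    Monoid.Coprod.lift_apply_inr _ _ a
  have hp1 : ∀ a, push (Am.inl α β a) = pushL α β a := fun a =>
    Am.lift_inl α β (pushL α β) (pushR α β) (push_agree α β) a
  have hp2 : ∀ a, push (Am.inr α β a) = pushR α β a := fun a =>
    Am.lift_inr α β (pushL α β) (pushR α β) (push_agree α β) a
  have hΨ : ∀ z, Ψ (e z) = push (L z) := by
    intro z
    have h : Ψ.comp e = push.comp L := by
      apply Monoid.Coprod.hom_ext
      · ext a
        show Ψ (e (Monoid.Coprod.inl a)) = push (L (Monoid.Coprod.inl a))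
        have h1 : e (Monoid.Coprod.inl a) = CoprodI.of (i := true) (M := Fam X Y) a :=
          Monoid.Coprod.lift_apply_inl _ _ a
        rw [h1, hL1, hp1]
        exact CoprodI.lift_of _ _
      · ext a
        show Ψ (e (Monoid.Coprod.inr a)) = push (L (Monoid.Coprod.inr a))
        have h1 : e (Monoid.Coprod.inr a) = CoprodI.of (i := false) (M := Fam X Y) a :=
          Monoid.Coprod.lift_apply_inr _ _ a
        rw [h1, hL2, hp2]
        exact CoprodI.lift_of _ _
    exact DFunLike.congr_fun h z
  classical
  let w : CoprodI.Word (Fam X Y) := CoprodI.Word.equiv (e z)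
  have hw : w.prod = e z := CoprodI.Word.equiv.symm_apply_apply (e z)
  have hmap : PushoutI.ofCoprodI (φ := famHom α β) (mapWord hx hy w).prod = Ψ w.prod := by
    rw [CoprodI.Word.prod, CoprodI.Word.prod, map_list_prod, map_list_prod]
    congr 1
    show List.map _ (List.map _ (List.map _ w.toList)) = List.map _ (List.map _ w.toList)
    rw [List.map_map, List.map_map, List.map_map]
    apply List.map_congr_left
    rintro ⟨b, a⟩ -
    show PushoutI.ofCoprodI (CoprodI.of (xy x y b a)) = Ψ (CoprodI.of a)
    rw [PushoutI.ofCoprodI_of]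
    exact (CoprodI.lift_of _ _).symm
  have hred : PushoutI.Reduced (famHom α β) (mapWord hx hy w) := by
    intro l hl hr
    obtain ⟨m, hm, rfl⟩ := List.mem_map.1 hl
    exact w.ne_one m hm (xy_red hxα hyβ m.1 m.2 hr)
  have hempty := hred.eq_empty_of_mem_range (fam_inj hα hβ) (by
    have h0 : L z = 1 := hz
    rw [hmap, hw, hΨ, h0, map_one]
    exact one_mem _)
  have hw1 : w.toList = [] := by
    have h1 := congrArg CoprodI.Word.toList hempty
    exact List.map_eq_nil_iff.1 h1
  have hw2 : e z = 1 := by
    rw [← hw, CoprodI.Word.prod, hw1]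
    rfl
  rw [← he z, hw2, map_one]

/-- the intersection of the factors -/
theorem am_inter {α : K →* A} {β : K →* B} (hα : Function.Injective α) (hβ : Function.Injective β)
    (a : A) (b : B) (h : Am.inl α β a = Am.inr α β b) : ∃ k, a = α k ∧ b = β k := by
  let push : Am α β →* PushoutI (famHom α β) :=
    Am.lift α β (pushL α β) (pushR α β) (push_agree α β)
  have h1 : push (Am.inl α β a) = pushL α β a :=
    Am.lift_inl α β (pushL α β) (pushR α β) (push_agree α β) a
  have h2 : push (Am.inr α β b) = pushR α β b :=
    Am.lift_inr α β (pushL α β) (pushR α β) (push_agree α β) b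
  have h3 : pushL α β a = pushR α β b := by rw [← h1, ← h2, h]
  have h4 := PushoutI.inf_of_range_eq_base_range (φ := famHom α β) (fam_inj hα hβ)
    (i := true) (j := false) (by decide)
  have h5 : pushL α β a ∈ (PushoutI.of (φ := famHom α β) true).range ⊓
      (PushoutI.of (φ := famHom α β) false).range := ⟨⟨a, rfl⟩, ⟨b, h3.symm⟩⟩
  rw [h4] at h5
  obtain ⟨k, hk⟩ := h5
  refine ⟨k, ?_, ?_⟩
  · apply PushoutI.of_injective (φ := famHom α β) (fam_inj hα hβ) true
    exact hk.symm.trans (PushoutI.of_apply_eq_base (famHom α β) true k).symm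
  · apply PushoutI.of_injective (φ := famHom α β) (fam_inj hα hβ) false
    exact (h3.symm.trans hk.symm).trans (PushoutI.of_apply_eq_base (famHom α β) false k).symm

end Pool.Agent.U385.RT
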