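import Pool.Agent.U385.RT.Tr
import Pool.Agent.N509.TX.Sub

/-!
# Acylindrical amalgamated products
-/

set_option autoImplicit false

namespace Pool.Agent.U385.RT

open SimpleGraph
open Pool.Agent.Helper705_SA
open Pool.Agent.Helper270.Tree
open Pool.Agent.Y110.FJ
open Pool.Agent.N509.TK (Acyl)
open Pool.Agent.N509.TX (of_fg C_stab)
open Pool.Agent.R941.FJ (C_equiv C_le)

section

variable {C : ∀ (G : Type) [Group G], Prop} {G : Type} [Group G] {A B : Subgroup G}

theorem C_vert (hC : ClosedE C) (hCA : C A) (hCB : C B) (v : (G ⧸ A) ⊕ (G ⧸ B)) :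
    C ↥(MulAction.stabilizer G v) := by
  rcases v with v | v
  · have h1 : MulAction.stabilizer G (Sum.inl v : (G ⧸ A) ⊕ (G ⧸ B)) =
        MulAction.stabilizer G v := by
      ext x
      rw [MulAction.mem_stabilizer_iff, MulAction.mem_stabilizer_iff]
      exact ⟨fun h => Sum.inl_injective h, fun h => congrArg Sum.inl h⟩
    rw [h1]
    exact C_coset hC A hCA v
  · have h1 : MulAction.stabilizer G (Sum.inr v : (G ⧸ A) ⊕ (G ⧸ B)) =
        MulAction.stabilizer G v := by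
      ext x
      rw [MulAction.mem_stabilizer_iff, MulAction.mem_stabilizer_iff]
      exact ⟨fun h => Sum.inr_injective h, fun h => congrArg Sum.inr h⟩
    rw [h1]
    exact C_coset hC B hCB v

/-- four consecutive vertices with a nontrivial stabilizer -/
theorem four (hac : ∀ g, g ∈ A → g ∈ B → ∀ a ∈ A, a ∉ B → a⁻¹ * g * a ∈ B →
    ∀ b ∈ B, b ∉ A → b⁻¹ * g * b ∈ A → g = 1) {g : G} {x0 x1 x2 x3 : (G ⧸ A) ⊕ (G ⧸ B)}
    (h01 : (cosetGraph A B).Adj x0 x1) (h12 : (cosetGraph A B).Adj x1 x2)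
    (h23 : (cosetGraph A B).Adj x2 x3) (h02 : x0 ≠ x2) (h13 : x1 ≠ x3) (f0 : g • x0 = x0)
    (f1 : g • x1 = x1) (f2 : g • x2 = x2) (f3 : g • x3 = x3) : g = 1 := by
  have key : ∀ (k : G) (y z : (G ⧸ A) ⊕ (G ⧸ B)), (cosetGraph A B).Adj (vA A B k) y →
      (cosetGraph A B).Adj (vB A B k) z → y ≠ vB A B k → z ≠ vA A B k → g • y = y → g • z = z →
      g • vA A B k = vA A B k → g • vB A B k = vB A B k → g = 1 := by
    intro k y z hy hz hyne hzne fy fz fA fB
    obtain ⟨a, ha, rfl⟩ := adj_vA hy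
    obtain ⟨b, hb, rfl⟩ := adj_vB hz
    rw [fix_vB] at fy fB
    rw [fix_vA] at fz fA
    have h1 := hac (k⁻¹ * g * k) fA fB a ha (fun h => hyne (by rw [eq_comm, vB_eq]; simpa using h))
      (by
        have e : a⁻¹ * (k⁻¹ * g * k) * a = (k * a)⁻¹ * g * (k * a) := by group
        rw [e]
        exact fy) b hb (fun h => hzne (by rw [eq_comm, vA_eq]; simpa using h))
      (by
        have e : b⁻¹ * (k⁻¹ * g * k) * b = (k * b)⁻¹ * g * (k * b) := by group
        rw [e]
        exact fz)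
    have e : g = k * (k⁻¹ * g * k) * k⁻¹ := by group
    rw [e, h1, mul_one, mul_inv_cancel]
  obtain ⟨k, ⟨rfl, rfl⟩ | ⟨rfl, rfl⟩⟩ := h12
  · exact key k x0 x3 h01.symm h23 h02 (Ne.symm h13) f0 f3 f1 f2
  · exact key k x3 x0 h23 h01.symm (Ne.symm h13) h02 f3 f0 f2 f1

/-- **acylindrical amalgamated products** -/
theorem acyl_am (hC : ClosedE C) (hA : Acyl C) (h : IsAmalgam A B) (hCA : C A) (hCB : C B)
    (hac : ∀ g, g ∈ A → g ∈ B → ∀ a ∈ A, a ∉ B → a⁻¹ * g * a ∈ B →
      ∀ b ∈ B, b ∉ A → b⁻¹ * g * b ∈ A → g = 1) : C G := by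
  refine of_fg hC fun H hfg => ?_
  refine hA H ((G ⧸ A) ⊕ (G ⧸ B)) (cosetGraph A B) hfg (tact h).isTree
    (fun g u v huv => (tact h).adj g u v huv) (fun g u v huv => (tact h).noInv g u v huv)
    ⟨3, ?_⟩ (fun v => C_stab hC H v (C_vert hC hCA hCB v))
  intro u v p hp h3 g hg
  have hadj : ∀ i < p.length, (cosetGraph A B).Adj (p.getVert i) (p.getVert (i + 1)) :=
    fun i hi => p.adj_getVert_succ hi
  have hne : ∀ i j, i ≤ p.length → j ≤ p.length → i ≠ j → p.getVert i ≠ p.getVert j := by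
    intro i j hi hj hij heq
    exact hij (hp.getVert_injOn hi hj heq)
  have hfix : ∀ i, (g : G) • p.getVert i = p.getVert i := fun i => hg _ (p.getVert_mem_support i)
  apply Subtype.ext
  exact four hac (hadj 0 (by omega)) (hadj 1 (by omega)) (hadj 2 (by omega))
    (hne 0 2 (by omega) (by omega) (by omega)) (hne 1 3 (by omega) (by omega) (by omega))
    (hfix 0) (hfix 1) (hfix 2) (hfix 3)

end

end Pool.Agent.U385.RT
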