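import Pool.Agent.U385.RT.Pr3
import Pool.Agent.U385.RT.Tr2

/-!
# Graphs of girth five: the amalgams as subgroups
-/

set_option autoImplicit false

namespace Pool.Agent.U385.RT

open SimpleGraph
open Pool.Agent.Y462.PA (Am)
open Pool.Agent.Y419.PA (Fam famHom pushL pushR push_agree fam_inj)
open Pool.Agent.Helper705_SA
open Monoid (CoprodI PushoutI)
open scoped Classical

section

variable {K A B X Y : Type} [Group K] [Group A] [Group B] [Group X] [Group Y]
variable {α : K →* A} {β : K →* B} {x : X →* A} {y : Y →* B}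

theorem eq_of_mul_eqL (u b : A) (P : PushoutI (famHom α β))
    (h : PushoutI.of (φ := famHom α β) true u * P = PushoutI.of (φ := famHom α β) true b) :
    P = PushoutI.of (φ := famHom α β) true (u⁻¹ * b : A) :=
  eq_of_mul_eq' (PushoutI.of (φ := famHom α β) true) u b P h

/-- the meet of the free product with the first factor -/
theorem fp_inl (hα : Function.Injective α) (hβ : Function.Injective β)
    (hx : Function.Injective x) (hy : Function.Injective y)
    (hxα : ∀ a k, x a = α k → a = 1) (hyβ : ∀ b k, y b = β k → b = 1)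
    (z : Monoid.Coprod X Y) (b : A) (h : fpL α β x y z = Am.inl α β b) :
    ∃ c, z = Monoid.Coprod.inl c := by
  classical
  let w : CoprodI.Word (Fam X Y) := CoprodI.Word.equiv (toFam X Y z)
  have hw : w.prod = toFam X Y z := CoprodI.Word.equiv.symm_apply_apply (toFam X Y z)
  have hz : z = ofFam X Y w.prod := by rw [hw, ofFam_toFam]
  have hΨ : Psi α β x y w.prod = PushoutI.of (φ := famHom α β) true b := by
    rw [hw, Psi_toFam, h, psh_inl]
    rfl
  clear_value w
  rw [hz]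
  clear hz hw h
  induction w using CoprodI.Word.consRecOn with
  | empty => exact ⟨1, by rw [CoprodI.Word.prod_empty, map_one, map_one]⟩
  | cons i m w h1 h2 _ =>
    cases i with
    | false =>
      exfalso
      have h3 := Psi_factor hα hβ hx hy hxα hyβ true b (CoprodI.Word.cons m w h1 h2)
        (by simp) hΨ
      exact absurd (congrArg CoprodI.Word.toList h3) (List.cons_ne_nil _ _)
    | true =>
      have h3 : Psi α β x y w.prod =
          PushoutI.of (φ := famHom α β) true ((x (m : X))⁻¹ * b : A) := by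
        have h4 : Psi α β x y (CoprodI.of m) = PushoutI.of (φ := famHom α β) true (x (m : X) : A) :=
          CoprodI.lift_of _ _
        rw [CoprodI.Word.prod_cons, map_mul, h4] at hΨ
        exact eq_of_mul_eqL (α := α) (β := β) _ _ _ hΨ
      have h6 := Psi_factor hα hβ hx hy hxα hyβ true _ w h1 h3
      refine ⟨(m : X), ?_⟩
      rw [CoprodI.Word.prod_cons, h6, CoprodI.Word.prod_empty, mul_one]
      exact ofFam_true (X := X) (Y := Y) (m : X)

end

section

variable {V : Type} [LinearOrder V] {Γ : SimpleGraph V} {G : V → Type} [∀ v, Group (G v)]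
  {R : ∀ u v, Set (Monoid.Coprod (G u) (G v))}

theorem Spl.factorL {S0 S1 S2 S : Set V} {d : Dec Γ R S0 S1 S2 S} {c : V} {D : Set V}
    (s : Spl Γ R d c D) (x : Qs Γ R D) (w : Qs Γ R S1)
    (h : tr s.subset x = tr d.h1 w) : ∃ a : G c, x = vof Γ R D c a := by
  obtain ⟨lam, h1, h2⟩ := indep_split (R := R) s.ind s.cD
  have h' := congrArg d.iso h
  rw [s.key lam h1 h2, d.iso_left] at h'
  obtain ⟨a, ha⟩ := fp_inl s.α s.β s.xinj s.y s.xα s.yβ _ w h'
  refine ⟨a, lam.injective ?_⟩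
  rw [ha]
  exact (h1 a).symm

theorem tr_vof {S T : Set V} (h : S ⊆ T) {v : V} (hv : v ∈ S) (a : G v) :
    tr h (vof Γ R S v a) = vof Γ R T v a := tr_of h hv a

theorem range_le {D S : Set V} (hD : D ⊆ S) (M : Subgroup (Qs Γ R S))
    (h : ∀ v ∈ D, ∀ a : G v, vof Γ R S v a ∈ M) : (tr (Γ := Γ) (R := R) hD).range ≤ M := by
  rintro _ ⟨x, rfl⟩
  obtain ⟨x, rfl⟩ := pi_surj D x
  induction x using CoprodI.induction_on with
  | one =>
    rw [map_one, map_one]
    exact one_mem M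
  | of v a =>
    by_cases hv : v ∈ D
    · rw [tr_of hD hv]
      exact h v hv a
    · rw [pi_out hv, map_one]
      exact one_mem M
  | mul x y hx hy =>
    rw [map_mul, map_mul]
    exact mul_mem hx hy

theorem range_mono {D E S : Set V} (hD : D ⊆ S) (hE : E ⊆ S) (h : D ⊆ E) :
    (tr (Γ := Γ) (R := R) hD).range ≤ (tr (Γ := Γ) (R := R) hE).range := by
  rintro _ ⟨x, rfl⟩
  exact ⟨tr h x, tr_tr h hE x⟩

theorem vof_mem {D S : Set V} (hD : D ⊆ S) {v : V} (hv : v ∈ D) (a : G v) :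
    vof Γ R S v a ∈ (tr (Γ := Γ) (R := R) hD).range := ⟨vof Γ R D v a, tr_vof hD hv a⟩

/-- the subgroup of `D` is generated by `G c` and the subgroup of `D - c` -/
theorem range_sup {D S : Set V} (hD : D ⊆ S) {c : V} (hc : c ∈ D) (hD' : D \ {c} ⊆ S) :
    (tr (Γ := Γ) (R := R) hD).range = (vof Γ R S c).range ⊔ (tr (Γ := Γ) (R := R) hD').range := by
  apply le_antisymm
  · refine range_le hD _ fun v hv a => ?_
    by_cases hvc : v = c
    · subst hvc
      exact Subgroup.mem_sup_left ⟨a, rfl⟩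
    · exact Subgroup.mem_sup_right (vof_mem hD' ⟨hv, hvc⟩ a)
  · refine sup_le ?_ (range_mono hD' hD Set.sdiff_subset)
    rintro _ ⟨a, rfl⟩
    exact vof_mem hD hc a

theorem Dec.amalgam {S0 S1 S2 S : Set V} (d : Dec Γ R S0 S1 S2 S) :
    IsAmalgam (tr (Γ := Γ) (R := R) d.h1).range (tr (Γ := Γ) (R := R) d.h2).range := by
  refine ⟨?_, ?_⟩
  · rw [eq_top_iff]
    have h1 := range_le (Γ := Γ) (R := R) (subset_refl S)
      ((tr (Γ := Γ) (R := R) d.h1).range ⊔ (tr (Γ := Γ) (R := R) d.h2).range) (by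
        intro v hv a
        rcases d.cup v hv with h | h
        · exact Subgroup.mem_sup_left (vof_mem d.h1 h a)
        · exact Subgroup.mem_sup_right (vof_mem d.h2 h a))
    intro x _
    exact h1 ⟨x, tr_self _ x⟩
  · intro K _ f g hfg
    let Φ : Am (tr (Γ := Γ) (R := R) d.h01) (tr (Γ := Γ) (R := R) d.h02) →* K :=
      Am.lift _ _ (f.comp (tr d.h1).rangeRestrict) (g.comp (tr d.h2).rangeRestrict) (by
        intro c
        have e : tr d.h1 (tr (Γ := Γ) (R := R) d.h01 c) = tr d.h2 (tr d.h02 c) := by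
          rw [tr_tr, tr_tr]
        have h1 := hfg (tr d.h1 (tr (Γ := Γ) (R := R) d.h01 c)) ⟨_, rfl⟩ ⟨_, e.symm⟩
        refine h1.trans ?_
        show g _ = g _
        congr 1
        exact Subtype.ext e)
    refine ⟨Φ.comp d.iso.toMonoidHom, ?_, ?_⟩
    · rintro ⟨_, x, rfl⟩
      show Φ (d.iso (tr d.h1 x)) = _
      rw [d.iso_left]
      exact Am.lift_inl _ _ _ _ _ _
    · rintro ⟨_, x, rfl⟩
      show Φ (d.iso (tr d.h2 x)) = _
      rw [d.iso_right]
      exact Am.lift_inr _ _ _ _ _ _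

theorem Dec.inter {S0 S1 S2 S : Set V} (d : Dec Γ R S0 S1 S2 S)
    (hα : Function.Injective (tr (Γ := Γ) (R := R) d.h01))
    (hβ : Function.Injective (tr (Γ := Γ) (R := R) d.h02)) {x : Qs Γ R S1} {y : Qs Γ R S2}
    (h : tr d.h1 x = tr d.h2 y) : ∃ k, x = tr d.h01 k ∧ y = tr d.h02 k := by
  have h' := congrArg d.iso h
  rw [d.iso_left, d.iso_right] at h'
  exact am_inter hα hβ x y h'

/-- `G u` is malnormal in the group of the edge `{u, c}` and not conjugate into `G c` -/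
def Good (Γ : SimpleGraph V) (R : ∀ u v, Set (Monoid.Coprod (G u) (G v))) (u c : V) : Prop :=
  ∀ T : Set V, T = {u, c} → ∀ g : G u, g ≠ 1 → ∀ x : Qs Γ R T,
    (∀ a : G u, x⁻¹ * vof Γ R T u g * x = vof Γ R T u a → ∃ e : G u, x = vof Γ R T u e) ∧
    ∀ a : G c, x⁻¹ * vof Γ R T u g * x ≠ vof Γ R T c a

/-- conjugates of elements of `G u` in the free product, for a decomposition at `u` -/
theorem outL {S0 S1 S2 S : Set V} (d : Dec Γ R S0 S1 S2 S) {u : V} {D : Set V}
    (s : Spl Γ R d u D) {g : G u} (hg : ∀ x : Qs Γ R S1,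
      (∀ a : G u, x⁻¹ * vof Γ R S1 u g * x = vof Γ R S1 u a → ∃ e : G u, x = vof Γ R S1 u e) ∧
      ∀ k : Qs Γ R S0, x⁻¹ * vof Γ R S1 u g * x ≠ tr d.h01 k) (l : Qs Γ R S) (z : Qs Γ R D)
    (h : l⁻¹ * vof Γ R S u g * l = tr s.subset z) : ∃ z' : Qs Γ R D, l = tr s.subset z' := by
  have hI := d.amalgam
  have hγ : vof Γ R S u g ∈ (tr (Γ := Γ) (R := R) d.h1).range := vof_mem d.h1 s.c1 g
  have hno : ∀ x ∈ (tr (Γ := Γ) (R := R) d.h1).range, x⁻¹ * vof Γ R S u g * x ∉
      (tr (Γ := Γ) (R := R) d.h2).range := by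
    rintro _ ⟨x, rfl⟩ ⟨y, hy⟩
    have h1 : tr d.h1 (x⁻¹ * vof Γ R S1 u g * x) = tr d.h2 y := by
      rw [map_mul, map_mul, map_inv, tr_vof d.h1 s.c1]
      exact hy.symm
    obtain ⟨k, hk, -⟩ := d.inter s.α s.β h1
    exact (hg x).2 k hk
  have hsub : D \ {u} ⊆ S := s.sub.trans d.h2
  have hFXY := range_sup (Γ := Γ) (R := R) s.subset s.cD hsub
  have hX : (vof Γ R S u).range ≤ (tr (Γ := Γ) (R := R) d.h1).range := by
    rintro _ ⟨a, rfl⟩
    exact vof_mem d.h1 s.c1 a
  have hY : (tr (Γ := Γ) (R := R) hsub).range ≤ (tr (Γ := Γ) (R := R) d.h2).range :=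
    range_mono hsub d.h2 s.sub
  have hfix : tr s.subset z • (l⁻¹ • vA (tr (Γ := Γ) (R := R) d.h1).range
      (tr (Γ := Γ) (R := R) d.h2).range 1) = l⁻¹ • vA _ _ 1 := by
    rw [← h, smul_smul, mul_assoc, mul_inv_cancel, mul_one, ← smul_smul]
    congr 1
    exact fix_vA.2 (by simpa using hγ)
  obtain ⟨_, ⟨f, rfl⟩, hf⟩ := lemEll hI hX hY hFXY ⟨z, rfl⟩ hfix
  have e : (tr s.subset f)⁻¹ * tr s.subset z * tr s.subset f =
      (l * tr s.subset f)⁻¹ * vof Γ R S u g * (l * tr s.subset f) := by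
    rw [← h]
    group
  have hE := lemE hI hγ hno (l * tr s.subset f)
  rcases hf with hf | hf
  · have hf' := hf
    rw [e] at hf'
    obtain ⟨x, hx⟩ := hE.1 hf'
    obtain ⟨w, hw⟩ := hf
    have h1 : tr s.subset (f⁻¹ * z * f) = tr d.h1 w := by
      rw [hw, map_mul, map_mul, map_inv]
    obtain ⟨a, ha⟩ := s.factorL _ _ h1
    have h2 : x⁻¹ * vof Γ R S1 u g * x = vof Γ R S1 u a := by
      apply d.inj_left s.α s.β
      rw [map_mul, map_mul, map_inv, tr_vof d.h1 s.c1, tr_vof d.h1 s.c1, hx, ← e, ← map_inv,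
        ← map_mul, ← map_mul, ha, tr_vof s.subset s.cD]
    obtain ⟨c, hc⟩ := (hg x).1 a h2
    refine ⟨vof Γ R D u c * f⁻¹, ?_⟩
    rw [map_mul, map_inv, tr_vof s.subset s.cD, ← tr_vof d.h1 s.c1, ← hc, hx,
      mul_inv_cancel_right]
  · rw [e] at hf
    exact absurd hf hE.2

end

end Pool.Agent.U385.RT
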