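import Pool.Agent.U385.RT.Gi

/-!
# Graphs of girth five: malnormality
-/

set_option autoImplicit false

namespace Pool.Agent.U385.RT

open SimpleGraph
open Pool.Agent.Y462.PA (Am)
open Pool.Agent.Helper705_SA
open Monoid (CoprodI PushoutI)
open scoped Classical

section

variable {V : Type} [LinearOrder V] {Γ : SimpleGraph V} {G : V → Type} [∀ v, Group (G v)]
  {R : ∀ u v, Set (Monoid.Coprod (G u) (G v))}

theorem vof_surj {b : V} (x : Qs Γ R {b}) : ∃ a : G b, x = vof Γ R {b} b a := by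
  obtain ⟨f, hf⟩ := single' (Γ := Γ) (R := R) b (T := {b}) rfl (fun v hv => hv)
  obtain ⟨a, rfl⟩ := f.surjective x
  exact ⟨a, hf a⟩

/-- the free product data in a star -/
theorem spl_star (h : TriFree Γ R) {b : V} {K : Set V} (hfin : K.Finite)
    (hK : ∀ u ∈ K, Γ.Adj u b) {u : V} (hu : u ∈ K) :
    Spl Γ R (dec_star (R := R) h hK hu) u K := by
  have hK' : ∀ v ∈ K \ {u}, Γ.Adj v b := fun v hv => hK v hv.1
  have hst := star h b _ (K \ {u}) (hfin.subset Set.sdiff_subset) rfl hK'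
  exact
    { α := edge_inj h (hK u hu) _
      β := vert_inj h (hfin.subset Set.sdiff_subset) hK' _
      ind := fun x hx y hy hxy => h.tri x y b hxy (hK y hy) (hK x hx)
      c1 := Or.inl rfl
      cD := hu
      sub := Set.subset_insert b _
      x := by
        intro c hc
        refine (h.edge (hK u hu) rfl c 1 ?_).1
        rw [hc, map_one, map_one]
      xα := by
        intro c k hk
        obtain ⟨e, rfl⟩ := vof_surj k
        rw [tr_vof _ (Set.mem_singleton b)] at hk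
        exact (h.edge (hK u hu) rfl c e hk).1
      y := by
        rw [injective_iff_map_eq_one]
        intro x hx
        refine (hst x 1 ?_).1
        rw [hx, map_one, map_one]
      yβ := by
        intro z k hk
        obtain ⟨e, rfl⟩ := vof_surj k
        rw [tr_vof _ (Set.mem_singleton b)] at hk
        exact (hst z e hk).1 }

theorem alpha_at (h : TriFree Γ R) {S : Set V} (hfin : S.Finite) (b : V)
    (hs : {u | u ∈ S ∧ Γ.Adj u b} ⊆ insert b {u | u ∈ S ∧ Γ.Adj u b}) :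
    Function.Injective (tr (Γ := Γ) (R := R) hs) := by
  rw [injective_iff_map_eq_one]
  intro x hx
  refine (star h b _ {u | u ∈ S ∧ Γ.Adj u b} (hfin.subset fun u hu => hu.1) rfl
    (fun u hu => hu.2) x 1 ?_).1
  rw [map_one, map_one]
  exact hx

theorem ind_nb (h : TriFree Γ R) (S : Set V) (b : V) :
    ∀ u ∈ {u | u ∈ S ∧ Γ.Adj u b}, ∀ v ∈ {u | u ∈ S ∧ Γ.Adj u b}, ¬ Γ.Adj u v :=
  fun u hu v hv huv => h.tri u v b huv hv.2 hu.2

/-- the free product data at a vertex -/
theorem spl_at (h : TriFree Γ R) {S : Set V} (hfin : S.Finite) {b : V} (hb : b ∈ S) {D : Set V}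
    (hD : D ⊆ S) (hind : ∀ u ∈ D, ∀ v ∈ D, ¬ Γ.Adj u v) (hbD : b ∈ D) :
    Spl Γ R (dec_at (Γ := Γ) (R := R) hb) b D := by
  obtain ⟨ih1, ih2⟩ := ind_main h _ (S \ {b}) (hfin.subset Set.sdiff_subset) rfl
  have hD' : D \ {b} ⊆ S \ {b} := fun u hu => ⟨hD hu.1, hu.2⟩
  have hind' : ∀ u ∈ D \ {b}, ∀ v ∈ D \ {b}, ¬ Γ.Adj u v := fun u hu v hv =>
    hind u hu.1 v hv.1
  have hst := star h b _ {u | u ∈ S ∧ Γ.Adj u b} (hfin.subset fun u hu => hu.1) rfl
    (fun u hu => hu.2)
  exact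
    { α := alpha_at h hfin b _
      β := ih1 _ _ (ind_nb h S b)
      ind := hind
      c1 := Or.inl rfl
      cD := hbD
      sub := hD'
      x := by
        intro a ha
        refine (hst 1 a ?_).2
        rw [ha, map_one]
      xα := by
        intro a k hk
        exact (hst k a hk.symm).2
      y := ih1 _ hD' hind'
      yβ := by
        intro z k hk
        have h1 := ih2 _ _ hD' (dec_at (Γ := Γ) (R := R) hb).h02 hind' (ind_nb h S b)
          (fun x hx hx' => hind x hx.1 b hbD hx'.2) z k hk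
        exact ih1 _ hD' hind' (h1.trans (map_one _).symm) }

theorem vof_inj_star (h : TriFree Γ R) {b : V} {K : Set V} (hfin : K.Finite)
    (hK : ∀ u ∈ K, Γ.Adj u b) {a : G b} (ha : vof Γ R (insert b K) b a = 1) : a = 1 :=
  (star h b _ K hfin rfl hK 1 a (by rw [map_one]; exact ha.symm)).2

/-- **the vertex group of the centre is malnormal in the star, and not conjugate into the free
product of the other vertex groups** -/
theorem starMal (h : TriFree Γ R) (u : V) (n : ℕ) : ∀ N : Set V, N.Finite → N.ncard = n →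
    (∀ c ∈ N, Γ.Adj c u ∧ Good Γ R u c) → ∀ g : G u, g ≠ 1 → ∀ l : Qs Γ R (insert u N),
      (∀ a : G u, l⁻¹ * vof Γ R (insert u N) u g * l = vof Γ R (insert u N) u a →
        ∃ e : G u, l = vof Γ R (insert u N) u e) ∧
      ∀ z : Qs Γ R N, l⁻¹ * vof Γ R (insert u N) u g * l ≠ tr (Set.subset_insert u N) z := by
  induction n with
  | zero =>
    intro N hfin hn _ g hg l
    rw [Set.ncard_eq_zero hfin] at hn
    subst hn
    obtain ⟨f, hf⟩ := single' (Γ := Γ) (R := R) u (T := insert u ∅) (Or.inl rfl) (by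
      intro v hv
      rcases hv with rfl | hv
      · rfl
      · exact absurd hv (Set.notMem_empty v))
    obtain ⟨c, rfl⟩ := f.surjective l
    refine ⟨fun _ _ => ⟨c, hf c⟩, fun z hz => ?_⟩
    have hz1 : z = 1 := empty_eq Set.not_nonempty_empty z
    have h1 : f (c⁻¹ * g * c) = 1 := by
      rw [map_mul, map_mul, map_inv, hf g]
      rw [hz1, map_one] at hz
      exact hz
    have h2 : c⁻¹ * g * c = 1 := f.injective (h1.trans (map_one f).symm)
    apply hg
    have e : g = c * (c⁻¹ * g * c) * c⁻¹ := by group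
    rw [e, h2, mul_one, mul_inv_cancel]
  | succ n ih =>
    intro N hfin hn hN g hg l
    obtain ⟨c, hc⟩ : N.Nonempty := by
      rw [Set.nonempty_iff_ne_empty]
      rintro rfl
      simp at hn
    have hK : ∀ v ∈ N, Γ.Adj v u := fun v hv => (hN v hv).1
    have ih' := ih (N \ {c}) (hfin.subset Set.sdiff_subset)
      (by rw [Set.ncard_sdiff_singleton_of_mem hc, hn]; rfl) (fun v hv => hN v hv.1) g hg
    have d := dec_star (R := R) h hK hc
    have s : Spl Γ R d c N := spl_star h hfin hK hc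
    have hI := d.amalgam
    have hgood := (hN c hc).2 {c, u} (Set.pair_comm c u) g hg
    have u1 : u ∈ ({c, u} : Set V) := Or.inr rfl
    have u2 : u ∈ insert u (N \ {c}) := Or.inl rfl
    have hγA : vof Γ R (insert u N) u g ∈ (tr (Γ := Γ) (R := R) d.h1).range := vof_mem d.h1 u1 g
    have hγB : vof Γ R (insert u N) u g ∈ (tr (Γ := Γ) (R := R) d.h2).range := vof_mem d.h2 u2 g
    have hA : ∀ x ∈ (tr (Γ := Γ) (R := R) d.h1).range, x⁻¹ * vof Γ R (insert u N) u g * x ∈
        (tr (Γ := Γ) (R := R) d.h2).range → x ∈ (tr (Γ := Γ) (R := R) d.h2).range := by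
      rintro _ ⟨x, rfl⟩ ⟨y, hy⟩
      have h1 : tr d.h1 (x⁻¹ * vof Γ R {c, u} u g * x) = tr d.h2 y := by
        rw [map_mul, map_mul, map_inv, tr_vof d.h1 u1]
        exact hy.symm
      obtain ⟨k, hk, -⟩ := d.inter s.α s.β h1
      obtain ⟨a, rfl⟩ := vof_surj k
      rw [tr_vof d.h01 (Set.mem_singleton u)] at hk
      obtain ⟨e, he⟩ := (hgood x).1 a hk
      rw [he, tr_vof d.h1 u1]
      exact vof_mem d.h2 u2 e
    have hB : ∀ x ∈ (tr (Γ := Γ) (R := R) d.h2).range, x⁻¹ * vof Γ R (insert u N) u g * x ∈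
        (tr (Γ := Γ) (R := R) d.h1).range → x ∈ (tr (Γ := Γ) (R := R) d.h1).range := by
      rintro _ ⟨x, rfl⟩ ⟨y, hy⟩
      have h1 : tr d.h1 y = tr d.h2 (x⁻¹ * vof Γ R (insert u (N \ {c})) u g * x) := by
        rw [map_mul, map_mul, map_inv, tr_vof d.h2 u2]
        exact hy
      obtain ⟨k, -, hk⟩ := d.inter s.α s.β h1
      obtain ⟨a, rfl⟩ := vof_surj k
      rw [tr_vof d.h02 (Set.mem_singleton u)] at hk
      obtain ⟨e, he⟩ := (ih' x).1 a hk
      rw [he, tr_vof d.h2 u2]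
      exact vof_mem d.h1 u1 e
    have toA : ∀ p : Qs Γ R (insert u N), p⁻¹ * vof Γ R (insert u N) u g * p ∈
        (tr (Γ := Γ) (R := R) d.h1).range → p ∈ (tr (Γ := Γ) (R := R) d.h1).range := by
      intro p hp
      rcases lemMal hI hγA hγB hA hB (fix_vA.2 hp) with h1 | h1
      · have h2 := vA_eq.1 h1.symm
        simpa using h2
      · exact absurd h1 vA_ne
    have toB : ∀ p : Qs Γ R (insert u N), p⁻¹ * vof Γ R (insert u N) u g * p ∈
        (tr (Γ := Γ) (R := R) d.h2).range → p ∈ (tr (Γ := Γ) (R := R) d.h2).range := by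
      intro p hp
      rcases lemMal hI hγA hγB hA hB (fix_vB.2 hp) with h1 | h1
      · exact absurd h1.symm vA_ne
      · have h2 := vB_eq.1 h1.symm
        simpa using h2
    refine ⟨fun a ha => ?_, fun z hz => ?_⟩
    · obtain ⟨x, hx⟩ := toA l (by rw [ha]; exact vof_mem d.h1 u1 a)
      obtain ⟨y, hy⟩ := toB l (by rw [ha]; exact vof_mem d.h2 u2 a)
      obtain ⟨k, hk, -⟩ := d.inter s.α s.β (hx.trans hy.symm)
      obtain ⟨e, rfl⟩ := vof_surj k
      refine ⟨e, ?_⟩
      rw [← hx, hk, tr_vof d.h01 (Set.mem_singleton u), tr_vof d.h1 u1]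
    · have hsub : N \ {c} ⊆ insert u N := s.sub.trans d.h2
      have hFXY := range_sup (Γ := Γ) (R := R) s.subset s.cD hsub
      have hX : (vof Γ R (insert u N) c).range ≤ (tr (Γ := Γ) (R := R) d.h1).range := by
        rintro _ ⟨a, rfl⟩
        exact vof_mem d.h1 s.c1 a
      have hY : (tr (Γ := Γ) (R := R) hsub).range ≤ (tr (Γ := Γ) (R := R) d.h2).range :=
        range_mono hsub d.h2 s.sub
      have hz' : l⁻¹ * vof Γ R (insert u N) u g * l = tr s.subset z := hz
      have hfix : tr s.subset z • (l⁻¹ • vA (tr (Γ := Γ) (R := R) d.h1).range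
          (tr (Γ := Γ) (R := R) d.h2).range 1) = l⁻¹ • vA _ _ 1 := by
        rw [← hz', smul_smul, mul_assoc, mul_inv_cancel, mul_one, ← smul_smul]
        congr 1
        exact fix_vA.2 (by simpa using hγA)
      obtain ⟨_, ⟨f, rfl⟩, hf⟩ := lemEll hI hX hY hFXY ⟨z, rfl⟩ hfix
      have e : (tr s.subset f)⁻¹ * tr s.subset z * tr s.subset f =
          (l * tr s.subset f)⁻¹ * vof Γ R (insert u N) u g * (l * tr s.subset f) := by
        rw [← hz']
        group
      have e' : tr s.subset (f⁻¹ * z * f) =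
          (l * tr s.subset f)⁻¹ * vof Γ R (insert u N) u g * (l * tr s.subset f) := by
        rw [← e, map_mul, map_mul, map_inv]
      rcases hf with hf | hf
      · obtain ⟨w, hw⟩ := hf
        have hf' : (l * tr s.subset f)⁻¹ * vof Γ R (insert u N) u g * (l * tr s.subset f) ∈
            (tr (Γ := Γ) (R := R) d.h1).range := by
          rw [← e, ← hw]
          exact ⟨w, rfl⟩
        obtain ⟨x, hx⟩ := toA _ hf'
        have h1 : tr s.subset (f⁻¹ * z * f) = tr d.h1 w := by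
          rw [hw, map_mul, map_mul, map_inv]
        obtain ⟨a, ha⟩ := s.factorL _ _ h1
        refine (hgood x).2 a ?_
        apply d.inj_left s.α s.β
        rw [map_mul, map_mul, map_inv, tr_vof d.h1 u1, tr_vof d.h1 s.c1, hx, ← e', ha,
          tr_vof s.subset s.cD]
      · obtain ⟨w, hw⟩ := hf
        have hf' : (l * tr s.subset f)⁻¹ * vof Γ R (insert u N) u g * (l * tr s.subset f) ∈
            (tr (Γ := Γ) (R := R) d.h2).range := by
          rw [← e, ← hw]
          exact ⟨w, rfl⟩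
        obtain ⟨x, hx⟩ := toB _ hf'
        have h1 : tr s.subset (f⁻¹ * z * f) = tr d.h2 w := by
          rw [hw, map_mul, map_mul, map_inv]
        obtain ⟨z', hz'⟩ := s.factor _ _ h1
        refine (ih' x).2 z' ?_
        apply d.inj_right s.α s.β
        rw [map_mul, map_mul, map_inv, tr_vof d.h2 u2, hx, ← e', hz', tr_tr, tr_tr]

/-- disjoint parts of an independent set -/
theorem indep_comm {E N K : Set V} (hE : ∀ u ∈ E, ∀ v ∈ E, ¬ Γ.Adj u v) (hN : N ⊆ E)
    (hK : K ⊆ E) (hdis : ∀ x ∈ N, x ∉ K) (hcup : ∀ x ∈ E, x ∈ N ∨ x ∈ K)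
    {y y' : Qs Γ R K} {m m' : Qs Γ R N}
    (h : (tr hK y)⁻¹ * tr hN m * tr hK y' = tr hN m') (hy : y ≠ 1) : m = 1 := by
  -- the retractions
  have ret : ∀ D : Set V, ∃ ρ : Qs Γ R E →* Qs Γ R D, (∀ v ∈ D, v ∈ E → ∀ a : G v,
      ρ (vof Γ R E v a) = vof Γ R D v a) ∧ ∀ v, v ∉ D → ∀ a : G v, ρ (vof Γ R E v a) = 1 := by
    intro D
    refine ⟨Qs.lift ((pi D).comp (kill G (D ∩ E))) (fun u v hu hv _ huv => absurd huv (hE u hu v hv))
      (fun v hv a => ?_), fun v hv hvE a => ?_, fun v hv a => ?_⟩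
    · rw [MonoidHom.comp_apply, kill_of' (fun h => hv h.2), map_one]
    · show pi D (kill G (D ∩ E) (CoprodI.of a)) = _
      rw [kill_of (show v ∈ D ∩ E from ⟨hv, hvE⟩)]
      rfl
    · show pi D (kill G (D ∩ E) (CoprodI.of a)) = _
      rw [kill_of' (fun h => hv h.1), map_one]
  obtain ⟨ρ, hρ1, hρ2⟩ := ret K
  have hρK : ∀ x : Qs Γ R K, ρ (tr hK x) = x := by
    intro x
    have h1 : ρ.comp (tr hK) = MonoidHom.id _ := by
      apply Qs.hom_ext
      intro v hv a
      rw [MonoidHom.comp_apply, tr_of hK hv]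
      exact hρ1 v hv (hK hv) a
    exact DFunLike.congr_fun h1 x
  have hρN : ∀ x : Qs Γ R N, ρ (tr hN x) = 1 := by
    intro x
    have h1 : ρ.comp (tr hN) = 1 := by
      apply Qs.hom_ext
      intro v hv a
      rw [MonoidHom.comp_apply, tr_of hN hv]
      exact hρ2 v (hdis v hv) a
    exact DFunLike.congr_fun h1 x
  obtain ⟨σ, hσ1, -⟩ := ret N
  have hσN : ∀ x : Qs Γ R N, σ (tr hN x) = x := by
    intro x
    have h1 : σ.comp (tr hN) = MonoidHom.id _ := by
      apply Qs.hom_ext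
      intro v hv a
      rw [MonoidHom.comp_apply, tr_of hN hv]
      exact hσ1 v hv (hN hv) a
    exact DFunLike.congr_fun h1 x
  have hyy : y = y' := by
    have h1 := congrArg ρ h
    rw [map_mul, map_mul, map_inv, hρK, hρK, hρN, hρN, mul_one] at h1
    exact inv_mul_eq_one.1 h1
  subst hyy
  by_contra hm
  have d : Dec Γ R ∅ N K E :=
    { h01 := Set.empty_subset _
      h02 := Set.empty_subset _
      cup := hcup
      cap := fun x hx hx' => absurd hx' (hdis x hx)
      h1 := hN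
      h2 := hK
      no := fun u hu v hv _ _ => hE u (hN hu) v (hK hv) }
  have hα : Function.Injective (tr (Γ := Γ) (R := R) d.h01) := by
    intro a b _
    rw [empty_eq Set.not_nonempty_empty a, empty_eq Set.not_nonempty_empty b]
  have hβ : Function.Injective (tr (Γ := Γ) (R := R) d.h02) := by
    intro a b _
    rw [empty_eq Set.not_nonempty_empty a, empty_eq Set.not_nonempty_empty b]
  have hcap : ∀ x ∈ (tr (Γ := Γ) (R := R) d.h1).range,
      x ∈ (tr (Γ := Γ) (R := R) d.h2).range → x = 1 := by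
    rintro _ ⟨x, rfl⟩ ⟨z, hz⟩
    obtain ⟨k, hk, -⟩ := d.inter hα hβ hz.symm
    rw [hk, empty_eq Set.not_nonempty_empty k, map_one, map_one]
  have hm1 : tr hN m ≠ 1 := by
    intro h1
    apply hm
    rw [← hσN m, h1, map_one]
  have hE' := lemE d.amalgam (g := tr hN m) ⟨m, rfl⟩ (by
    intro x hx hx'
    have h1 := hcap _ (mul_mem (mul_mem (inv_mem hx) ⟨m, rfl⟩) hx) hx'
    apply hm1
    have e : tr hN m = x * (x⁻¹ * tr hN m * x) * x⁻¹ := by group
    rw [e, h1, mul_one, mul_inv_cancel]) (tr hK y)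
  have h2 := hcap _ (hE'.1 (by rw [h]; exact ⟨m', rfl⟩)) ⟨y, rfl⟩
  apply hy
  rw [← hρK y, h2, map_one]

/-- **conjugates of elements of the free product of an independent set whose elements are pairwise
at distance at least three** -/
theorem hyp (h : TriFree Γ R) {S : Set V} (hfin : S.Finite) {K : Set V} (hKS : K ⊆ S)
    (hKind : ∀ u ∈ K, ∀ v ∈ K, ¬ Γ.Adj u v)
    (h4 : ∀ u ∈ K, ∀ k ∈ K, k ≠ u → ∀ n ∈ S, Γ.Adj n u → ¬ Γ.Adj n k) (n : ℕ) :
    ∀ (D : Set V) (hDK : D ⊆ K), D.ncard = n → ∀ x : Qs Γ R D, x ≠ 1 → ∀ (a : Qs Γ R S)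
      (z : Qs Γ R K), a⁻¹ * tr (hDK.trans hKS) x * a = tr hKS z →
      (∃ z' : Qs Γ R K, a = tr hKS z') ∨ ∃ u ∈ K, ∃ (f : Qs Γ R K) (g : G u),
        (tr hKS f)⁻¹ * tr (hDK.trans hKS) x * tr hKS f = vof Γ R S u g := by
  induction n with
  | zero =>
    intro D hDK hn x hx
    exfalso
    rw [Set.ncard_eq_zero ((hfin.subset hKS).subset hDK)] at hn
    subst hn
    exact hx (empty_eq Set.not_nonempty_empty x)
  | succ n ih =>
    intro D hDK hn x hx a z haz
    obtain ⟨u, hu⟩ : D.Nonempty := by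
      rw [Set.nonempty_iff_ne_empty]
      rintro rfl
      simp at hn
    have huK : u ∈ K := hDK hu
    have huS : u ∈ S := hKS huK
    have hDind : ∀ u ∈ D, ∀ v ∈ D, ¬ Γ.Adj u v := fun u hu v hv => hKind u (hDK hu) v (hDK hv)
    have d := dec_at (Γ := Γ) (R := R) huS
    have sD : Spl Γ R d u D := spl_at h hfin huS (hDK.trans hKS) hDind hu
    have sK : Spl Γ R d u K := spl_at h hfin huS hKS hKind huK
    have hsubD : D \ {u} ⊆ S := sD.sub.trans d.h2
    have hsubK : K \ {u} ⊆ S := sK.sub.trans d.h2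
    have hX : (vof Γ R S u).range ≤ (tr (Γ := Γ) (R := R) d.h1).range := by
      rintro _ ⟨a, rfl⟩
      exact vof_mem d.h1 sD.c1 a
    have hYD : (tr (Γ := Γ) (R := R) hsubD).range ≤ (tr (Γ := Γ) (R := R) d.h2).range :=
      range_mono hsubD d.h2 sD.sub
    have hYK : (tr (Γ := Γ) (R := R) hsubK).range ≤ (tr (Γ := Γ) (R := R) d.h2).range :=
      range_mono hsubK d.h2 sK.sub
    have hFB : ∀ {D : Set V} (s : Spl Γ R d u D) (hs : D \ {u} ⊆ S) (w : Qs Γ R S),
        w ∈ (tr (Γ := Γ) (R := R) s.subset).range → w ∈ (tr (Γ := Γ) (R := R) d.h2).range →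
        w ∈ (tr (Γ := Γ) (R := R) hs).range := by
      rintro D s hs _ ⟨w, rfl⟩ ⟨w', hw'⟩
      obtain ⟨z, rfl⟩ := s.factor w w' hw'.symm
      exact ⟨z, (tr_tr Set.sdiff_subset s.subset z).symm⟩
    -- the independent set in `S - u`
    have hE : ∀ x ∈ {v | v ∈ S ∧ Γ.Adj v u} ∪ K \ {u}, ∀ y ∈ {v | v ∈ S ∧ Γ.Adj v u} ∪ K \ {u},
        ¬ Γ.Adj x y := by
      rintro x (hx | hx) y (hy | hy) hxy
      · exact ind_nb h S u x hx y hy hxy
      · exact h4 u huK y hy.1 hy.2 x hx.1 hx.2 hxy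
      · exact h4 u huK x hx.1 hx.2 y hy.1 hy.2 hxy.symm
      · exact hKind x hx.1 y hy.1 hxy
    have hES : {v | v ∈ S ∧ Γ.Adj v u} ∪ K \ {u} ⊆ S \ {u} := by
      rintro x (hx | hx)
      · exact ⟨hx.1, fun hxu => Γ.loopless.irrefl u ((hxu : x = u) ▸ hx.2)⟩
      · exact ⟨hKS hx.1, hx.2⟩
    have hEinj : Function.Injective (tr (Γ := Γ) (R := R) (hES.trans d.h2)) := by
      intro p q hpq
      rw [← tr_tr hES d.h2, ← tr_tr hES d.h2] at hpq
      exact (ind_main h _ (S \ {u}) (hfin.subset Set.sdiff_subset) rfl).1 _ hES hE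
        (d.inj_right sD.α sD.β hpq)
    have hN : {v | v ∈ S ∧ Γ.Adj v u} ⊆ {v | v ∈ S ∧ Γ.Adj v u} ∪ K \ {u} := Set.subset_union_left
    have hK' : K \ {u} ⊆ {v | v ∈ S ∧ Γ.Adj v u} ∪ K \ {u} := Set.subset_union_right
    have hDK' : D \ {u} ⊆ K \ {u} := fun v hv => ⟨hDK hv.1, hv.2⟩
    have hstar : ∀ y ∈ (tr (Γ := Γ) (R := R) hsubD).range, y ≠ 1 →
        ∀ y' ∈ (tr (Γ := Γ) (R := R) hsubK).range, ∀ m, m ∈ (tr (Γ := Γ) (R := R) d.h1).range →
          m ∈ (tr (Γ := Γ) (R := R) d.h2).range →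
          y⁻¹ * m * y' ∈ (tr (Γ := Γ) (R := R) d.h1).range →
          y⁻¹ * m * y' ∈ (tr (Γ := Γ) (R := R) d.h2).range → m = 1 := by
      rintro _ ⟨y, rfl⟩ hy1 _ ⟨y', rfl⟩ _ ⟨m, rfl⟩ ⟨m', hm'⟩ ⟨w, hw⟩ ⟨w', hw'⟩
      obtain ⟨k, hk, -⟩ := d.inter sD.α sD.β hm'.symm
      obtain ⟨k', hk', -⟩ := d.inter sD.α sD.β (hw.trans hw'.symm)
      have e1 : tr d.h1 m = tr (hES.trans d.h2) (tr hN k) := by
        rw [hk, tr_tr, tr_tr]
      have e2 : (tr hsubD y)⁻¹ * tr d.h1 m * tr hsubK y' = tr (hES.trans d.h2) (tr hN k') := by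
        rw [← hw, hk', tr_tr, tr_tr]
      have e3 : (tr hK' (tr hDK' y))⁻¹ * tr hN k * tr hK' y' = tr hN k' := by
        apply hEinj
        rw [map_mul, map_mul, map_inv, ← e1, ← e2, tr_tr hK' _ y', tr_tr hK', tr_tr hDK']
      have hk1 := indep_comm hE hN hK' (fun x hx hx' => hKind x hx'.1 u huK hx.2)
        (fun x hx => hx) e3 (fun hy => hy1 (by
          rw [← tr_tr hDK' hsubK, hy, map_one]))
      rw [e1, hk1, map_one, map_one]
    have hres := lemH d.amalgam hX hYD (range_sup (Γ := Γ) (R := R) sD.subset sD.cD hsubD) hX hYK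
      (range_sup (Γ := Γ) (R := R) sK.subset sK.cD hsubK) (hFB sD hsubD) (hFB sK hsubK) hstar
      (g := tr sD.subset x) (a := a) ⟨x, rfl⟩ ⟨z, haz.symm⟩
    rcases hres with ⟨_, ⟨f, rfl⟩, _, ⟨f', rfl⟩, hff⟩ | ⟨_, ⟨f, rfl⟩, hf⟩
    · left
      refine ⟨tr hDK f * f', ?_⟩
      rw [map_mul, tr_tr, hff]
    rcases hf with ⟨w, hw⟩ | ⟨w, hw⟩
    · right
      have h1 : tr sD.subset (f⁻¹ * x * f) = tr d.h1 w := by
        rw [hw, map_mul, map_mul, map_inv]
      obtain ⟨g, hg⟩ := sD.factorL _ _ h1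
      refine ⟨u, huK, tr hDK f, g, ?_⟩
      rw [tr_tr, ← map_inv, ← map_mul, ← map_mul]
      have h2 : tr sD.subset (f⁻¹ * x * f) = vof Γ R S u g := by rw [hg, tr_vof sD.subset hu]
      exact h2
    · have h1 : tr sD.subset (f⁻¹ * x * f) = tr d.h2 w := by
        rw [hw, map_mul, map_mul, map_inv]
      obtain ⟨x', hx'⟩ := sD.factor _ _ h1
      have hx1 : x' ≠ 1 := by
        rintro rfl
        apply hx
        rw [map_one] at hx'
        have e : x = f * (f⁻¹ * x * f) * f⁻¹ := by group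
        rw [e, hx', mul_one, mul_inv_cancel]
      have e4 : tr (hDK'.trans Set.sdiff_subset |>.trans hKS) x' =
          (tr hKS (tr hDK f))⁻¹ * tr (hDK.trans hKS) x * tr hKS (tr hDK f) := by
        rw [tr_tr, ← map_inv, ← map_mul, ← map_mul, hx', tr_tr]
      have hc : (D \ {u}).ncard = n := by
        rw [Set.ncard_sdiff_singleton_of_mem hu, hn]
        rfl
      rcases ih (D \ {u}) (hDK'.trans Set.sdiff_subset) hc x' hx1 ((tr hKS (tr hDK f))⁻¹ * a) z (by
        rw [e4, ← haz]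
        group) with ⟨z', hz'⟩ | ⟨u', hu', f', g, hg⟩
      · left
        refine ⟨tr hDK f * z', ?_⟩
        rw [map_mul, ← hz', mul_inv_cancel_left]
      · right
        refine ⟨u', hu', tr hDK f * f', g, ?_⟩
        rw [← hg, e4, map_mul]
        group

end

end Pool.Agent.U385.RT
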