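import Pool.Agent.U385.RT.Gi2

/-!
# Graphs of girth five: the theorem
-/

set_option autoImplicit false

namespace Pool.Agent.U385.RT

open SimpleGraph
open Pool.Agent.Y462.PA (Am)
open Pool.Agent.Helper705_SA
open Pool.Agent.Y110.FJ
open Pool.Agent.N509.TK (Acyl)
open Pool.Agent.R941.FJ (C_equiv C_le)
open Monoid (CoprodI PushoutI)
open scoped Classical

section

variable {V : Type} [LinearOrder V] {Γ : SimpleGraph V} {G : V → Type} [∀ v, Group (G v)]
  {R : ∀ u v, Set (Monoid.Coprod (G u) (G v))} {C : ∀ (G : Type) [Group G], Prop}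

/-- the conditions: no triangles and squares, the vertex groups embed in the edge groups and meet
trivially, and each vertex group is good in the groups of its edges, with at most one exception -/
structure Girth5 (Γ : SimpleGraph V) (R : ∀ u v, Set (Monoid.Coprod (G u) (G v))) : Prop where
  base : TriFree Γ R
  sq : ∀ a b c d, a ≠ c → b ≠ d → Γ.Adj a b → Γ.Adj b c → Γ.Adj c d → ¬ Γ.Adj d a
  good : ∀ u c c', c ≠ c' → Γ.Adj u c → Γ.Adj u c' → Good Γ R u c ∨ Good Γ R u c'

theorem C_range (hC : ClosedE C) {S T : Set V} {h : S ⊆ T}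
    (hi : Function.Injective (tr (Γ := Γ) (R := R) h)) (hS : C (Qs Γ R S)) :
    C (tr (Γ := Γ) (R := R) h).range :=
  C_equiv hC.base (MonoidHom.ofInjective hi).symm hS

theorem C_edge' (hC : ClosedE C) (hE : ∀ u v, u < v → Γ.Adj u v →
    C (Monoid.Coprod (G u) (G v) ⧸ Subgroup.normalClosure (R u v))) {u v : V}
    (hadj : Γ.Adj u v) : C (Qs Γ R {u, v}) := by
  rcases lt_or_gt_of_ne hadj.ne with huv | huv
  · obtain ⟨f, -, -⟩ := edge_iso (R := R) huv hadj
    exact C_equiv hC.base f.symm (hE u v huv hadj)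
  · rw [Set.pair_comm]
    obtain ⟨f, -, -⟩ := edge_iso (R := R) huv hadj.symm
    exact C_equiv hC.base f.symm (hE v u huv hadj.symm)

/-- the group of a star whose centre is good -/
theorem C_star_good (hC : ClosedE C) (hA : Acyl C) (h : TriFree Γ R)
    (hG : ∀ v, C (G v)) (hE : ∀ u v, u < v → Γ.Adj u v →
      C (Monoid.Coprod (G u) (G v) ⧸ Subgroup.normalClosure (R u v))) (b : V) (n : ℕ) :
    ∀ K : Set V, K.Finite → K.ncard = n → (∀ u ∈ K, Γ.Adj u b ∧ Good Γ R b u) →
      C (Qs Γ R (insert b K)) := by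
  induction n with
  | zero =>
    intro K hfin hn _
    rw [Set.ncard_eq_zero hfin] at hn
    subst hn
    obtain ⟨f, -⟩ := single' (Γ := Γ) (R := R) b (T := insert b ∅) (Or.inl rfl) (by
      intro v hv
      rcases hv with rfl | hv
      · rfl
      · exact absurd hv (Set.notMem_empty v))
    exact C_equiv hC.base f.symm (hG b)
  | succ n ih =>
    intro K hfin hn hK
    obtain ⟨u, hu⟩ : K.Nonempty := by
      rw [Set.nonempty_iff_ne_empty]
      rintro rfl
      simp at hn
    have hK' : ∀ v ∈ K, Γ.Adj v b := fun v hv => (hK v hv).1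
    have d := dec_star (R := R) h hK' hu
    have s : Spl Γ R d u K := spl_star h hfin hK' hu
    have b1 : b ∈ ({u, b} : Set V) := Or.inr rfl
    have b2 : b ∈ insert b (K \ {u}) := Or.inl rfl
    have hC1 := C_range hC (d.inj_left s.α s.β) (C_edge' hC hE (hK' u hu))
    have hC2 := C_range hC (d.inj_right s.α s.β)
      (ih (K \ {u}) (hfin.subset Set.sdiff_subset)
        (by rw [Set.ncard_sdiff_singleton_of_mem hu, hn]; rfl) (fun v hv => hK v hv.1))
    refine acyl_am hC hA d.amalgam hC1 hC2 ?_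
    rintro _ ⟨g, rfl⟩ ⟨g', hg'⟩ _ ⟨a, rfl⟩ haB ⟨w, hw⟩ - - - -
    obtain ⟨k, rfl, -⟩ := d.inter s.α s.β hg'.symm
    obtain ⟨g0, rfl⟩ := vof_surj k
    rw [tr_vof d.h01 (Set.mem_singleton b)] at hw ⊢
    by_contra hne
    have hg0 : g0 ≠ 1 := by
      rintro rfl
      exact hne (by rw [map_one, map_one])
    have h1 : tr d.h1 (a⁻¹ * vof Γ R {u, b} b g0 * a) = tr d.h2 w := by
      rw [map_mul, map_mul, map_inv, hw]
    obtain ⟨k', hk', -⟩ := d.inter s.α s.β h1
    obtain ⟨c, rfl⟩ := vof_surj k'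
    rw [tr_vof d.h01 (Set.mem_singleton b)] at hk'
    obtain ⟨e, rfl⟩ := ((hK u hu).2 {u, b} (Set.pair_comm u b) g0 hg0 a).1 c hk'
    apply haB
    rw [tr_vof d.h1 b1]
    exact vof_mem d.h2 b2 e

/-- the group of a star -/
theorem C_star5 (hC : ClosedE C) (hA : Acyl C) (h : Girth5 Γ R)
    (hG : ∀ v, C (G v)) (hE : ∀ u v, u < v → Γ.Adj u v →
      C (Monoid.Coprod (G u) (G v) ⧸ Subgroup.normalClosure (R u v))) (b : V) (K : Set V)
    (hfin : K.Finite) (hK : ∀ u ∈ K, Γ.Adj u b) : C (Qs Γ R (insert b K)) := by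
  by_cases hgood : ∀ u ∈ K, Good Γ R b u
  · exact C_star_good hC hA h.base hG hE b _ K hfin rfl fun u hu => ⟨hK u hu, hgood u hu⟩
  push Not at hgood
  obtain ⟨u, hu, hbad⟩ := hgood
  have hK2 : ∀ v ∈ K \ {u}, Γ.Adj v b ∧ Good Γ R b v := by
    intro v hv
    refine ⟨hK v hv.1, ?_⟩
    rcases h.good b u v (fun huv => hv.2 huv.symm) (hK u hu).symm (hK v hv.1).symm with h1 | h1
    · exact absurd h1 hbad
    · exact h1
  have hfin' : (K \ {u}).Finite := hfin.subset Set.sdiff_subset
  have d := dec_star (R := R) h.base hK hu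
  have s : Spl Γ R d u K := spl_star h.base hfin hK hu
  have b1 : b ∈ ({u, b} : Set V) := Or.inr rfl
  have b2 : b ∈ insert b (K \ {u}) := Or.inl rfl
  have hC1 := C_range hC (d.inj_left s.α s.β) (C_edge' hC hE (hK u hu))
  have hC2 := C_range hC (d.inj_right s.α s.β)
    (C_star_good hC hA h.base hG hE b _ (K \ {u}) hfin' rfl hK2)
  refine acyl_am hC hA d.amalgam hC1 hC2 ?_
  rintro _ ⟨g, rfl⟩ ⟨g', hg'⟩ _ - - - _ ⟨a, rfl⟩ haA ⟨w, hw⟩
  obtain ⟨k, rfl, -⟩ := d.inter s.α s.β hg'.symm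
  obtain ⟨g0, rfl⟩ := vof_surj k
  have e0 : tr d.h1 (tr d.h01 (vof Γ R {b} b g0)) = tr d.h2 (vof Γ R (insert b (K \ {u})) b g0) := by
    rw [tr_vof d.h01 (Set.mem_singleton b), tr_vof d.h1 b1, tr_vof d.h2 b2]
  rw [e0] at hw ⊢
  by_contra hne
  have hg0 : g0 ≠ 1 := by
    rintro rfl
    exact hne (by rw [map_one, map_one])
  have h1 : tr d.h1 w = tr d.h2 (a⁻¹ * vof Γ R (insert b (K \ {u})) b g0 * a) := by
    rw [map_mul, map_mul, map_inv, hw]
  obtain ⟨k', -, hk'⟩ := d.inter s.α s.β h1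
  obtain ⟨c, rfl⟩ := vof_surj k'
  rw [tr_vof d.h02 (Set.mem_singleton b)] at hk'
  obtain ⟨e, rfl⟩ := ((starMal h.base b _ (K \ {u}) hfin' rfl hK2 g0 hg0) a).1 c hk'
  apply haA
  rw [tr_vof d.h2 b2]
  exact vof_mem d.h1 b1 e

theorem C_fin5 (hC : ClosedE C) (hA : Acyl C) (h : Girth5 Γ R)
    (hG : ∀ v, C (G v)) (hE : ∀ u v, u < v → Γ.Adj u v →
      C (Monoid.Coprod (G u) (G v) ⧸ Subgroup.normalClosure (R u v))) (n : ℕ) :
    ∀ S : Set V, S.Finite → S.ncard = n → C (Qs Γ R S) := by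
  induction n with
  | zero =>
    intro S hfin hn
    rw [Set.ncard_eq_zero hfin] at hn
    subst hn
    refine hC.base.of_injective _ _ (1 : Qs Γ R ∅ →* Multiplicative ℤ) ?_ hC.base.int
    intro x y _
    rw [empty_eq Set.not_nonempty_empty x, empty_eq Set.not_nonempty_empty y]
  | succ n ih =>
    intro S hfin hn
    obtain ⟨b, hb⟩ : S.Nonempty := by
      rw [Set.nonempty_iff_ne_empty]
      rintro rfl
      simp at hn
    obtain ⟨K, hKdef⟩ : ∃ K : Set V, K = {u | u ∈ S ∧ Γ.Adj u b} := ⟨_, rfl⟩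
    have d : Dec Γ R K (insert b K) (S \ {b}) S := by
      rw [hKdef]
      exact dec_at hb
    have hKadj : ∀ u ∈ K, Γ.Adj u b := by
      intro u hu
      rw [hKdef] at hu
      exact hu.2
    have hKS : ∀ u ∈ K, u ∈ S := by
      intro u hu
      rw [hKdef] at hu
      exact hu.1
    have hKfin : K.Finite := hfin.subset hKS
    have hS'fin : (S \ {b}).Finite := hfin.subset Set.sdiff_subset
    have hKind : ∀ u ∈ K, ∀ v ∈ K, ¬ Γ.Adj u v :=
      fun u hu v hv huv => h.base.tri u v b huv (hKadj v hv) (hKadj u hu)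
    have hα : Function.Injective (tr (Γ := Γ) (R := R) d.h01) := by
      rw [injective_iff_map_eq_one]
      intro x hx
      refine (star h.base b _ K hKfin rfl hKadj x 1 ?_).1
      rw [map_one, map_one]
      exact hx
    have hβ : Function.Injective (tr (Γ := Γ) (R := R) d.h02) :=
      (ind_main h.base _ (S \ {b}) hS'fin rfl).1 _ d.h02 hKind
    have hC1 := C_range hC (d.inj_left hα hβ) (C_star5 hC hA h hG hE b K hKfin hKadj)
    have hC2 := C_range hC (d.inj_right hα hβ) (ih (S \ {b}) hS'fin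
      (by rw [Set.ncard_sdiff_singleton_of_mem hb, hn]; rfl))
    refine acyl_am hC hA d.amalgam hC1 hC2 ?_
    rintro _ ⟨g, rfl⟩ ⟨g', hg'⟩ _ ⟨l, rfl⟩ hlB ⟨w, hw⟩ _ ⟨a, rfl⟩ haA ⟨w', hw'⟩
    obtain ⟨k, rfl, rfl⟩ := d.inter hα hβ hg'.symm
    by_contra hne
    have hk1 : k ≠ 1 := by
      rintro rfl
      exact hne (by rw [map_one, map_one])
    -- the conjugates
    have hl : tr d.h1 (l⁻¹ * tr d.h01 k * l) = tr d.h2 w := by
      rw [map_mul, map_mul, map_inv, hw]
    obtain ⟨k2, hk2, -⟩ := d.inter hα hβ hl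
    have ha : tr d.h1 w' = tr d.h2 (a⁻¹ * tr d.h02 k * a) := by
      rw [map_mul, map_mul, map_inv, hg', hw']
    obtain ⟨k3, -, hk3⟩ := d.inter hα hβ ha
    have h4 : ∀ u ∈ K, ∀ k ∈ K, k ≠ u → ∀ n ∈ S \ {b}, Γ.Adj n u → ¬ Γ.Adj n k := by
      intro u hu k hk hku n hn hnu hnk
      exact h.sq n u b k hn.2 (Ne.symm hku) hnu (hKadj u hu) (hKadj k hk).symm hnk.symm
    have hhyp := hyp h.base hS'fin d.h02 hKind h4 _ K subset_rfl rfl k hk1 a k3 hk3
    rcases hhyp with ⟨z', hz'⟩ | ⟨u, hu, f, g0, hf⟩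
    · apply haA
      rw [hz', tr_tr, ← tr_tr d.h01 d.h1]
      exact ⟨_, rfl⟩
    · have hf' : f⁻¹ * k * f = vof Γ R K u g0 := by
        apply hβ
        rw [tr_vof d.h02 hu, map_mul, map_mul, map_inv]
        exact hf
      have hg0 : g0 ≠ 1 := by
        rintro rfl
        rw [map_one] at hf'
        apply hk1
        have e : k = f * (f⁻¹ * k * f) * f⁻¹ := by group
        rw [e, hf', mul_one, mul_inv_cancel]
      have huS' : u ∈ S \ {b} := d.h02 hu
      by_cases hub : Good Γ R u b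
      · -- the star at `b`
        have d' := dec_star (R := R) h.base hKadj hu
        have s' : Spl Γ R d' u K := spl_star h.base hKfin hKadj hu
        have hP : ∀ x : Qs Γ R {u, b},
            (∀ a : G u, x⁻¹ * vof Γ R {u, b} u g0 * x = vof Γ R {u, b} u a →
              ∃ e : G u, x = vof Γ R {u, b} u e) ∧
            ∀ k : Qs Γ R {b}, x⁻¹ * vof Γ R {u, b} u g0 * x ≠ tr d'.h01 k := by
          intro x
          refine ⟨(hub {u, b} rfl g0 hg0 x).1, fun k => ?_⟩
          obtain ⟨c, rfl⟩ := vof_surj k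
          rw [tr_vof d'.h01 (Set.mem_singleton b)]
          exact (hub {u, b} rfl g0 hg0 x).2 c
        obtain ⟨z', hz'⟩ := outL d' s' hP ((tr d.h01 f)⁻¹ * l) k2 (by
          have e : vof Γ R (insert b K) u g0 = (tr d.h01 f)⁻¹ * tr d.h01 k * tr d.h01 f := by
            rw [← tr_vof d.h01 hu, ← hf', map_mul, map_mul, map_inv]
          rw [e]
          have e' : tr s'.subset k2 = tr d.h01 k2 := rfl
          rw [e', ← hk2]
          group)
        apply hlB
        have e : l = tr d.h01 (f * z') := by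
          rw [map_mul]
          have e' : tr s'.subset z' = tr d.h01 z' := rfl
          rw [← e', ← hz', mul_inv_cancel_left]
        rw [e, tr_tr, ← tr_tr d.h02 d.h2]
        exact ⟨_, rfl⟩
      · -- the star at `u` in `S - b`
        have d' := dec_at (Γ := Γ) (R := R) huS'
        have s' : Spl Γ R d' u K := spl_at h.base hS'fin huS' d.h02 hKind hu
        have hP := starMal h.base u _ {v | v ∈ S \ {b} ∧ Γ.Adj v u}
          (hS'fin.subset fun v hv => hv.1) rfl (fun c hc => ⟨hc.2, by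
            rcases h.good u b c (fun h => hc.1.2 h.symm) (hKadj u hu) hc.2.symm with h1 | h1
            · exact absurd h1 hub
            · exact h1⟩) g0 hg0
        obtain ⟨z', hz'⟩ := outL d' s' hP ((tr d.h02 f)⁻¹ * a) k3 (by
          have e : vof Γ R (S \ {b}) u g0 = (tr d.h02 f)⁻¹ * tr d.h02 k * tr d.h02 f := by
            rw [← tr_vof d.h02 hu, ← hf', map_mul, map_mul, map_inv]
          rw [e]
          have e' : tr s'.subset k3 = tr d.h02 k3 := rfl
          rw [e', ← hk3]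
          group)
        apply haA
        have e : a = tr d.h02 (f * z') := by
          rw [map_mul]
          have e' : tr s'.subset z' = tr d.h02 z' := rfl
          rw [← e', ← hz', mul_inv_cancel_left]
        rw [e, tr_tr, ← tr_tr d.h01 d.h1]
        exact ⟨_, rfl⟩

/-- directed colimits -/
theorem colim_of (hC : ClosedE C) (hfin : ∀ S : Finset V, C (Qs Γ R (S : Set V))) :
    C (CoprodI G ⧸ Subgroup.normalClosure (oneRel Γ R)) := by
  let g : ∀ S : Finset V, Qs Γ R (S : Set V) →* (CoprodI G ⧸ Subgroup.normalClosure (oneRel Γ R)) :=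
    fun S => Qs.lift ((QuotientGroup.mk' _).comp (kill G (S : Set V)))
      (fun u v hu hv huv hadj r hr => by
        rw [two_ext (g := QuotientGroup.mk' _) (fun a => ?_) (fun a => ?_) r]
        · exact (QuotientGroup.eq_one_iff _).2
            (Subgroup.subset_normalClosure ⟨u, v, huv, hadj, r, hr, rfl⟩)
        · rw [MonoidHom.comp_apply, kill_of hu]
        · rw [MonoidHom.comp_apply, kill_of hv])
      (fun v hv a => by rw [MonoidHom.comp_apply, kill_of' hv, map_one])
  have hg : ∀ (S : Finset V) (x : CoprodI G), g S (pi (S : Set V) x) =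
      QuotientGroup.mk' _ (kill G (S : Set V) x) := fun S x => rfl
  have hle : ∀ {i j : Finset V}, i ≤ j → (i : Set V) ⊆ (j : Set V) := fun h =>
    Finset.coe_subset.2 h
  refine hC.base.colim (Finset V) (fun i j => ⟨i ∪ j, Finset.subset_union_left,
    Finset.subset_union_right⟩) (fun S => Qs Γ R (S : Set V)) (fun i j h => tr (hle h)) _ g
    (fun i h x => tr_self _ x) (fun i j k h h' x => tr_tr _ _ x) (fun i j h x => ?_)
    (fun y => ?_) (fun i x hx => ?_) hfin
  · have h1 : (g j).comp (tr (hle h)) = g i := by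
      apply Qs.hom_ext
      intro v hv a
      rw [MonoidHom.comp_apply, tr_of (hle h) hv, hg, hg, kill_of hv, kill_of (hle h hv)]
    exact DFunLike.congr_fun h1 x
  · obtain ⟨y, rfl⟩ := QuotientGroup.mk_surjective y
    obtain ⟨S, hS, h1⟩ := kill_supp y
    refine ⟨hS.toFinset, pi _ y, ?_⟩
    rw [hg, hS.coe_toFinset, h1]
    rfl
  · obtain ⟨y, rfl⟩ := pi_surj (i : Set V) x
    rw [hg] at hx
    let M : Subgroup (CoprodI G) :=
      { carrier := {y | ∃ T₀ : Finset V, ∀ T : Finset V, T₀ ⊆ T →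
          pi (Γ := Γ) (R := R) (T : Set V) y = 1}
        mul_mem' := by
          rintro a b ⟨T₁, h₁⟩ ⟨T₂, h₂⟩
          refine ⟨T₁ ∪ T₂, fun T hT => ?_⟩
          rw [map_mul, h₁ T (Finset.subset_union_left.trans hT),
            h₂ T (Finset.subset_union_right.trans hT), mul_one]
        one_mem' := ⟨∅, fun T _ => map_one _⟩
        inv_mem' := by
          rintro a ⟨T₁, h₁⟩
          exact ⟨T₁, fun T hT => by rw [map_inv, h₁ T hT, inv_one]⟩ }
    have hM : M.Normal := ⟨by
      rintro a ⟨T₁, h₁⟩ b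
      exact ⟨T₁, fun T hT => by rw [map_mul, map_mul, h₁ T hT, mul_one, map_inv,
        mul_inv_cancel]⟩⟩
    have hle' : Subgroup.normalClosure (oneRel Γ R) ≤ M := by
      apply Subgroup.normalClosure_le_normal
      rintro _ ⟨u, v, huv, hadj, r, hr, rfl⟩
      refine ⟨{u, v}, fun T hT => ?_⟩
      refine pi_rel ?_ ?_ huv hadj hr
      · exact hT (by simp)
      · exact hT (by simp)
    obtain ⟨T₀, hT₀⟩ := hle' ((QuotientGroup.eq_one_iff _).1 hx)
    refine ⟨i ∪ T₀, Finset.subset_union_left, ?_⟩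
    have h2 := hT₀ (i ∪ T₀) Finset.subset_union_right
    exact h2

/-- **relations along the edges of a graph of girth at least five** -/
theorem girth_main (hC : ClosedE C) (hA : Acyl C) (h : Girth5 Γ R)
    (hG : ∀ v, C (G v)) (hE : ∀ u v, u < v → Γ.Adj u v →
      C (Monoid.Coprod (G u) (G v) ⧸ Subgroup.normalClosure (R u v))) :
    C (CoprodI G ⧸ Subgroup.normalClosure (oneRel Γ R)) :=
  colim_of hC fun S => C_fin5 hC hA h hG hE _ (S : Set V) S.finite_toSet rfl

end

end Pool.Agent.U385.RT
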