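import Pool.Agent.U385.RT.Gi3
import Pool.Agent.U385.RT.BSt

/-!
# Graphs of girth five: edge groups, and Higman's groups
-/

set_option autoImplicit false

namespace Pool.Agent.U385.RT

open SimpleGraph
open Pool.Agent.Y462.PA (Am)
open Pool.Agent.Helper705_SA
open Pool.Agent.Y110.FJ
open Pool.Agent.N509.TK (Acyl)
open Pool.Agent.R941.FJ (C_equiv C_le)
open Monoid (CoprodI PushoutI)
open Multiplicative (ofAdd toAdd)
open scoped Classical

/-- the subgroup `i X` is malnormal, and no nontrivial element of it is conjugate into `j Y` -/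
def Isol {X Y E : Type} [Group X] [Group Y] [Group E] (i : X →* E) (j : Y →* E) : Prop :=
  ∀ g : X, g ≠ 1 → ∀ x : E, (x⁻¹ * i g * x ∈ i.range → x ∈ i.range) ∧ x⁻¹ * i g * x ∉ j.range

section

variable {V : Type} [LinearOrder V] {Γ : SimpleGraph V} {G : V → Type} [∀ v, Group (G v)]
  {R : ∀ u v, Set (Monoid.Coprod (G u) (G v))} {C : ∀ (G : Type) [Group G], Prop}

/-- the first vertex group in the edge group -/
def eL (R : ∀ u v, Set (Monoid.Coprod (G u) (G v))) (u v : V) :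
    G u →* (Monoid.Coprod (G u) (G v) ⧸ Subgroup.normalClosure (R u v)) :=
  (QuotientGroup.mk' (Subgroup.normalClosure (R u v))).comp Monoid.Coprod.inl

/-- the second vertex group in the edge group -/
def eR (R : ∀ u v, Set (Monoid.Coprod (G u) (G v))) (u v : V) :
    G v →* (Monoid.Coprod (G u) (G v) ⧸ Subgroup.normalClosure (R u v)) :=
  (QuotientGroup.mk' (Subgroup.normalClosure (R u v))).comp Monoid.Coprod.inr

/-- `G u` is isolated from `G v` in the group of the edge `{u, v}` -/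
def GoodE (R : ∀ u v, Set (Monoid.Coprod (G u) (G v))) (u v : V) : Prop :=
  (u < v → Isol (eL R u v) (eR R u v)) ∧ (v < u → Isol (eR R v u) (eL R v u))

/-- the maps `i` and `j` are injective, and their images meet trivially -/
def Disj {X Y E : Type} [Group X] [Group Y] [Group E] (i : X →* E) (j : Y →* E) : Prop :=
  ∀ (a : X) (b : Y), i a * j b = 1 → a = 1 ∧ b = 1

/-- the vertex groups embed in the group of the edge `{u, v}` and meet trivially there -/
def MeetE (R : ∀ u v, Set (Monoid.Coprod (G u) (G v))) (u v : V) : Prop :=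
  Disj (eL R u v) (eR R u v)

/-- the conditions on the graph and the relations -/
structure GirthFive (Γ : SimpleGraph V) (R : ∀ u v, Set (Monoid.Coprod (G u) (G v))) : Prop where
  tri : ∀ u v w, Γ.Adj u v → Γ.Adj v w → ¬ Γ.Adj u w
  sq : ∀ a b c d, a ≠ c → b ≠ d → Γ.Adj a b → Γ.Adj b c → Γ.Adj c d → ¬ Γ.Adj d a
  meet : ∀ u v, u < v → Γ.Adj u v → MeetE R u v
  good : ∀ u v w, v ≠ w → Γ.Adj u v → Γ.Adj u w → GoodE R u v ∨ GoodE R u w

theorem good_of {u c : V} (hadj : Γ.Adj u c) (h : GoodE R u c) : Good Γ R u c := by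
  intro T hT g hg
  rcases lt_or_gt_of_ne hadj.ne with huc | huc
  · subst hT
    obtain ⟨f, h1, h2⟩ := edge_iso (R := R) huc hadj
    have h1' : ∀ a : G u, f (eL R u c a) = vof Γ R {u, c} u a := fun a => by
      have h3 := h1 a
      rw [MulEquiv.symm_apply_eq] at h3
      exact h3.symm
    have h2' : ∀ a : G c, f (eR R u c a) = vof Γ R {u, c} c a := fun a => by
      have h3 := h2 a
      rw [MulEquiv.symm_apply_eq] at h3
      exact h3.symm
    intro x
    obtain ⟨x, rfl⟩ := f.surjective x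
    have e : (f x)⁻¹ * vof Γ R {u, c} u g * f x = f (x⁻¹ * eL R u c g * x) := by
      rw [map_mul, map_mul, map_inv, h1']
    obtain ⟨h3, h4⟩ := (h.1 huc) g hg x
    constructor
    · intro a ha
      rw [e, ← h1'] at ha
      obtain ⟨c', hc'⟩ := h3 ⟨a, (f.injective ha).symm⟩
      exact ⟨c', by rw [← hc', h1']⟩
    · intro a ha
      rw [e, ← h2'] at ha
      exact h4 ⟨a, (f.injective ha).symm⟩
  · rw [Set.pair_comm] at hT
    subst hT
    obtain ⟨f, h1, h2⟩ := edge_iso (R := R) huc hadj.symm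
    have h1' : ∀ a : G c, f (eL R c u a) = vof Γ R {c, u} c a := fun a => by
      have h3 := h1 a
      rw [MulEquiv.symm_apply_eq] at h3
      exact h3.symm
    have h2' : ∀ a : G u, f (eR R c u a) = vof Γ R {c, u} u a := fun a => by
      have h3 := h2 a
      rw [MulEquiv.symm_apply_eq] at h3
      exact h3.symm
    intro x
    obtain ⟨x, rfl⟩ := f.surjective x
    have e : (f x)⁻¹ * vof Γ R {c, u} u g * f x = f (x⁻¹ * eR R c u g * x) := by
      rw [map_mul, map_mul, map_inv, h2']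
    obtain ⟨h3, h4⟩ := (h.2 huc) g hg x
    constructor
    · intro a ha
      rw [e, ← h2'] at ha
      obtain ⟨c', hc'⟩ := h3 ⟨a, (f.injective ha).symm⟩
      exact ⟨c', by rw [← hc', h2']⟩
    · intro a ha
      rw [e, ← h1'] at ha
      exact h4 ⟨a, (f.injective ha).symm⟩

theorem GirthFive.toG (h : GirthFive Γ R) : Girth5 Γ R where
  base :=
    { tri := h.tri
      meet := fun u v huv hadj a b hab => h.meet u v huv hadj a b (by
        have h1 : QuotientGroup.mk' (Subgroup.normalClosure (R u v))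
          (Monoid.Coprod.inl a * Monoid.Coprod.inr b) = 1 := (QuotientGroup.eq_one_iff _).2 hab
        rw [map_mul] at h1
        exact h1) }
  sq := h.sq
  good := fun u c c' hcc h1 h2 => (h.good u c c' hcc h1 h2).imp (good_of h1) (good_of h2)

end

/-! ### the groups `⟨u, v | u v u⁻¹ = v ^ q⟩` -/

section bs

theorem bs_form {E : Type} [Group E] {U W : E} {q : ℤ} (h : U * W = W ^ q * U) :
    (∀ (k : ℕ) (n : ℤ), U ^ k * W ^ n = W ^ (q ^ k * n) * U ^ k) ∧
    ∀ (a b : E), (∃ (i j : ℕ) (m : ℤ), a = (U ^ i)⁻¹ * W ^ m * U ^ j) →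
      (∃ (i j : ℕ) (m : ℤ), b = (U ^ i)⁻¹ * W ^ m * U ^ j) →
      ∃ (i j : ℕ) (m : ℤ), a * b = (U ^ i)⁻¹ * W ^ m * U ^ j := by
  have h1 : ∀ n : ℤ, U * W ^ n = W ^ (q * n) * U := by
    intro n
    have h2 : U * W * U⁻¹ = W ^ q := by rw [h, mul_inv_cancel_right]
    rw [zpow_mul, ← h2, conj_zpow, inv_mul_cancel_right]
  have h2 : ∀ (k : ℕ) (n : ℤ), U ^ k * W ^ n = W ^ (q ^ k * n) * U ^ k := by
    intro k
    induction k with
    | zero =>
      intro n
      simp
    | succ k ih =>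
      intro n
      rw [pow_succ, mul_assoc, h1, ← mul_assoc, ih, mul_assoc, ← mul_assoc (q ^ k) q n,
        ← pow_succ q k]
  refine ⟨h2, ?_⟩
  rintro _ _ ⟨i, j, m, rfl⟩ ⟨i', j', m', rfl⟩
  rcases le_total i' j with hle | hle
  · obtain ⟨k, rfl⟩ := Nat.exists_eq_add_of_le hle
    refine ⟨i, k + j', m + q ^ k * m', ?_⟩
    have e1 : U ^ (i' + k) = U ^ k * U ^ i' := by rw [add_comm, pow_add]
    rw [e1, pow_add, zpow_add]
    have e2 : (U ^ i)⁻¹ * W ^ m * (U ^ k * U ^ i') * ((U ^ i')⁻¹ * W ^ m' * U ^ j') =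
        (U ^ i)⁻¹ * W ^ m * (U ^ k * W ^ m') * U ^ j' := by group
    rw [e2, h2]
    simp only [mul_assoc]
  · obtain ⟨k, rfl⟩ := Nat.exists_eq_add_of_le hle
    refine ⟨i + k, j', q ^ k * m + m', ?_⟩
    have e1 : U ^ (j + k) = U ^ k * U ^ j := by rw [add_comm, pow_add]
    have e0 : U ^ (i + k) = U ^ k * U ^ i := by rw [add_comm, pow_add]
    rw [e1, e0, zpow_add]
    have e2 : (U ^ i)⁻¹ * W ^ m * U ^ j * ((U ^ k * U ^ j)⁻¹ * W ^ m' * U ^ j') =
        (U ^ i)⁻¹ * W ^ m * (U ^ k)⁻¹ * W ^ m' * U ^ j' := by group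
    have e3 : W ^ m * (U ^ k)⁻¹ = (U ^ k)⁻¹ * W ^ (q ^ k * m) := by
      rw [eq_inv_mul_iff_mul_eq, ← mul_assoc, h2, mul_inv_cancel_right]
    rw [e2, mul_assoc ((U ^ i)⁻¹) (W ^ m), e3]
    simp only [mul_assoc, mul_inv_rev]

theorem isol_bs {q : ℤ} (hq : 2 ≤ |q|) :
    Isol ((QuotientGroup.mk' (Subgroup.normalClosure {bsr 1 q})).comp
        (Monoid.Coprod.inl : Zm →* Monoid.Coprod Zm Zm))
      ((QuotientGroup.mk' (Subgroup.normalClosure {bsr 1 q})).comp
        (Monoid.Coprod.inr : Zm →* Monoid.Coprod Zm Zm)) := by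
  have hq0 : q ≠ 0 := by
    rintro rfl
    simp at hq
  let q' : Monoid.Coprod Zm Zm →* (Monoid.Coprod Zm Zm ⧸ Subgroup.normalClosure {bsr 1 q}) :=
    QuotientGroup.mk' _
  obtain ⟨U, hU⟩ : ∃ U, U = q' (Monoid.Coprod.inl (ofAdd 1)) := ⟨_, rfl⟩
  obtain ⟨W, hW⟩ : ∃ W, W = q' (Monoid.Coprod.inr (ofAdd 1)) := ⟨_, rfl⟩
  have hUn : ∀ n : Zm, q' (Monoid.Coprod.inl n) = U ^ toAdd n := by
    intro n
    rw [hU, ← map_zpow, ← map_zpow, ← ofAdd_zsmul, smul_eq_mul, mul_one]
    rfl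
  have hWn : ∀ n : Zm, q' (Monoid.Coprod.inr n) = W ^ toAdd n := by
    intro n
    rw [hW, ← map_zpow, ← map_zpow, ← ofAdd_zsmul, smul_eq_mul, mul_one]
    rfl
  have hrel : U * W = W ^ q * U := by
    have h1 : q' (bsr 1 q) = 1 :=
      (QuotientGroup.eq_one_iff _).2 (Subgroup.subset_normalClosure rfl)
    rw [bsr_map, mul_inv_eq_one, mul_inv_eq_iff_eq_mul, ← hU, ← hW, hWn] at h1
    exact h1
  obtain ⟨hk, hmul⟩ := bs_form hrel
  have hform : ∀ x, ∃ (i j : ℕ) (m : ℤ), x = (U ^ i)⁻¹ * W ^ m * U ^ j := by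
    intro x
    obtain ⟨x, rfl⟩ := QuotientGroup.mk_surjective x
    induction x using Monoid.Coprod.induction_on with
    | inl n =>
      obtain ⟨k, hk | hk⟩ := Int.eq_nat_or_neg (toAdd n)
      · refine ⟨0, k, 0, ?_⟩
        have h1 := hUn n
        rw [hk] at h1
        refine h1.trans ?_
        simp
      · refine ⟨k, 0, 0, ?_⟩
        have h1 := hUn n
        rw [hk] at h1
        refine h1.trans ?_
        simp
    | inr n =>
      refine ⟨0, 0, toAdd n, ?_⟩
      refine (hWn n).trans ?_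
      simp
    | mul a b ha hb => exact hmul _ _ ha hb
  -- the affine group
  let s : ℚˣ := rat (one_ne_zero (α := ℤ)) hq0
  have hs : ((s : ℚˣ) : ℚ) = q := by
    have h1 := rat_mul (one_ne_zero (α := ℤ)) hq0
    rw [Int.cast_one, mul_one] at h1
    exact h1
  let Φ : (Monoid.Coprod Zm Zm ⧸ Subgroup.normalClosure {bsr 1 q}) →* Aff :=
    QuotientGroup.lift _ (Monoid.Coprod.lift (zpowersHom Aff (SemidirectProduct.inr s)) jA) (by
      apply Subgroup.normalClosure_le_normal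
      rintro _ rfl
      rw [SetLike.mem_coe, MonoidHom.mem_ker, bsr_map, Monoid.Coprod.lift_apply_inl,
        Monoid.Coprod.lift_apply_inr, Monoid.Coprod.lift_apply_inr]
      have h2 := conj_jA (one_ne_zero (α := ℤ)) hq0 1
      rw [mul_one, mul_one] at h2
      have h3 : zpowersHom Aff (SemidirectProduct.inr s) (ofAdd 1) =
          SemidirectProduct.inr s := by simp
      rw [h3, h2, mul_inv_cancel_right, mul_inv_cancel])
  have hΦU : Φ U = SemidirectProduct.inr s := by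
    rw [hU]
    show Monoid.Coprod.lift (zpowersHom Aff (SemidirectProduct.inr s)) jA
      (Monoid.Coprod.inl (ofAdd 1)) = _
    rw [Monoid.Coprod.lift_apply_inl]
    simp
  have hΦW : ∀ m : ℤ, Φ (W ^ m) = SemidirectProduct.inl (ofAdd (m : ℚ)) := by
    intro m
    have h1 := hWn (ofAdd m)
    rw [toAdd_ofAdd] at h1
    rw [← h1]
    show Monoid.Coprod.lift (zpowersHom Aff (SemidirectProduct.inr s)) jA
      (Monoid.Coprod.inr (ofAdd m)) = _
    rw [Monoid.Coprod.lift_apply_inr]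
    rfl
  have hΦUz : ∀ n : ℤ, Φ (U ^ n) = SemidirectProduct.inr (s ^ n) := by
    intro n
    rw [map_zpow, hΦU, map_zpow]
  -- the exponent of the first generator
  let κ : (Monoid.Coprod Zm Zm ⧸ Subgroup.normalClosure {bsr 1 q}) →* Zm :=
    QuotientGroup.lift _ (Monoid.Coprod.fst) (by
      apply Subgroup.normalClosure_le_normal
      rintro _ rfl
      rw [SetLike.mem_coe, MonoidHom.mem_ker, bsr_map, Monoid.Coprod.fst_apply_inl,
        Monoid.Coprod.fst_apply_inr, Monoid.Coprod.fst_apply_inr]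
      group)
  have hκl : ∀ n : Zm, κ (q' (Monoid.Coprod.inl n)) = n := fun n =>
    Monoid.Coprod.fst_apply_inl (M := Zm) (N := Zm) n
  have hκr : ∀ n : Zm, κ (q' (Monoid.Coprod.inr n)) = 1 := fun n =>
    Monoid.Coprod.fst_apply_inr (M := Zm) (N := Zm) n
  intro g hg x
  have hg0 : toAdd g ≠ 0 := fun h => hg (toAdd.injective h)
  constructor
  · rintro ⟨l, hl⟩
    obtain ⟨i, j, m, rfl⟩ := hform x
    have hl' : q' (Monoid.Coprod.inl l) = ((U ^ i)⁻¹ * W ^ m * U ^ j)⁻¹ * q' (Monoid.Coprod.inl g) *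
        ((U ^ i)⁻¹ * W ^ m * U ^ j) := hl
    rw [hUn, hUn] at hl'
    have h1 : U ^ toAdd l = (W ^ m)⁻¹ * U ^ toAdd g * W ^ m := by
      have e1 : ((U ^ i)⁻¹ * W ^ m * U ^ j)⁻¹ * U ^ toAdd g * ((U ^ i)⁻¹ * W ^ m * U ^ j) =
          (U ^ j)⁻¹ * ((W ^ m)⁻¹ * (U ^ i * U ^ toAdd g * (U ^ i)⁻¹) * W ^ m) * U ^ j := by group
      have e2 : U ^ i * U ^ toAdd g * (U ^ i)⁻¹ = U ^ toAdd g := by
        rw [← zpow_natCast, ← zpow_add, ← zpow_neg, ← zpow_add]
        congr 1
        ring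
      rw [e1, e2] at hl'
      have e3 : (U ^ j) * U ^ toAdd l * (U ^ j)⁻¹ = U ^ toAdd l := by
        rw [← zpow_natCast, ← zpow_add, ← zpow_neg, ← zpow_add]
        congr 1
        ring
      rw [← e3, hl']
      group
    have h2 := congrArg Φ h1
    rw [map_mul, map_mul, map_inv, hΦUz, hΦUz, hΦW] at h2
    have h3 := congrArg (fun z : Aff => toAdd z.left) h2
    simp only [SemidirectProduct.left_inr, SemidirectProduct.mul_left,
      SemidirectProduct.left_inl, ← map_inv, SemidirectProduct.right_inl,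
      SemidirectProduct.right_inr, map_one, SemidirectProduct.mul_right, one_mul,
      mul_one] at h3
    have h4 : (0 : ℚ) = -(m : ℚ) + (((s ^ toAdd g : ℚˣ)) : ℚ) * m := h3
    have h5 : (((s ^ toAdd g : ℚˣ)) : ℚ) = (q : ℚ) ^ toAdd g := by
      rw [Units.val_zpow_eq_zpow_val, hs]
    rw [h5] at h4
    have h6 : ((q : ℚ) ^ toAdd g - 1) * m = 0 := by linarith
    have h7 : (q : ℚ) ^ toAdd g ≠ 1 := by
      intro h8
      have h9 : |(q : ℚ)| ^ toAdd g = 1 := by rw [← abs_zpow, h8, abs_one]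
      have h10 : (1 : ℚ) < |(q : ℚ)| := by
        have h11 : ((2 : ℤ) : ℚ) ≤ ((|q| : ℤ) : ℚ) := by exact_mod_cast hq
        rw [Int.cast_abs] at h11
        norm_num at h11
        linarith
      rcases (zpow_eq_one_iff_of_ne_zero₀ hg0).1 h9 with h12 | h12
      · exact h10.ne' h12
      · have h13 := h12.1
        linarith
    have hm : m = 0 := by
      rcases mul_eq_zero.1 h6 with h8 | h8
      · exact absurd (sub_eq_zero.1 h8) h7
      · exact_mod_cast h8
    subst hm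
    refine ⟨ofAdd (-(i : ℤ) + j), ?_⟩
    show q' (Monoid.Coprod.inl _) = _
    rw [hUn, toAdd_ofAdd, zpow_add, zpow_neg, zpow_natCast, zpow_natCast, zpow_zero, mul_one]
  · rintro ⟨l, hl⟩
    have h1 := congrArg κ hl
    have h2 : κ (q' (Monoid.Coprod.inr l)) = κ (x⁻¹ * q' (Monoid.Coprod.inl g) * x) := h1
    rw [hκr, map_mul, map_mul, map_inv, hκl, mul_right_comm, inv_mul_cancel, one_mul] at h2
    exact hg h2.symm

end bs

end Pool.Agent.U385.RT
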