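import Pool.Agent.U385.RT.Gi4

/-!
# Higman's groups and generalizations
-/

set_option autoImplicit false

namespace Pool.Agent.U385.RT

open SimpleGraph
open Pool.Agent.Y110.FJ
open Pool.Agent.N509.TK (Acyl)
open Pool.Agent.R941.FJ (C_equiv C_le)
open Monoid (CoprodI)
open Multiplicative (ofAdd toAdd)
open scoped Classical

section

variable {C : ∀ (G : Type) [Group G], Prop}

/-- the presented group of a set of arrows -/
theorem bs_equiv {V : Type} [LinearOrder V] (D : V → V → Prop) (has : ∀ u v, D u v → ¬ D v u)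
    (Γ : SimpleGraph V) (hΓ : ∀ u v, Γ.Adj u v ↔ D u v ∨ D v u) (p q : V → V → ℤ) :
    Nonempty ((CoprodI (fun _ : V => Zm) ⧸ Subgroup.normalClosure (oneRel Γ (bsR D p q))) ≃*
      PresentedGroup (bsRel D p q)) := by
  let q' : CoprodI (fun _ : V => Zm) →*
    (CoprodI (fun _ : V => Zm) ⧸ Subgroup.normalClosure (oneRel Γ (bsR D p q))) :=
    QuotientGroup.mk' _
  let g : V → (CoprodI (fun _ : V => Zm) ⧸ Subgroup.normalClosure (oneRel Γ (bsR D p q))) :=
    fun v => q' (CoprodI.of (M := fun _ : V => Zm) (i := v) (ofAdd 1))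
  have hrel : ∀ u v, D u v → q' (two (fun _ : V => Zm) u v (bsr (p u v) (q u v))) = 1 := by
    intro u v huv
    have hne : u ≠ v := by
      rintro rfl
      exact has u u huv huv
    rcases lt_or_gt_of_ne hne with hlt | hlt
    · refine (QuotientGroup.eq_one_iff _).2
        (Subgroup.subset_normalClosure ⟨u, v, hlt, (hΓ u v).2 (Or.inl huv), _, ?_, rfl⟩)
      rw [bsR, if_pos huv]
      exact Set.mem_singleton _
    · refine (QuotientGroup.eq_one_iff _).2
        (Subgroup.subset_normalClosure ⟨v, u, hlt, (hΓ v u).2 (Or.inr huv),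
          Monoid.Coprod.swap Zm Zm (bsr (p u v) (q u v)), ?_, ?_⟩)
      · rw [bsR, if_neg (has u v huv)]
        exact ⟨_, rfl, rfl⟩
      · exact (two_swap (G := fun _ : V => Zm) u v _).symm
  let F : PresentedGroup (bsRel D p q) →*
      (CoprodI (fun _ : V => Zm) ⧸ Subgroup.normalClosure (oneRel Γ (bsR D p q))) :=
    PresentedGroup.toGroup (f := g) (by
      rintro _ ⟨u, v, huv, rfl⟩
      rw [map_mul, map_mul, map_mul, map_inv, map_inv, map_zpow, map_zpow, FreeGroup.lift_apply_of,
        FreeGroup.lift_apply_of]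
      have h1 := hrel u v huv
      rw [two_bsr] at h1
      exact h1)
  let φ : CoprodI (fun _ : V => Zm) →* PresentedGroup (bsRel D p q) :=
    CoprodI.lift fun v => zpowersHom _ (PresentedGroup.of v)
  have hφ : ∀ (v : V) (n : ℤ), φ (CoprodI.of (M := fun _ : V => Zm) (i := v) (ofAdd n)) =
      PresentedGroup.of v ^ n := by
    intro v n
    rw [CoprodI.lift_of]
    simp
  have hφr : ∀ u v, D u v → φ (two (fun _ : V => Zm) u v (bsr (p u v) (q u v))) = 1 := by
    intro u v huv
    rw [two_bsr, hφ, hφ, zpow_one, zpow_one]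
    have h1 : (QuotientGroup.mk' (Subgroup.normalClosure (bsRel D p q)))
        (FreeGroup.of u * FreeGroup.of v ^ p u v * (FreeGroup.of u)⁻¹ *
          (FreeGroup.of v ^ q u v)⁻¹) = 1 :=
      (QuotientGroup.eq_one_iff _).2 (Subgroup.subset_normalClosure ⟨u, v, huv, rfl⟩)
    rw [map_mul, map_mul, map_mul, map_inv, map_inv, map_zpow, map_zpow] at h1
    exact h1
  let B : (CoprodI (fun _ : V => Zm) ⧸ Subgroup.normalClosure (oneRel Γ (bsR D p q))) →*
      PresentedGroup (bsRel D p q) :=
    QuotientGroup.lift _ φ (by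
      apply Subgroup.normalClosure_le_normal
      rintro _ ⟨u, v, huv, ha, r, hr, rfl⟩
      rw [SetLike.mem_coe, MonoidHom.mem_ker]
      by_cases hD : D u v
      · rw [bsR, if_pos hD] at hr
        obtain rfl := hr
        exact hφr u v hD
      · rw [bsR, if_neg hD] at hr
        obtain ⟨_, rfl, rfl⟩ := hr
        have h1 := two_swap (G := fun _ : V => Zm) v u (bsr (p v u) (q v u))
        rw [h1]
        exact hφr v u (((hΓ u v).1 ha).resolve_left hD))
  have hFo : ∀ v, F (PresentedGroup.of v) = g v := fun v => PresentedGroup.toGroup.of _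
  refine ⟨MonoidHom.toMulEquiv B F ?_ ?_⟩
  · apply QuotientGroup.monoidHom_ext
    apply CoprodI.ext_hom
    intro v
    apply MonoidHom.ext_mint
    show F (φ (CoprodI.of (M := fun _ : V => Zm) (i := v) (ofAdd 1))) =
      q' (CoprodI.of (M := fun _ : V => Zm) (i := v) (ofAdd 1))
    rw [hφ, zpow_one, hFo]
  · apply PresentedGroup.ext
    intro v
    show B (F (PresentedGroup.of v)) = PresentedGroup.of v
    rw [hFo]
    show φ (CoprodI.of (M := fun _ : V => Zm) (i := v) (ofAdd 1)) = _
    rw [hφ, zpow_one]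

/-- the isomorphism of the edge groups which exchanges the generators -/
theorem swap_equiv (S : Set (Monoid.Coprod Zm Zm)) :
    ∃ f : (Monoid.Coprod Zm Zm ⧸ Subgroup.normalClosure S) ≃*
      (Monoid.Coprod Zm Zm ⧸ Subgroup.normalClosure (Monoid.Coprod.swap Zm Zm '' S)),
      ∀ x : Monoid.Coprod Zm Zm, f (QuotientGroup.mk' _ x) =
        QuotientGroup.mk' _ (Monoid.Coprod.swap Zm Zm x) := by
  have h1 : (Subgroup.normalClosure S).map
      ((MulEquiv.coprodComm Zm Zm : Monoid.Coprod Zm Zm ≃* Monoid.Coprod Zm Zm) :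
        Monoid.Coprod Zm Zm →* Monoid.Coprod Zm Zm) =
      Subgroup.normalClosure (Monoid.Coprod.swap Zm Zm '' S) :=
    Subgroup.map_normalClosure _ _ Monoid.Coprod.swap_surjective
  exact ⟨QuotientGroup.congr _ _ (MulEquiv.coprodComm Zm Zm) h1, fun x => rfl⟩

theorem isol_swap {q : ℤ} (hq : 2 ≤ |q|) :
    Isol ((QuotientGroup.mk' (Subgroup.normalClosure (Monoid.Coprod.swap Zm Zm '' {bsr 1 q}))).comp
        (Monoid.Coprod.inr : Zm →* Monoid.Coprod Zm Zm))
      ((QuotientGroup.mk' (Subgroup.normalClosure (Monoid.Coprod.swap Zm Zm '' {bsr 1 q}))).comp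
        (Monoid.Coprod.inl : Zm →* Monoid.Coprod Zm Zm)) := by
  obtain ⟨f, hf⟩ := swap_equiv {bsr 1 q}
  intro g hg x
  obtain ⟨x, rfl⟩ := f.surjective x
  obtain ⟨h1, h2⟩ := isol_bs hq g hg x
  have e1 : ∀ a : Zm, ((QuotientGroup.mk' (Subgroup.normalClosure
      (Monoid.Coprod.swap Zm Zm '' {bsr 1 q}))).comp
        (Monoid.Coprod.inr : Zm →* Monoid.Coprod Zm Zm)) a =
      f (QuotientGroup.mk' _ (Monoid.Coprod.inl a)) := by
    intro a
    rw [hf, Monoid.Coprod.swap_inl]
    rfl
  have e2 : ∀ a : Zm, ((QuotientGroup.mk' (Subgroup.normalClosure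
      (Monoid.Coprod.swap Zm Zm '' {bsr 1 q}))).comp
        (Monoid.Coprod.inl : Zm →* Monoid.Coprod Zm Zm)) a =
      f (QuotientGroup.mk' _ (Monoid.Coprod.inr a)) := by
    intro a
    rw [hf, Monoid.Coprod.swap_inr]
    rfl
  rw [e1, ← map_inv, ← map_mul, ← map_mul]
  constructor
  · rintro ⟨l, hl⟩
    rw [e1] at hl
    obtain ⟨c, hc⟩ := h1 ⟨l, f.injective hl⟩
    exact ⟨c, by rw [e1, ← hc]; rfl⟩
  · rintro ⟨l, hl⟩
    rw [e2] at hl
    exact h2 ⟨l, f.injective hl⟩

/-- **Higman's groups and generalizations** -/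
theorem bs_girth (hC : ClosedE C) (hA : Acyl C)
    (hM : ∀ (G : Type) [Group G], derivedSeries G 2 = ⊥ → C G) {V : Type} (D : V → V → Prop)
    (has : ∀ u v, D u v → ¬ D v u) (hin : ∀ u u' v, D u v → D u' v → u = u')
    (htri : ∀ u v w, (D u v ∨ D v u) → (D v w ∨ D w v) → ¬ (D u w ∨ D w u))
    (hsq : ∀ a b c d, a ≠ c → b ≠ d → (D a b ∨ D b a) → (D b c ∨ D c b) → (D c d ∨ D d c) →
      ¬ (D d a ∨ D a d))
    (q : V → V → ℤ) (hq : ∀ u v, D u v → 2 ≤ |q u v|) :
    C (PresentedGroup (bsRel D (fun _ _ => 1) q)) := by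
  let _ : LinearOrder V := IsWellOrder.linearOrder WellOrderingRel
  let Γ : SimpleGraph V :=
    { Adj := fun u v => D u v ∨ D v u
      symm := ⟨fun _ _ h => h.symm⟩
      loopless := ⟨fun v h => by rcases h with h | h <;> exact has v v h h⟩ }
  have hp : ∀ u v, D u v → (1 : ℤ) ≠ 0 := fun _ _ _ => one_ne_zero
  have hq0 : ∀ u v, D u v → q u v ≠ 0 := by
    intro u v huv h0
    have h1 := hq u v huv
    rw [h0] at h1
    simp at h1
  have hgood : ∀ u v, D u v → GoodE (G := fun _ : V => Zm) (bsR D (fun _ _ => 1) q) u v := by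
    intro u v huv
    constructor
    · intro _
      show Isol ((QuotientGroup.mk' (Subgroup.normalClosure (bsR D (fun _ _ => 1) q u v))).comp
        (Monoid.Coprod.inl : Zm →* Monoid.Coprod Zm Zm))
        ((QuotientGroup.mk' (Subgroup.normalClosure (bsR D (fun _ _ => 1) q u v))).comp
        (Monoid.Coprod.inr : Zm →* Monoid.Coprod Zm Zm))
      rw [bsR, if_pos huv]
      exact isol_bs (hq u v huv)
    · intro _
      show Isol ((QuotientGroup.mk' (Subgroup.normalClosure (bsR D (fun _ _ => 1) q v u))).comp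
        (Monoid.Coprod.inr : Zm →* Monoid.Coprod Zm Zm))
        ((QuotientGroup.mk' (Subgroup.normalClosure (bsR D (fun _ _ => 1) q v u))).comp
        (Monoid.Coprod.inl : Zm →* Monoid.Coprod Zm Zm))
      rw [bsR, if_neg (has u v huv)]
      exact isol_swap (hq u v huv)
  have h5 : GirthFive (G := fun _ : V => Zm) Γ (bsR D (fun _ _ => 1) q) :=
    { tri := htri
      sq := hsq
      meet := fun u v _ hadj a b h => bsR_meet hp hq0 hadj a b (by
        rw [← QuotientGroup.eq_one_iff]
        exact h)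
      good := by
        intro u v w hvw huv huw
        rcases huv with huv | huv
        · exact Or.inl (hgood u v huv)
        · rcases huw with huw | huw
          · exact Or.inr (hgood u w huw)
          · exact absurd (hin v w u huv huw) hvw }
  have hmain := girth_main (V := V) hC hA h5.toG (fun _ => hC.base.int) (fun u v _ hadj => by
    by_cases hD : D u v
    · rw [bsR, if_pos hD]
      exact C_bs hC hM (hp u v hD) (hq0 u v hD)
    · have hD' : D v u := (show D u v ∨ D v u from hadj).resolve_left hD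
      rw [bsR, if_neg hD]
      obtain ⟨f, -⟩ := swap_equiv {bsr 1 (q v u)}
      exact C_equiv hC.base f.symm (C_bs hC hM (hp v u hD') (hq0 v u hD')))
  obtain ⟨e⟩ := bs_equiv D has Γ (fun _ _ => Iff.rfl) (fun _ _ => 1) q
  exact C_equiv hC.base e.symm hmain

end

end Pool.Agent.U385.RT
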