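import Pool.Agent.U385.RT.AmC

/-!
# The class of locally indicable groups
-/

set_option autoImplicit false

namespace Pool.Agent.U385.RT

open Pool.Agent.Y110.FJ (permAut)
open Pool.Agent.TH107.RF (LI)
open Multiplicative (ofAdd toAdd)

theorem li_of {G : Type} [Group G] (h : ∀ K : Subgroup G, K.FG → ∀ k : K, k ≠ 1 →
    ∃ (H : Type) (_ : Group H) (f : K →* H), LI H ∧ ∃ k, f k ≠ 1) : LI G := by
  intro K hK hne
  obtain ⟨k, hk⟩ := (K.ne_bot_iff_exists_ne_one).1 hne
  obtain ⟨H, _, f, hH, hf⟩ := h K hK k hk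
  exact hH.of_hom hK f hf

theorem li_inj {G H : Type} [Group G] [Group H] (f : G →* H) (hf : Function.Injective f)
    (hH : LI H) : LI G :=
  li_of fun K _ k hk => ⟨H, _, f.comp K.subtype, hH, k, fun h =>
    hk (Subtype.ext (hf (h.trans (map_one f).symm)))⟩

theorem li_int : LI (Multiplicative ℤ) := by
  intro K _ hne
  obtain ⟨k, hk⟩ := (K.ne_bot_iff_exists_ne_one).1 hne
  exact ⟨K.subtype, k, fun h => hk (Subtype.ext h)⟩

theorem li_prod {G H : Type} [Group G] [Group H] (hG : LI G) (hH : LI H) : LI (G × H) := by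
  refine li_of fun K _ k hk => ?_
  by_cases h : (k : G × H).1 = 1
  · refine ⟨H, _, (MonoidHom.snd G H).comp K.subtype, hH, k, fun h' => hk ?_⟩
    exact Subtype.ext (Prod.ext h h')
  · exact ⟨G, _, (MonoidHom.fst G H).comp K.subtype, hG, k, h⟩

theorem li_freeGroup (X : Type) : LI (FreeGroup X) := by
  intro K _ hne
  obtain ⟨k, hk⟩ := (K.ne_bot_iff_exists_ne_one).1 hne
  let F : K →* Multiplicative ℤ :=
    IsFreeGroup.lift (fun _ : IsFreeGroup.Generators K => (ofAdd (1 : ℤ)))
  by_cases hemp : Nonempty (IsFreeGroup.Generators K)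
  · obtain ⟨g⟩ := hemp
    refine ⟨F, IsFreeGroup.of g, ?_⟩
    rw [IsFreeGroup.lift_of]
    decide
  · exfalso
    apply hk
    have h1 : (MonoidHom.id K) = 1 := by
      apply IsFreeGroup.ext_hom
      intro a
      exact absurd ⟨a⟩ hemp
    exact DFunLike.congr_fun h1 k

/-- extensions -/
theorem li_semi {N P : Type} [Group N] [Group P] (φ : P →* MulAut N)
    (h : ∀ x : N, x ≠ 1 → ∃ (H : Type) (_ : Group H) (f : N →* H), LI H ∧ f x ≠ 1)
    (hP : LI P) : LI (N ⋊[φ] P) := by
  refine li_of fun K _ k hk => ?_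
  by_cases hr : ∃ k : K, (k : N ⋊[φ] P).right ≠ 1
  · obtain ⟨k', hk'⟩ := hr
    exact ⟨P, _, SemidirectProduct.rightHom.comp K.subtype, hP, k', hk'⟩
  · push Not at hr
    have hx : (k : N ⋊[φ] P).left ≠ 1 := fun h =>
      hk (Subtype.ext (SemidirectProduct.ext h (hr k)))
    obtain ⟨H, _, f, hH, hf⟩ := h _ hx
    let g : K →* N :=
      { toFun := fun x => (x : N ⋊[φ] P).left
        map_one' := rfl
        map_mul' := fun x y => by
          show ((x : N ⋊[φ] P) * (y : N ⋊[φ] P)).left = _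
          rw [SemidirectProduct.mul_left, hr x, map_one]
          rfl }
    exact ⟨H, _, f.comp g, hH, k, hf⟩

theorem li_wrC : WrC (fun G _ => LI G) where
  inj _ _ _ _ f hf h := li_inj f hf h
  int := li_int
  prod _ _ _ _ hG hH := li_prod hG hH
  free X P _ _ hP := li_semi _ (fun x hx => ⟨FreeGroup X, _, MonoidHom.id _, li_freeGroup X, hx⟩) hP
  wr N P _ _ hN hP := li_semi _ (fun x hx => by
    obtain ⟨p, hp⟩ : ∃ p, x p ≠ 1 := by
      by_contra hcon
      push Not at hcon
      exact hx (funext hcon)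
    exact ⟨N, _, Pi.evalMonoidHom (fun _ : P => N) p, hN, hp⟩) hP

/-- locally indicable groups -/
theorem li_main {V : Type} [LinearOrder V] [Finite V] {Γ : SimpleGraph V} {G : V → Type}
    [∀ v, Group (G v)] {R : ∀ u v, Set (Monoid.Coprod (G u) (G v))}
    (hh : OneSided (fun G _ => LI G) Γ R) :
    LI (Monoid.CoprodI G ⧸ Subgroup.normalClosure (oneRel Γ R)) :=
  li_wrC.amC.main hh

end Pool.Agent.U385.RT
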