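import Pool.Agent.U385.RT.BSg
import Pool.Agent.U385.RT.LIc
import Pool.Agent.R779.FJ.Hnn
import Pool.Agent.TH107.RF.LI

/-!
# Baumslag-Solitar relations along oriented graphs: local indicability
-/

set_option autoImplicit false

namespace Pool.Agent.U385.RT

open SimpleGraph
open Monoid (CoprodI)
open Multiplicative (ofAdd toAdd)
open Pool.Agent.TH107.RF (LI)
open scoped Classical

/-- a free group acting on `ℚ` by scaling -/
abbrev Pf (ι : Type) (r : ι → ℚˣ) : Type :=
  Multiplicative ℚ ⋊[scl.comp (FreeGroup.lift r)] FreeGroup ι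

theorem li_rat : LI (Multiplicative ℚ) := by
  intro K hK hne
  have : Group.FG K := (Group.fg_iff_subgroup_fg K).2 hK
  obtain ⟨k, hk⟩ := (K.ne_bot_iff_exists_ne_one).1 hne
  refine Pool.Agent.TH107.RF.to_int (V := ℚ) (fun n x hn h => ?_) K.subtype
    ⟨k, fun h => hk (Subtype.ext h)⟩
  rw [nsmul_eq_mul, mul_eq_zero] at h
  exact h.resolve_left (Nat.cast_ne_zero.2 hn)

theorem li_Pf {ι : Type} (r : ι → ℚˣ) : LI (Pf ι r) :=
  li_semi _ (fun x hx => ⟨Multiplicative ℚ, _, MonoidHom.id _, li_rat, hx⟩) (li_freeGroup ι)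

/-- translations -/
def jF {ι : Type} (r : ι → ℚˣ) : Zm →* Pf ι r :=
  SemidirectProduct.inl.comp (AddMonoidHom.toMultiplicative (Int.castAddHom ℚ))

theorem jF_apply {ι : Type} (r : ι → ℚˣ) (n : ℤ) :
    jF r (ofAdd n) = SemidirectProduct.inl (ofAdd (n : ℚ)) := rfl

theorem jF_inj {ι : Type} (r : ι → ℚˣ) : Function.Injective (jF r) := by
  intro x y h
  have h1 : ofAdd ((toAdd x : ℤ) : ℚ) = ofAdd ((toAdd y : ℤ) : ℚ) :=
    SemidirectProduct.inl_injective h
  have h2 : ((toAdd x : ℤ) : ℚ) = ((toAdd y : ℤ) : ℚ) := h1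
  exact toAdd.injective (Int.cast_injective h2)

theorem conj_jF {ι : Type} (r : ι → ℚˣ) (i : ι) {p q : ℤ} (hp : p ≠ 0) (hq : q ≠ 0)
    (h : r i = rat hp hq) (n : ℤ) :
    (SemidirectProduct.inr (FreeGroup.of i) : Pf ι r) * jF r (ofAdd (p * n)) =
      jF r (ofAdd (q * n)) * SemidirectProduct.inr (FreeGroup.of i) := by
  rw [jF_apply, jF_apply]
  have h0 := SemidirectProduct.inl_aut (φ := scl.comp (FreeGroup.lift r)) (FreeGroup.of i)
    (ofAdd (((p * n : ℤ)) : ℚ))
  have h1 : (scl.comp (FreeGroup.lift r)) (FreeGroup.of i) (ofAdd (((p * n : ℤ)) : ℚ)) =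
      ofAdd (((q * n : ℤ)) : ℚ) := by
    rw [MonoidHom.comp_apply, FreeGroup.lift_apply_of, h]
    show ofAdd (((rat hp hq : ℚˣ) : ℚ) * (((p * n : ℤ)) : ℚ)) = _
    congr 1
    push_cast
    rw [← mul_assoc, rat_mul]
  rw [h1] at h0
  rw [h0]
  simp [mul_assoc]

theorem li_bs {p q : ℤ} (hp : p ≠ 0) (hq : q ≠ 0) :
    LI (Monoid.Coprod Zm Zm ⧸ Subgroup.normalClosure {bsr p q}) := by
  let r : Unit → ℚˣ := fun _ => rat hp hq
  let H := HNNExtension Zm (pw p).range (pw q).range (ph hp hq)
  let f : H →* Pf Unit r := HNNExtension.lift (jF r) (SemidirectProduct.inr (FreeGroup.of ())) (by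
    rintro ⟨_, x, rfl⟩
    rw [ph_apply]
    exact conj_jF r () hp hq rfl (toAdd x))
  have hf : Function.Injective (f.comp HNNExtension.of) := by
    intro x y h
    have h1 : f (HNNExtension.of x) = f (HNNExtension.of y) := h
    rw [HNNExtension.lift_of, HNNExtension.lift_of] at h1
    exact jF_inj r h1
  have hH : LI H := li_inj _ (Pool.Agent.R779.FJ.Th_injective _ _ _ f hf)
    (li_wrC.free _ _ (li_Pf r))
  let F : Monoid.Coprod Zm Zm →* H :=
    Monoid.Coprod.lift (zpowersHom H HNNExtension.t) HNNExtension.of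
  have hF1 : F (Monoid.Coprod.inl (ofAdd 1)) = HNNExtension.t := by
    rw [Monoid.Coprod.lift_apply_inl]
    simp
  have hF2 : ∀ x, F (Monoid.Coprod.inr x) = HNNExtension.of x := fun x =>
    Monoid.Coprod.lift_apply_inr _ _ _
  have hpw : ∀ n : ℤ, pw n (ofAdd 1) = ofAdd n := by
    intro n
    show ofAdd (n * 1) = ofAdd n
    rw [mul_one]
  have hFr : F (bsr p q) = 1 := by
    rw [bsr_map, hF1, hF2, hF2]
    have h1 := HNNExtension.equiv_eq_conj (φ := ph hp hq) (⟨pw p (ofAdd 1), ⟨_, rfl⟩⟩)
    rw [ph_apply, hpw] at h1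
    have h2 : ((⟨pw p (ofAdd 1), ⟨_, rfl⟩⟩ : (pw p).range) : Zm) = ofAdd p := hpw p
    rw [h2] at h1
    rw [← h1, mul_inv_cancel]
  let F' : (Monoid.Coprod Zm Zm ⧸ Subgroup.normalClosure {bsr p q}) →* H :=
    QuotientGroup.lift _ F (by
      apply Subgroup.normalClosure_le_normal
      rintro _ rfl
      exact hFr)
  let q' : Monoid.Coprod Zm Zm →* (Monoid.Coprod Zm Zm ⧸ Subgroup.normalClosure {bsr p q}) :=
    QuotientGroup.mk' _
  have hq' : q' (Monoid.Coprod.inl (ofAdd 1)) * q' (Monoid.Coprod.inr (ofAdd p)) =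
      q' (Monoid.Coprod.inr (ofAdd q)) * q' (Monoid.Coprod.inl (ofAdd 1)) := by
    have h1 : q' (bsr p q) = 1 :=
      (QuotientGroup.eq_one_iff _).2 (Subgroup.subset_normalClosure rfl)
    rw [bsr_map, mul_inv_eq_one, mul_inv_eq_iff_eq_mul] at h1
    exact h1
  let B : H →* (Monoid.Coprod Zm Zm ⧸ Subgroup.normalClosure {bsr p q}) :=
    HNNExtension.lift (q'.comp Monoid.Coprod.inr) (q' (Monoid.Coprod.inl (ofAdd 1))) (by
      rintro ⟨_, x, rfl⟩
      rw [ph_apply]
      show q' (Monoid.Coprod.inl (ofAdd 1)) * q' (Monoid.Coprod.inr (pw p x)) =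
        q' (Monoid.Coprod.inr (pw q x)) * q' (Monoid.Coprod.inl (ofAdd 1))
      have h1 : ∀ n : ℤ, pw n x = ofAdd n ^ (toAdd x) := by
        intro n
        apply toAdd.injective
        show n * toAdd x = toAdd (ofAdd n ^ (toAdd x))
        rw [toAdd_zpow, toAdd_ofAdd, smul_eq_mul, mul_comm]
      rw [h1, h1, map_zpow, map_zpow, map_zpow, map_zpow]
      have h2 : q' (Monoid.Coprod.inr (ofAdd q)) =
          q' (Monoid.Coprod.inl (ofAdd 1)) * q' (Monoid.Coprod.inr (ofAdd p)) *
            (q' (Monoid.Coprod.inl (ofAdd 1)))⁻¹ := by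
        rw [hq', mul_inv_cancel_right]
      rw [h2, conj_zpow, inv_mul_cancel_right])
  have hBF : ∀ x, B (F' x) = x := by
    intro x
    obtain ⟨x, rfl⟩ := QuotientGroup.mk_surjective x
    have h1 : B.comp F = q' := by
      apply Monoid.Coprod.hom_ext
      · apply MonoidHom.ext_mint
        show B (F (Monoid.Coprod.inl (ofAdd 1))) = q' (Monoid.Coprod.inl (ofAdd 1))
        rw [hF1, HNNExtension.lift_t]
      · ext
        show B (F (Monoid.Coprod.inr _)) = q' (Monoid.Coprod.inr _)
        rw [hF2, HNNExtension.lift_of]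
        rfl
    exact DFunLike.congr_fun h1 x
  exact li_inj F' (Function.LeftInverse.injective hBF) hH

/-- **Baumslag-Solitar relations along an oriented graph** -/
theorem bs_li {V : Type} [Finite V] (D : V → V → Prop) (hac : ∀ v, ¬ Relation.TransGen D v v)
    (htri : ∀ u v w, (D u v ∨ D v u) → (D v w ∨ D w v) → ¬ (D u w ∨ D w u))
    (p q : V → V → ℤ) (hp : ∀ u v, D u v → p u v ≠ 0) (hq : ∀ u v, D u v → q u v ≠ 0) :
    LI (PresentedGroup (bsRel D p q)) := by
  -- a linear order
  have hpo : IsPartialOrder V (Relation.ReflTransGen D) :=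
    { refl := fun _ => Relation.ReflTransGen.refl
      trans := fun _ _ _ h h' => h.trans h'
      antisymm := fun a b h h' => by
        rcases Relation.reflTransGen_iff_eq_or_transGen.1 h with h1 | h1
        · exact h1.symm
        · exact absurd (h1.trans_left h') (hac a) }
  obtain ⟨s, hs, hle⟩ := extend_partialOrder (Relation.ReflTransGen D)
  let _ : LinearOrder V :=
    { le := s
      le_refl := hs.refl
      le_trans := hs.trans
      le_antisymm := hs.antisymm
      le_total := hs.total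
      toDecidableLE := Classical.decRel _ }
  have hlt : ∀ u v, D u v → u < v := by
    intro u v h
    have h1 : u ≤ v := hle u v (Relation.ReflTransGen.single h)
    refine lt_of_le_of_ne h1 ?_
    rintro rfl
    exact hac u (Relation.TransGen.single h)
  let Γ : SimpleGraph V :=
    { Adj := fun u v => D u v ∨ D v u
      symm := ⟨fun _ _ h => h.symm⟩
      loopless := ⟨fun v h => by
        rcases h with h | h <;> exact hac v (Relation.TransGen.single h)⟩ }
  have hadj : ∀ u v, u < v → Γ.Adj u v → D u v := by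
    rintro u v huv (h | h)
    · exact h
    · exact absurd (hlt v u h) (lt_asymm huv)
  let R : ∀ u v : V, Set (Monoid.Coprod Zm Zm) := fun u v => {bsr (p u v) (q u v)}
  let r : V → V → ℚˣ := fun v u => if h : D u v then rat (hp u v h) (hq u v h) else 1
  have hr : ∀ u v (h : D u v), r v u = rat (hp u v h) (hq u v h) := fun u v h => dif_pos h
  have hone : OneSided (G := fun _ : V => Zm) (fun G _ => LI G) Γ R :=
    { tri := htri
      fst := by
        rintro u v - - _ rfl
        rw [bsr, map_mul, map_mul, map_mul, map_inv, map_inv, Monoid.Coprod.fst_apply_inl,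
          Monoid.Coprod.fst_apply_inr, Monoid.Coprod.fst_apply_inr]
        group
      loc := by
        intro v
        refine ⟨Pf V (r v), _, jF (r v), li_Pf _, jF_inj _, fun u huv ha => ?_⟩
        have h1 := hadj u v huv ha
        refine ⟨zpowersHom _ (SemidirectProduct.inr (FreeGroup.of u)), ?_⟩
        rintro _ rfl
        rw [bsr_map, Monoid.Coprod.lift_apply_inl, Monoid.Coprod.lift_apply_inr,
          Monoid.Coprod.lift_apply_inr]
        have h2 := conj_jF (r v) u (hp u v h1) (hq u v h1) (hr u v h1) 1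
        rw [mul_one, mul_one] at h2
        have h3 : zpowersHom (Pf V (r v)) (SemidirectProduct.inr (FreeGroup.of u)) (ofAdd 1) =
            SemidirectProduct.inr (FreeGroup.of u) := by simp
        rw [h3, h2, mul_inv_cancel_right, mul_inv_cancel]
      edge := by
        intro u v huv ha
        exact li_bs (hp u v (hadj u v huv ha)) (hq u v (hadj u v huv ha)) }
  have hmain := li_main hone
  -- the presented group
  let q' : CoprodI (fun _ : V => Zm) →*
    (CoprodI (fun _ : V => Zm) ⧸ Subgroup.normalClosure (oneRel Γ R)) := QuotientGroup.mk' _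
  let g : V → (CoprodI (fun _ : V => Zm) ⧸ Subgroup.normalClosure (oneRel Γ R)) := fun v =>
    q' (CoprodI.of (M := fun _ : V => Zm) (i := v) (ofAdd 1))
  let F : PresentedGroup (bsRel D p q) →*
      (CoprodI (fun _ : V => Zm) ⧸ Subgroup.normalClosure (oneRel Γ R)) :=
    PresentedGroup.toGroup (f := g) (by
      rintro _ ⟨u, v, huv, rfl⟩
      rw [map_mul, map_mul, map_mul, map_inv, map_inv, map_zpow, map_zpow, FreeGroup.lift_apply_of,
        FreeGroup.lift_apply_of]
      have h1 : q' (two (fun _ : V => Zm) u v (bsr (p u v) (q u v))) = 1 :=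
        (QuotientGroup.eq_one_iff _).2
          (Subgroup.subset_normalClosure ⟨u, v, hlt u v huv, Or.inl huv, _, rfl, rfl⟩)
      rw [two_bsr] at h1
      exact h1)
  let φ : CoprodI (fun _ : V => Zm) →* PresentedGroup (bsRel D p q) :=
    CoprodI.lift fun v => zpowersHom _ (PresentedGroup.of v)
  have hφ : ∀ (v : V) (n : ℤ), φ (CoprodI.of (M := fun _ : V => Zm) (i := v) (ofAdd n)) =
      PresentedGroup.of v ^ n := by
    intro v n
    rw [CoprodI.lift_of]
    simp
  let B : (CoprodI (fun _ : V => Zm) ⧸ Subgroup.normalClosure (oneRel Γ R)) →*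
      PresentedGroup (bsRel D p q) :=
    QuotientGroup.lift _ φ (by
      apply Subgroup.normalClosure_le_normal
      rintro _ ⟨u, v, huv, ha, _, rfl, rfl⟩
      have huv' := hadj u v huv ha
      rw [SetLike.mem_coe, MonoidHom.mem_ker, two_bsr, hφ, hφ, zpow_one, zpow_one]
      have h1 : (QuotientGroup.mk' (Subgroup.normalClosure (bsRel D p q)))
          (FreeGroup.of u * FreeGroup.of v ^ p u v * (FreeGroup.of u)⁻¹ *
            (FreeGroup.of v ^ q u v)⁻¹) = 1 :=
        (QuotientGroup.eq_one_iff _).2 (Subgroup.subset_normalClosure ⟨u, v, huv', rfl⟩)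
      rw [map_mul, map_mul, map_mul, map_inv, map_inv, map_zpow, map_zpow] at h1
      exact h1)
  have hBF : ∀ x, B (F x) = x := by
    intro x
    have h1 : B.comp F = MonoidHom.id _ := by
      apply PresentedGroup.ext
      intro v
      show B (F (PresentedGroup.of v)) = PresentedGroup.of v
      have h2 : F (PresentedGroup.of v) = g v := PresentedGroup.toGroup.of _
      rw [h2]
      show φ (CoprodI.of (M := fun _ : V => Zm) (i := v) (ofAdd 1)) = _
      rw [hφ, zpow_one]
    exact DFunLike.congr_fun h1 x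
  exact li_inj F (Function.LeftInverse.injective hBF) hmain

end Pool.Agent.U385.RT
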