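import Pool.Agent.U385.RT.FP

/-!
# One-sided relations along a graph without triangles
-/

set_option autoImplicit false

namespace Pool.Agent.U385.RT

open SimpleGraph
open Pool.Agent.Y110.FJ
open Pool.Agent.Y462.PA (Am)
open Pool.Agent.R941.FJ (C_equiv C_le C_cyc mem_sup_normal)
open Monoid (CoprodI)
open scoped Classical

section

variable {V : Type} [LinearOrder V] (Γ : SimpleGraph V) {G : V → Type} [∀ v, Group (G v)]
  (R : ∀ u v, Set (Monoid.Coprod (G u) (G v)))

/-- the homomorphism from the free product of two of the groups -/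
def two (G : V → Type) [∀ v, Group (G v)] (u v : V) :
    Monoid.Coprod (G u) (G v) →* CoprodI G := Monoid.Coprod.lift CoprodI.of CoprodI.of

/-- the relations of the edges -/
def oneRel : Set (CoprodI G) :=
  {x | ∃ u v, u < v ∧ Γ.Adj u v ∧ ∃ r ∈ R u v, x = two G u v r}

/-- the relations of the edges in `S`; the groups outside `S` are killed -/
def relS (S : Set V) : Set (CoprodI G) :=
  {x | ∃ u v, u ∈ S ∧ v ∈ S ∧ u < v ∧ Γ.Adj u v ∧ ∃ r ∈ R u v, x = two G u v r} ∪
    {x | ∃ v, v ∉ S ∧ ∃ a : G v, x = CoprodI.of a}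

/-- the group of the set `S` -/
def Qs (S : Set V) : Type := CoprodI G ⧸ Subgroup.normalClosure (relS Γ R S)

noncomputable instance (S : Set V) : Group (Qs Γ R S) :=
  inferInstanceAs (Group (CoprodI G ⧸ Subgroup.normalClosure (relS Γ R S)))

variable {Γ R}

/-- the projection -/
noncomputable def pi (S : Set V) : CoprodI G →* Qs Γ R S :=
  QuotientGroup.mk' (Subgroup.normalClosure (relS Γ R S))

theorem pi_surj (S : Set V) : Function.Surjective (pi (Γ := Γ) (R := R) S) :=
  QuotientGroup.mk'_surjective _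

theorem pi_out {S : Set V} {v : V} (hv : v ∉ S) (a : G v) :
    pi (Γ := Γ) (R := R) S (CoprodI.of a) = 1 :=
  (QuotientGroup.eq_one_iff _).2 (Subgroup.subset_normalClosure (Or.inr ⟨v, hv, a, rfl⟩))

theorem pi_rel {S : Set V} {u v : V} (hu : u ∈ S) (hv : v ∈ S) (huv : u < v) (h : Γ.Adj u v)
    {r : Monoid.Coprod (G u) (G v)} (hr : r ∈ R u v) : pi (Γ := Γ) (R := R) S (two G u v r) = 1 :=
  (QuotientGroup.eq_one_iff _).2
    (Subgroup.subset_normalClosure (Or.inl ⟨u, v, hu, hv, huv, h, r, hr, rfl⟩))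

/-- the universal property -/
noncomputable def Qs.lift {S : Set V} {H : Type} [Group H] (φ : CoprodI G →* H)
    (h1 : ∀ u v, u ∈ S → v ∈ S → u < v → Γ.Adj u v → ∀ r ∈ R u v, φ (two G u v r) = 1)
    (h2 : ∀ v, v ∉ S → ∀ a : G v, φ (CoprodI.of a) = 1) : Qs Γ R S →* H :=
  QuotientGroup.lift (Subgroup.normalClosure (relS Γ R S)) φ (by
    apply Subgroup.normalClosure_le_normal
    rintro _ (⟨u, v, hu, hv, huv, h, r, hr, rfl⟩ | ⟨v, hv, a, rfl⟩)
    · exact h1 u v hu hv huv h r hr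
    · exact h2 v hv a)

theorem Qs.lift_pi {S : Set V} {H : Type} [Group H] (φ : CoprodI G →* H)
    (h1 : ∀ u v, u ∈ S → v ∈ S → u < v → Γ.Adj u v → ∀ r ∈ R u v, φ (two G u v r) = 1)
    (h2 : ∀ v, v ∉ S → ∀ a : G v, φ (CoprodI.of a) = 1) (x : CoprodI G) :
    Qs.lift φ h1 h2 (pi S x) = φ x := rfl

theorem Qs.hom_ext {S : Set V} {H : Type} [Group H] {f g : Qs Γ R S →* H}
    (h : ∀ v ∈ S, ∀ a : G v, f (pi S (CoprodI.of a)) = g (pi S (CoprodI.of a))) : f = g := by
  have h1 : f.comp (pi S) = g.comp (pi S) := by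
    apply CoprodI.ext_hom
    intro v
    ext a
    by_cases hv : v ∈ S
    · exact h v hv a
    · show f (pi S (CoprodI.of a)) = g (pi S (CoprodI.of a))
      rw [pi_out hv, map_one, map_one]
  ext x
  obtain ⟨x, rfl⟩ := pi_surj S x
  exact DFunLike.congr_fun h1 x

omit [LinearOrder V] in
theorem two_ext {H : Type} [Group H] {u v : V} {f : CoprodI G →* H}
    {g : CoprodI G →* H} (h1 : ∀ a : G u, f (CoprodI.of a) = g (CoprodI.of a))
    (h2 : ∀ a : G v, f (CoprodI.of a) = g (CoprodI.of a)) (r : Monoid.Coprod (G u) (G v)) :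
    f (two G u v r) = g (two G u v r) := by
  have h : f.comp (two G u v) = g.comp (two G u v) := by
    apply Monoid.Coprod.hom_ext
    · ext a
      show f (two G u v (Monoid.Coprod.inl a)) = g (two G u v (Monoid.Coprod.inl a))
      rw [two, Monoid.Coprod.lift_apply_inl]
      exact h1 a
    · ext a
      show f (two G u v (Monoid.Coprod.inr a)) = g (two G u v (Monoid.Coprod.inr a))
      rw [two, Monoid.Coprod.lift_apply_inr]
      exact h2 a
  exact DFunLike.congr_fun h r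

/-- the homomorphism to the group of a larger set -/
noncomputable def tr {S T : Set V} (h : S ⊆ T) : Qs Γ R S →* Qs Γ R T :=
  Qs.lift ((pi T).comp (kill G S))
    (fun u v hu hv huv hadj r hr => by
      rw [two_ext (g := pi T) (fun a => ?_) (fun a => ?_) r]
      · exact pi_rel (h hu) (h hv) huv hadj hr
      · rw [MonoidHom.comp_apply, kill_of hu]
      · rw [MonoidHom.comp_apply, kill_of hv])
    (fun v hv a => by rw [MonoidHom.comp_apply, kill_of' hv, map_one])

theorem tr_of {S T : Set V} (h : S ⊆ T) {v : V} (hv : v ∈ S) (a : G v) :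
    tr (Γ := Γ) (R := R) h (pi S (CoprodI.of a)) = pi T (CoprodI.of a) := by
  rw [tr, Qs.lift_pi, MonoidHom.comp_apply, kill_of hv]

theorem tr_tr {S T U : Set V} (h : S ⊆ T) (h' : T ⊆ U) (x : Qs Γ R S) :
    tr h' (tr h x) = tr (h.trans h') x := by
  have h1 : (tr (Γ := Γ) (R := R) h').comp (tr h) = tr (h.trans h') := by
    apply Qs.hom_ext
    intro v hv a
    rw [MonoidHom.comp_apply, tr_of h hv, tr_of h' (h hv), tr_of (h.trans h') hv]
  exact DFunLike.congr_fun h1 x

theorem tr_self {S : Set V} (h : S ⊆ S) (x : Qs Γ R S) : tr h x = x := by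
  have h1 : tr (Γ := Γ) (R := R) h = MonoidHom.id _ := by
    apply Qs.hom_ext
    intro v hv a
    rw [tr_of h hv, MonoidHom.id_apply]
  exact DFunLike.congr_fun h1 x

/-- the retraction to the group of a smaller set which is closed downwards -/
noncomputable def rt (hfst : ∀ u v, u < v → Γ.Adj u v → ∀ r ∈ R u v, Monoid.Coprod.fst r = 1)
    {S T : Set V} (h : S ⊆ T) (hd : ∀ u v, u ∈ T → v ∈ T → u < v → Γ.Adj u v → v ∈ S → u ∈ S) :
    Qs Γ R T →* Qs Γ R S :=
  Qs.lift (pi S)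
    (fun u v hu hv huv hadj r hr => by
      by_cases hvS : v ∈ S
      · exact pi_rel (hd u v hu hv huv hadj hvS) hvS huv hadj hr
      · have h1 : (pi (Γ := Γ) (R := R) S).comp (two G u v) =
            ((pi S).comp CoprodI.of).comp Monoid.Coprod.fst := by
          apply Monoid.Coprod.hom_ext
          · ext a
            show pi S (two G u v (Monoid.Coprod.inl a)) =
              pi S (CoprodI.of (Monoid.Coprod.fst (Monoid.Coprod.inl a)))
            rw [two, Monoid.Coprod.lift_apply_inl, Monoid.Coprod.fst_apply_inl]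
          · ext a
            show pi S (two G u v (Monoid.Coprod.inr a)) =
              pi S (CoprodI.of (Monoid.Coprod.fst (Monoid.Coprod.inr a)))
            rw [two, Monoid.Coprod.lift_apply_inr, Monoid.Coprod.fst_apply_inr, map_one, map_one]
            exact pi_out hvS a
        refine (DFunLike.congr_fun h1 r).trans ?_
        show pi S (CoprodI.of (Monoid.Coprod.fst r)) = 1
        rw [hfst u v huv hadj r hr, map_one, map_one])
    (fun _ hv a => pi_out (fun hvS => hv (h hvS)) a)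

theorem rt_pi (hfst : ∀ u v, u < v → Γ.Adj u v → ∀ r ∈ R u v, Monoid.Coprod.fst r = 1)
    {S T : Set V} (h : S ⊆ T) (hd : ∀ u v, u ∈ T → v ∈ T → u < v → Γ.Adj u v → v ∈ S → u ∈ S)
    (x : CoprodI G) : rt hfst h hd (pi T x) = pi S x := rfl

theorem rt_tr (hfst : ∀ u v, u < v → Γ.Adj u v → ∀ r ∈ R u v, Monoid.Coprod.fst r = 1)
    {S T : Set V} (h : S ⊆ T) (hd : ∀ u v, u ∈ T → v ∈ T → u < v → Γ.Adj u v → v ∈ S → u ∈ S)
    (x : Qs Γ R S) : rt hfst h hd (tr h x) = x := by
  have h1 : (rt hfst h hd).comp (tr h) = MonoidHom.id _ := by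
    apply Qs.hom_ext
    intro v hv a
    rw [MonoidHom.comp_apply, tr_of h hv, rt_pi, MonoidHom.id_apply]
  exact DFunLike.congr_fun h1 x

section amalgam

variable {S0 S1 S2 S : Set V} (h01 : S0 ⊆ S1) (h02 : S0 ⊆ S2)

/-- the homomorphisms of the amalgam -/
noncomputable def amF (v : V) :
    G v →* Am (tr (Γ := Γ) (R := R) h01) (tr (Γ := Γ) (R := R) h02) :=
  if v ∈ S1 then (Am.inl _ _).comp ((pi S1).comp CoprodI.of)
  else (Am.inr _ _).comp ((pi S2).comp CoprodI.of)

theorem amF_left {v : V} (hv : v ∈ S1) (a : G v) :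
    CoprodI.lift (amF (Γ := Γ) (R := R) h01 h02) (CoprodI.of a) =
      Am.inl _ _ (pi S1 (CoprodI.of a)) := by
  rw [CoprodI.lift_of, amF, if_pos hv]
  rfl

theorem amF_right (hcap : ∀ x ∈ S1, x ∈ S2 → x ∈ S0) {v : V} (hv : v ∈ S2) (a : G v) :
    CoprodI.lift (amF (Γ := Γ) (R := R) h01 h02) (CoprodI.of a) =
      Am.inr _ _ (pi S2 (CoprodI.of a)) := by
  by_cases h : v ∈ S1
  · rw [amF_left h01 h02 h]
    have h0 := hcap v h hv
    rw [← tr_of h01 h0, ← tr_of h02 h0]
    exact Am.glue _ _ _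
  · rw [CoprodI.lift_of, amF, if_neg h]
    rfl

/-- the homomorphism to the amalgamated product -/
noncomputable def toAm (hcup : ∀ x ∈ S, x ∈ S1 ∨ x ∈ S2) (hcap : ∀ x ∈ S1, x ∈ S2 → x ∈ S0)
    (h1 : S1 ⊆ S) (h2 : S2 ⊆ S)
    (hno : ∀ u ∈ S1, ∀ v ∈ S2, u ∉ S0 → v ∉ S0 → ¬ Γ.Adj u v) :
    Qs Γ R S →* Am (tr (Γ := Γ) (R := R) h01) (tr (Γ := Γ) (R := R) h02) :=
  Qs.lift (CoprodI.lift (amF h01 h02))
    (fun u v hu hv huv hadj r hr => by
      have hboth : (u ∈ S1 ∧ v ∈ S1) ∨ (u ∈ S2 ∧ v ∈ S2) := by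
        rcases hcup u hu with hu' | hu' <;> rcases hcup v hv with hv' | hv'
        · exact Or.inl ⟨hu', hv'⟩
        · by_cases h3 : u ∈ S0
          · exact Or.inr ⟨h02 h3, hv'⟩
          · by_cases h4 : v ∈ S0
            · exact Or.inl ⟨hu', h01 h4⟩
            · exact absurd hadj (hno u hu' v hv' h3 h4)
        · by_cases h3 : v ∈ S0
          · exact Or.inr ⟨hu', h02 h3⟩
          · by_cases h4 : u ∈ S0
            · exact Or.inl ⟨h01 h4, hv'⟩
            · exact absurd hadj.symm (hno v hv' u hu' h3 h4)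
        · exact Or.inr ⟨hu', hv'⟩
      rcases hboth with ⟨hu', hv'⟩ | ⟨hu', hv'⟩
      · rw [two_ext (g := (Am.inl _ _).comp (pi S1)) (fun a => amF_left h01 h02 hu' a)
          (fun a => amF_left h01 h02 hv' a) r, MonoidHom.comp_apply, pi_rel hu' hv' huv hadj hr,
          map_one]
      · rw [two_ext (g := (Am.inr _ _).comp (pi S2)) (fun a => amF_right h01 h02 hcap hu' a)
          (fun a => amF_right h01 h02 hcap hv' a) r, MonoidHom.comp_apply,
          pi_rel hu' hv' huv hadj hr, map_one])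
    (fun v hv a => by
      have h3 : v ∉ S1 := fun h => hv (h1 h)
      have h4 : v ∉ S2 := fun h => hv (h2 h)
      rw [CoprodI.lift_of, amF, if_neg h3]
      show Am.inr _ _ (pi S2 (CoprodI.of a)) = 1
      rw [pi_out h4, map_one])

variable (hcup : ∀ x ∈ S, x ∈ S1 ∨ x ∈ S2) (hcap : ∀ x ∈ S1, x ∈ S2 → x ∈ S0)
    (h1 : S1 ⊆ S) (h2 : S2 ⊆ S)
    (hno : ∀ u ∈ S1, ∀ v ∈ S2, u ∉ S0 → v ∉ S0 → ¬ Γ.Adj u v)

theorem toAm_left (x : Qs Γ R S1) :
    toAm (Γ := Γ) (R := R) h01 h02 hcup hcap h1 h2 hno (tr h1 x) = Am.inl _ _ x := by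
  have h : (toAm (Γ := Γ) (R := R) h01 h02 hcup hcap h1 h2 hno).comp (tr h1) = Am.inl _ _ := by
    apply Qs.hom_ext
    intro v hv a
    rw [MonoidHom.comp_apply, tr_of h1 hv, toAm, Qs.lift_pi]
    exact amF_left h01 h02 hv a
  exact DFunLike.congr_fun h x

theorem toAm_right (x : Qs Γ R S2) :
    toAm (Γ := Γ) (R := R) h01 h02 hcup hcap h1 h2 hno (tr h2 x) = Am.inr _ _ x := by
  have h : (toAm (Γ := Γ) (R := R) h01 h02 hcup hcap h1 h2 hno).comp (tr h2) = Am.inr _ _ := by
    apply Qs.hom_ext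
    intro v hv a
    rw [MonoidHom.comp_apply, tr_of h2 hv, toAm, Qs.lift_pi]
    exact amF_right h01 h02 hcap hv a
  exact DFunLike.congr_fun h x

theorem toAm_inj :
    Function.Injective (toAm (Γ := Γ) (R := R) h01 h02 hcup hcap h1 h2 hno) := by
  let F : Am (tr (Γ := Γ) (R := R) h01) (tr (Γ := Γ) (R := R) h02) →* Qs Γ R S :=
    Am.lift _ _ (tr h1) (tr h2) (fun c => by rw [tr_tr, tr_tr])
  have h : F.comp (toAm (Γ := Γ) (R := R) h01 h02 hcup hcap h1 h2 hno) = MonoidHom.id _ := by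
    apply Qs.hom_ext
    intro v hv a
    rw [MonoidHom.comp_apply, MonoidHom.id_apply]
    rcases hcup v hv with hv' | hv'
    · rw [← tr_of h1 hv', toAm_left]
      exact Am.lift_inl _ _ _ _ _ _
    · rw [← tr_of h2 hv', toAm_right]
      exact Am.lift_inr _ _ _ _ _ _
  intro x y hxy
  have hx := DFunLike.congr_fun h x
  have hy := DFunLike.congr_fun h y
  rw [MonoidHom.comp_apply, MonoidHom.id_apply] at hx hy
  rw [← hx, ← hy, hxy]

end amalgam

end

end Pool.Agent.U385.RT
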