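import Pool.Agent.U385.RT.One

/-!
# Subgroups generated by independent sets
-/

set_option autoImplicit false

namespace Pool.Agent.U385.RT

open SimpleGraph
open Pool.Agent.Y110.FJ
open Pool.Agent.Y462.PA (Am)
open Pool.Agent.R941.FJ (C_equiv C_le C_cyc mem_sup_normal)
open Monoid (CoprodI)
open scoped Classical

section

variable {V : Type} [LinearOrder V] {Γ : SimpleGraph V} {G : V → Type} [∀ v, Group (G v)]
  {R : ∀ u v, Set (Monoid.Coprod (G u) (G v))}

theorem rt_tr_comm (hfst : ∀ u v, u < v → Γ.Adj u v → ∀ r ∈ R u v, Monoid.Coprod.fst r = 1)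
    {S T S' T' : Set V} (h : S ⊆ T) (h' : S' ⊆ T') (hS : S' ⊆ S) (hT : T' ⊆ T)
    (hd : ∀ u v, u ∈ T → v ∈ T → u < v → Γ.Adj u v → v ∈ T' → u ∈ T')
    (hd' : ∀ u v, u ∈ S → v ∈ S → u < v → Γ.Adj u v → v ∈ S' → u ∈ S')
    (hST : ∀ v ∈ S, v ∈ T' → v ∈ S') (x : Qs Γ R S) :
    rt hfst hT hd (tr h x) = tr h' (rt hfst hS hd' x) := by
  have h1 : (rt hfst hT hd).comp (tr h) = (tr h').comp (rt hfst hS hd') := by
    apply Qs.hom_ext
    intro v hv a
    rw [MonoidHom.comp_apply, MonoidHom.comp_apply, tr_of h hv, rt_pi, rt_pi]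
    by_cases hv' : v ∈ S'
    · rw [tr_of h' hv']
    · rw [pi_out hv', pi_out (fun h => hv' (hST v hv h)), map_one]
  exact DFunLike.congr_fun h1 x

theorem empty_eq {S : Set V} (hS : ¬ S.Nonempty) (x : Qs Γ R S) : x = 1 := by
  have h1 : MonoidHom.id (Qs Γ R S) = 1 := by
    apply Qs.hom_ext
    intro v hv
    exact absurd ⟨v, hv⟩ hS
  exact DFunLike.congr_fun h1 x

theorem disj (hfst : ∀ u v, u < v → Γ.Adj u v → ∀ r ∈ R u v, Monoid.Coprod.fst r = 1) (n : ℕ) :
    ∀ S : Set V, S.Finite → S.ncard = n → ∀ (S1 S2 : Set V) (h1 : S1 ⊆ S) (h2 : S2 ⊆ S),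
      (∀ x ∈ S1, x ∉ S2) → ∀ (x : Qs Γ R S1) (y : Qs Γ R S2), tr h1 x = tr h2 y →
        tr h1 x = 1 := by
  induction n using Nat.strong_induction_on with
  | _ n ih =>
    intro S hfin hn S1 S2 h1 h2 hdis x y hxy
    by_cases hne : S.Nonempty
    · obtain ⟨b, hb, hmax⟩ := Set.exists_max_image S id hfin hne
      simp only [id] at hmax
      have hlt : (S \ {b}).ncard < n := hn ▸ Set.ncard_sdiff_singleton_lt_of_mem hb hfin
      have hd : ∀ T : Set V, T ⊆ S → ∀ u v, u ∈ T → v ∈ T → u < v → Γ.Adj u v →
          v ∈ T \ {b} → u ∈ T \ {b} := by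
        intro T hT u v hu hv huv _ _
        exact ⟨hu, fun h => absurd (hmax v (hT hv)) (not_le.2 (h ▸ huv))⟩
      have hsub : ∀ T : Set V, T \ {b} ⊆ T := fun T => Set.sdiff_subset
      have key : ∀ (T1 T2 : Set V) (k1 : T1 ⊆ S) (k2 : T2 ⊆ S), (∀ x ∈ T1, x ∉ T2) → b ∉ T2 →
          ∀ (x : Qs Γ R T1) (y : Qs Γ R T2), tr k1 x = tr k2 y → tr k2 y = 1 := by
        intro T1 T2 k1 k2 kdis hb2 x y hxy
        have k2' : T2 ⊆ S \ {b} := fun t ht => ⟨k2 ht, fun h => hb2 (h ▸ ht)⟩
        have k1' : T1 \ {b} ⊆ S \ {b} := fun t ht => ⟨k1 ht.1, ht.2⟩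
        have e1 : rt hfst (hsub S) (hd S subset_rfl) (tr k2 y) = tr k2' y := by
          rw [← tr_tr k2' (hsub S), rt_tr]
        have e2 : rt hfst (hsub S) (hd S subset_rfl) (tr k1 x) =
            tr k1' (rt hfst (hsub T1) (hd T1 k1) x) :=
          rt_tr_comm hfst k1 k1' (hsub T1) (hsub S) _ _ (fun v hv hv' => ⟨hv, hv'.2⟩) x
        have e3 : tr k1' (rt hfst (hsub T1) (hd T1 k1) x) = tr k2' y := by
          rw [← e2, hxy, e1]
        have e4 := ih _ hlt (S \ {b}) (hfin.subset (hsub S)) rfl (T1 \ {b}) T2 k1' k2'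
          (fun x hx => kdis x hx.1) _ y e3
        rw [← tr_tr k2' (hsub S), ← e3, e4, map_one]
      by_cases hb2 : b ∈ S2
      · have hb1 : b ∉ S1 := fun h => hdis b h hb2
        exact key S2 S1 h2 h1 (fun x hx hx' => hdis x hx' hx) hb1 y x hxy.symm
      · rw [hxy]
        exact key S1 S2 h1 h2 hdis hb2 x y hxy
    · exact empty_eq hne _

/-- the map of a vertex group is injective -/
def VInj (Γ : SimpleGraph V) (R : ∀ u v, Set (Monoid.Coprod (G u) (G v))) : Prop :=
  ∀ (b : V) (T : Set V), (∀ v ∈ T, v ≠ b → v < b) → (∀ u ∈ T, ∀ v ∈ T, u ≠ b → v ≠ b → ¬ Γ.Adj u v) →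
    b ∈ T → ∀ a : G b, pi (Γ := Γ) (R := R) T (CoprodI.of a) = 1 → a = 1

theorem indep_inj (hfst : ∀ u v, u < v → Γ.Adj u v → ∀ r ∈ R u v, Monoid.Coprod.fst r = 1)
    (htri : ∀ u v w, Γ.Adj u v → Γ.Adj v w → ¬ Γ.Adj u w) (hV : VInj Γ R) (n : ℕ) :
    ∀ S : Set V, S.Finite → S.ncard = n → ∀ (D : Set V) (h : D ⊆ S),
      (∀ u ∈ D, ∀ v ∈ D, ¬ Γ.Adj u v) → Function.Injective (tr (Γ := Γ) (R := R) h) := by
  induction n using Nat.strong_induction_on with
  | _ n ih =>
    intro S hfin hn D h hD
    by_cases hne : S.Nonempty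
    swap
    · intro x y _
      rw [empty_eq (fun hne' => hne (hne'.mono h)) x, empty_eq (fun hne' => hne (hne'.mono h)) y]
    obtain ⟨b, hb, hmax⟩ := Set.exists_max_image S id hfin hne
    simp only [id] at hmax
    have hlt : (S \ {b}).ncard < n := hn ▸ Set.ncard_sdiff_singleton_lt_of_mem hb hfin
    have hsub : S \ {b} ⊆ S := Set.sdiff_subset
    have hd : ∀ u v, u ∈ S → v ∈ S → u < v → Γ.Adj u v → v ∈ S \ {b} → u ∈ S \ {b} := by
      intro u v hu hv huv _ _
      exact ⟨hu, fun h => absurd (hmax v hv) (not_le.2 (h ▸ huv))⟩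
    by_cases hbD : b ∈ D
    · -- the decomposition at `b`
      let K : Set V := {u | u ∈ S ∧ Γ.Adj u b}
      have hKb : b ∉ K := fun h => Γ.loopless.irrefl b h.2
      have h01 : K ⊆ insert b K := Set.subset_insert b K
      have h02 : K ⊆ S \ {b} := fun u hu => ⟨hu.1, fun h => hKb (h ▸ hu)⟩
      have hlow : ∀ u ∈ insert b K, u ≠ b → u < b := by
        intro u hu hub
        rcases hu with rfl | hu
        · exact absurd rfl hub
        · exact lt_of_le_of_ne (hmax u hu.1) hub
      have hind : ∀ u ∈ insert b K, ∀ v ∈ insert b K, u ≠ b → v ≠ b → ¬ Γ.Adj u v := by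
        intro u hu v hv hub hvb huv
        rcases hu with hu | hu
        · exact hub hu
        rcases hv with hv | hv
        · exact hvb hv
        exact htri u v b huv hv.2 hu.2
      have hdK : ∀ u v, u ∈ insert b K → v ∈ insert b K → u < v → Γ.Adj u v → v ∈ K → u ∈ K := by
        intro u v hu _ huv _ hvK
        rcases hu with rfl | hu
        · exact absurd (hmax v hvK.1) (not_le.2 huv)
        · exact hu
      have hα : Function.Injective (tr (Γ := Γ) (R := R) h01) :=
        Function.LeftInverse.injective (rt_tr hfst h01 hdK)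
      have hβ : Function.Injective (tr (Γ := Γ) (R := R) h02) :=
        ih _ hlt (S \ {b}) (hfin.subset hsub) rfl K h02 fun u hu v hv huv =>
          htri u v b huv hv.2 hu.2
      have hD' : D \ {b} ⊆ S \ {b} := fun u hu => ⟨h hu.1, hu.2⟩
      have hy : Function.Injective (tr (Γ := Γ) (R := R) hD') :=
        ih _ hlt (S \ {b}) (hfin.subset hsub) rfl (D \ {b}) hD' fun u hu v hv =>
          hD u hu.1 v hv.1
      have hx : Function.Injective ((pi (Γ := Γ) (R := R) (insert b K)).comp
          (CoprodI.of : G b →* CoprodI G)) := by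
        rw [injective_iff_map_eq_one]
        exact fun a ha => hV b _ hlow hind (Set.mem_insert b K) a ha
      have hfp := fp_inj hα hβ ((pi (insert b K)).comp CoprodI.of) (tr hD') hx hy
        (fun a k hk => by
          have h1 : pi (Γ := Γ) (R := R) (insert b K) (CoprodI.of a) = tr h01 k := hk
          have h2 := congrArg (rt hfst h01 hdK) h1
          rw [rt_pi, rt_tr, pi_out hKb] at h2
          rw [← h2, map_one] at h1
          exact hV b _ hlow hind (Set.mem_insert b K) a h1)
        (fun z k hk => by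
          have h1 := disj hfst _ (S \ {b}) (hfin.subset hsub) rfl (D \ {b}) K hD' h02
            (fun x hx hx' => hD x hx.1 b hbD hx'.2) z k hk
          exact hy (h1.trans (map_one _).symm))
      -- the free product
      let φ : ∀ v, G v →* Monoid.Coprod (G b) (Qs Γ R (D \ {b})) := fun v =>
        if v = b then Monoid.Coprod.inl.comp (prV b v)
        else Monoid.Coprod.inr.comp ((pi (D \ {b})).comp CoprodI.of)
      have hφb : ∀ a : G b, CoprodI.lift φ (CoprodI.of a) = Monoid.Coprod.inl a := by
        intro a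
        rw [CoprodI.lift_of]
        show (if b = b then Monoid.Coprod.inl.comp (prV b b)
          else Monoid.Coprod.inr.comp ((pi (D \ {b})).comp CoprodI.of)) a = _
        rw [if_pos rfl, prV_v]
        rfl
      have hφv : ∀ v, v ≠ b → ∀ a : G v, CoprodI.lift φ (CoprodI.of a) =
          Monoid.Coprod.inr (pi (D \ {b}) (CoprodI.of a)) := by
        intro v hv a
        rw [CoprodI.lift_of]
        show (if v = b then Monoid.Coprod.inl.comp (prV b v)
          else Monoid.Coprod.inr.comp ((pi (D \ {b})).comp CoprodI.of)) a = _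
        rw [if_neg hv]
        rfl
      let lam : Qs Γ R D →* Monoid.Coprod (G b) (Qs Γ R (D \ {b})) :=
        Qs.lift (CoprodI.lift φ) (fun u v hu hv _ huv => absurd huv (hD u hu v hv))
          (fun v hv a => by
            rw [hφv v (fun h => hv (h ▸ hbD)), pi_out (fun h => hv h.1), map_one])
      have hlam : Function.Injective lam := by
        let back : Monoid.Coprod (G b) (Qs Γ R (D \ {b})) →* Qs Γ R D :=
          Monoid.Coprod.lift ((pi D).comp CoprodI.of) (tr Set.sdiff_subset)
        have hback : ∀ x, back (lam x) = x := by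
          intro x
          have h1 : back.comp lam = MonoidHom.id _ := by
            apply Qs.hom_ext
            intro v hv a
            show back (lam (pi D (CoprodI.of a))) = pi D (CoprodI.of a)
            show back (CoprodI.lift φ (CoprodI.of a)) = pi D (CoprodI.of a)
            by_cases hvb : v = b
            · subst hvb
              rw [hφb]
              exact Monoid.Coprod.lift_apply_inl _ _ _
            · rw [hφv v hvb]
              have h2 : back (Monoid.Coprod.inr (pi (D \ {b}) (CoprodI.of a))) =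
                  tr Set.sdiff_subset (pi (D \ {b}) (CoprodI.of a)) :=
                Monoid.Coprod.lift_apply_inr _ _ _
              rw [h2, tr_of _ (show v ∈ D \ {b} from ⟨hv, hvb⟩)]
          exact DFunLike.congr_fun h1 x
        exact Function.LeftInverse.injective hback
      have hno : ∀ u ∈ insert b K, ∀ v ∈ S \ {b}, u ∉ K → v ∉ K → ¬ Γ.Adj u v := by
        intro u hu v hv huK hvK huv
        rcases hu with rfl | hu
        · exact hvK ⟨hv.1, huv.symm⟩
        · exact huK hu
      have hcup : ∀ x ∈ S, x ∈ insert b K ∨ x ∈ S \ {b} := by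
        intro x hx
        by_cases hxb : x = b
        · exact Or.inl (Or.inl hxb)
        · exact Or.inr ⟨hx, hxb⟩
      have hcap : ∀ x ∈ insert b K, x ∈ S \ {b} → x ∈ K := by
        intro x hx hx'
        rcases hx with hx | hx
        · exact absurd hx hx'.2
        · exact hx
      have hT : insert b K ⊆ S := by
        intro x hx
        rcases hx with rfl | hx
        · exact hb
        · exact hx.1
      let t := toAm (Γ := Γ) (R := R) h01 h02 hcup hcap hT hsub hno
      have ht : ∀ x, t (tr h x) = Monoid.Coprod.lift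
          ((Am.inl (tr (Γ := Γ) (R := R) h01) (tr h02)).comp ((pi (insert b K)).comp CoprodI.of))
          ((Am.inr (tr (Γ := Γ) (R := R) h01) (tr h02)).comp (tr hD')) (lam x) := by
        intro x
        have h1 : t.comp (tr h) = (Monoid.Coprod.lift
          ((Am.inl (tr (Γ := Γ) (R := R) h01) (tr h02)).comp ((pi (insert b K)).comp CoprodI.of))
          ((Am.inr (tr (Γ := Γ) (R := R) h01) (tr h02)).comp (tr hD'))).comp lam := by
          apply Qs.hom_ext
          intro v hv a
          rw [MonoidHom.comp_apply, MonoidHom.comp_apply, tr_of h hv]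
          have h2 : lam (pi D (CoprodI.of a)) = CoprodI.lift φ (CoprodI.of a) := rfl
          rw [h2]
          by_cases hvb : v = b
          · subst hvb
            rw [hφb, Monoid.Coprod.lift_apply_inl]
            have h3 : pi (Γ := Γ) (R := R) S (CoprodI.of a) =
                tr hT (pi (insert v K) (CoprodI.of a)) :=
              (tr_of hT (Set.mem_insert v K) a).symm
            rw [h3]
            exact toAm_left h01 h02 hcup hcap hT hsub hno _
          · rw [hφv v hvb, Monoid.Coprod.lift_apply_inr]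
            have h3 : pi (Γ := Γ) (R := R) S (CoprodI.of a) =
                tr hsub (pi (S \ {b}) (CoprodI.of a)) :=
              (tr_of hsub ⟨h hv, hvb⟩ a).symm
            have h4 : tr hD' (pi (Γ := Γ) (R := R) (D \ {b}) (CoprodI.of a)) =
                pi (S \ {b}) (CoprodI.of a) := tr_of hD' ⟨hv, hvb⟩ a
            rw [h3, MonoidHom.comp_apply, h4]
            exact toAm_right h01 h02 hcup hcap hT hsub hno _
        exact DFunLike.congr_fun h1 x
      intro x y hxy
      apply hlam
      apply hfp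
      rw [← ht, ← ht, hxy]
    · have h' : D ⊆ S \ {b} := fun u hu => ⟨h hu, fun hub => hbD (hub ▸ hu)⟩
      intro x y hxy
      rw [← tr_tr h' hsub, ← tr_tr h' hsub] at hxy
      have h1 := congrArg (rt hfst hsub hd) hxy
      rw [rt_tr, rt_tr] at h1
      exact ih _ hlt (S \ {b}) (hfin.subset hsub) rfl D h' hD h1

end

end Pool.Agent.U385.RT
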