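import Pool.Agent.U385.RT.One2

/-!
# One-sided relations: the closure properties
-/

set_option autoImplicit false

namespace Pool.Agent.U385.RT

open SimpleGraph
open Pool.Agent.Y110.FJ
open Pool.Agent.Y462.PA (Am)
open Pool.Agent.R941.FJ (C_equiv C_le C_cyc mem_sup_normal)
open Monoid (CoprodI)
open scoped Classical

variable {C : ∀ (G : Type) [Group G], Prop}

theorem C_Am' (hC : ClosedE C) {K A B : Type} [Group K] [Group A] [Group B] {α : K →* A}
    {β : K →* B} (hα : Function.Injective α) (hβ : Function.Injective β) (hA : C A)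
    (hB : C B) {P : Type} [Group P] (f : Am α β →* P) (hP : C P)
    (hf : ∀ k, f (Am.inl α β (α k)) = 1 → k = 1) : C (Am α β) := by
  obtain ⟨hl, hr⟩ := Pool.Agent.Y419.PA.t_aminj K A B α β hα hβ
  refine am_edge hC _ _ (am_isAmalgam α β) (C_equiv hC.base (MonoidHom.ofInjective hl).symm hA)
    (C_equiv hC.base (MonoidHom.ofInjective hr).symm hB) f hP ?_
  rintro _ ⟨a, rfl⟩ ⟨b, hb⟩ h1
  obtain ⟨k, rfl, -⟩ := am_inter hα hβ a b hb.symm
  rw [hf k h1, map_one, map_one]

section

variable {V : Type} [LinearOrder V] {Γ : SimpleGraph V} {G : V → Type} [∀ v, Group (G v)]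
  {R : ∀ u v, Set (Monoid.Coprod (G u) (G v))}

/-- the homomorphism of the group of a star -/
noncomputable def psi {P : Type} [Group P] (Φ : CoprodI G →* P) (b : V)
    (hrel : ∀ u, u < b → Γ.Adj u b → ∀ r ∈ R u b, Φ (two G u b r) = 1) {T : Set V}
    (hlow : ∀ v ∈ T, v ≠ b → v < b)
    (hind : ∀ u ∈ T, ∀ v ∈ T, u ≠ b → v ≠ b → ¬ Γ.Adj u v) : Qs Γ R T →* P :=
  Qs.lift (Φ.comp (kill G T))
    (fun u v hu hv huv hadj r hr => by
      rw [two_ext (g := Φ) (fun a => ?_) (fun a => ?_) r]
      · by_cases hvb : v = b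
        · subst hvb
          exact hrel u huv hadj r hr
        · by_cases hub : u = b
          · subst hub
            exact absurd huv (lt_asymm (hlow v hv hvb))
          · exact absurd hadj (hind u hu v hv hub hvb)
      · rw [MonoidHom.comp_apply, kill_of hu]
      · rw [MonoidHom.comp_apply, kill_of hv])
    (fun v hv a => by rw [MonoidHom.comp_apply, kill_of' hv, map_one])

theorem psi_of {P : Type} [Group P] (Φ : CoprodI G →* P) (b : V)
    (hrel : ∀ u, u < b → Γ.Adj u b → ∀ r ∈ R u b, Φ (two G u b r) = 1) {T : Set V}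
    (hlow : ∀ v ∈ T, v ≠ b → v < b)
    (hind : ∀ u ∈ T, ∀ v ∈ T, u ≠ b → v ≠ b → ¬ Γ.Adj u v) {v : V} (hv : v ∈ T) (a : G v) :
    psi Φ b hrel hlow hind (pi T (CoprodI.of a)) = Φ (CoprodI.of a) := by
  rw [psi, Qs.lift_pi, MonoidHom.comp_apply, kill_of hv]

/-- the group of one vertex -/
theorem single (b : V) {T : Set V} (hT : ∀ v ∈ T, v = b) : ∃ f : Qs Γ R T →* G b,
    Function.Injective f ∧ ∀ x : Qs Γ R T, x = pi T (CoprodI.of (f x)) := by
  let f : Qs Γ R T →* G b := Qs.lift ((CoprodI.lift (prV (G := G) b)).comp (kill G T))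
    (fun u v hu hv huv _ r _ => absurd huv (by rw [hT u hu, hT v hv]; exact lt_irrefl b))
    (fun v hv a => by rw [MonoidHom.comp_apply, kill_of' hv, map_one])
  have h1 : ∀ x : Qs Γ R T, pi T (CoprodI.of (f x)) = x := by
    intro x
    have h2 : ((pi T).comp CoprodI.of).comp f = MonoidHom.id (Qs Γ R T) := by
      apply Qs.hom_ext
      intro v hv a
      obtain rfl := hT v hv
      have h3 : f (pi T (CoprodI.of a)) = a := by
        show CoprodI.lift (prV (G := G) v) (kill G T (CoprodI.of a)) = a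
        rw [kill_of hv, CoprodI.lift_of, prV_v]
        rfl
      show pi T (CoprodI.of (f (pi T (CoprodI.of a)))) = pi T (CoprodI.of a)
      rw [h3]
    exact DFunLike.congr_fun h2 x
  refine ⟨f, ?_, fun x => (h1 x).symm⟩
  intro x y hxy
  rw [← h1 x, ← h1 y, hxy]

theorem C_star (hC : ClosedE C) (b : V) {P : Type} [Group P] (hP : C P) (Φ : CoprodI G →* P)
    (hΦ : ∀ a : G b, Φ (CoprodI.of a) = 1 → a = 1)
    (hrel : ∀ u, u < b → Γ.Adj u b → ∀ r ∈ R u b, Φ (two G u b r) = 1)
    (hedge : ∀ u, u < b → Γ.Adj u b → C (Qs Γ R {u, b})) (n : ℕ) :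
    ∀ K : Set V, K.Finite → K.ncard = n → (∀ u ∈ K, u < b ∧ Γ.Adj u b) →
      (∀ u ∈ K, ∀ v ∈ K, ¬ Γ.Adj u v) → C (Qs Γ R (insert b K)) := by
  induction n with
  | zero =>
    intro K hfin hn _ _
    obtain ⟨f, hf, -⟩ := single (Γ := Γ) (R := R) b (T := insert b K) (by
      intro v hv
      rcases hv with rfl | hv
      · rfl
      · rw [Set.ncard_eq_zero hfin] at hn
        rw [hn] at hv
        exact absurd hv (Set.notMem_empty v))
    refine hC.base.of_injective _ _ (((Φ.comp CoprodI.of) : G b →* P).comp f) ?_ hP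
    have h1 : Function.Injective (Φ.comp CoprodI.of : G b →* P) := by
      rw [injective_iff_map_eq_one]
      exact hΦ
    exact h1.comp hf
  | succ n ih =>
    intro K hfin hn hlowK hindK
    obtain ⟨u, hu⟩ : K.Nonempty := by
      rw [Set.nonempty_iff_ne_empty]
      rintro rfl
      simp at hn
    have hub := (hlowK u hu).1
    have hlow : ∀ T : Set V, T ⊆ insert b K → ∀ v ∈ T, v ≠ b → v < b := by
      intro T hT v hv hvb
      rcases hT hv with rfl | h
      · exact absurd rfl hvb
      · exact (hlowK v h).1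
    have hind : ∀ T : Set V, T ⊆ insert b K → ∀ x ∈ T, ∀ y ∈ T, x ≠ b → y ≠ b →
        ¬ Γ.Adj x y := by
      intro T hT x hx y hy hxb hyb
      rcases hT hx with rfl | h
      · exact absurd rfl hxb
      rcases hT hy with rfl | h'
      · exact absurd rfl hyb
      exact hindK x h y h'
    have hT1 : insert b (K \ {u}) ⊆ insert b K := Set.insert_subset_insert Set.sdiff_subset
    have hT2 : ({u, b} : Set V) ⊆ insert b K := by
      rintro x (rfl | rfl)
      · exact Or.inr hu
      · exact Or.inl rfl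
    have hT0 : ({b} : Set V) ⊆ insert b K := by
      rintro x rfl
      exact Or.inl rfl
    have h01 : ({b} : Set V) ⊆ insert b (K \ {u}) := by
      rintro x rfl
      exact Or.inl rfl
    have h02 : ({b} : Set V) ⊆ {u, b} := by
      rintro x rfl
      exact Or.inr rfl
    have hC1 : C (Qs Γ R (insert b (K \ {u}))) := by
      refine ih (K \ {u}) (hfin.subset Set.sdiff_subset) ?_ (fun v hv => hlowK v hv.1)
        (fun x hx y hy => hindK x hx.1 y hy.1)
      rw [Set.ncard_sdiff_singleton_of_mem hu, hn]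
      rfl
    have hC2 : C (Qs Γ R {u, b}) := hedge u hub (hlowK u hu).2
    obtain ⟨f0, hf0, hf0'⟩ := single (Γ := Γ) (R := R) b (T := {b}) (fun v hv => hv)
    have hpsi : ∀ {T : Set V} (hT : T ⊆ insert b K) (h : ({b} : Set V) ⊆ T) (x : Qs Γ R {b}),
        psi Φ b hrel (hlow T hT) (hind T hT) (tr h x) = 1 → x = 1 := by
      intro T hT h x hx
      rw [hf0' x, tr_of h rfl, psi_of Φ b hrel _ _ (h rfl)] at hx
      rw [hf0' x, hΦ _ hx, map_one, map_one]
    have hα : Function.Injective (tr (Γ := Γ) (R := R) h01) := by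
      rw [injective_iff_map_eq_one]
      intro x hx
      exact hpsi hT1 h01 x (by rw [hx, map_one])
    have hβ : Function.Injective (tr (Γ := Γ) (R := R) h02) := by
      rw [injective_iff_map_eq_one]
      intro x hx
      exact hpsi hT2 h02 x (by rw [hx, map_one])
    have hcup : ∀ x ∈ insert b K, x ∈ insert b (K \ {u}) ∨ x ∈ ({u, b} : Set V) := by
      intro x hx
      rcases hx with rfl | hx
      · exact Or.inl (Or.inl rfl)
      · by_cases hxu : x = u
        · exact Or.inr (Or.inl hxu)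
        · exact Or.inl (Or.inr ⟨hx, hxu⟩)
    have hcap : ∀ x ∈ insert b (K \ {u}), x ∈ ({u, b} : Set V) → x ∈ ({b} : Set V) := by
      intro x hx hx'
      rcases hx' with h | h
      · rcases hx with hx | hx
        · exact hx
        · exact absurd h hx.2
      · exact h
    have hno : ∀ x ∈ insert b (K \ {u}), ∀ y ∈ ({u, b} : Set V), x ∉ ({b} : Set V) →
        y ∉ ({b} : Set V) → ¬ Γ.Adj x y := by
      intro x hx y hy hxb hyb
      exact hind (insert b K) subset_rfl x (hT1 hx) y (hT2 hy) hxb hyb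
    have e1 : ∀ c, psi Φ b hrel (hlow _ hT1) (hind _ hT1) (tr h01 c) =
        psi Φ b hrel (hlow _ hT2) (hind _ hT2) (tr h02 c) := by
      intro c
      rw [hf0' c, tr_of h01 rfl, tr_of h02 rfl, psi_of Φ b hrel _ _ (h01 rfl),
        psi_of Φ b hrel _ _ (h02 rfl)]
    refine hC.base.of_injective _ _ (toAm h01 h02 hcup hcap hT1 hT2 hno) (toAm_inj ..) ?_
    refine C_Am' hC hα hβ hC1 hC2 (Am.lift _ _ (psi Φ b hrel (hlow _ hT1) (hind _ hT1))
      (psi Φ b hrel (hlow _ hT2) (hind _ hT2)) e1) hP ?_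
    intro k hk
    rw [Am.lift_inl] at hk
    exact hpsi hT1 h01 k hk

/-- the conditions on the relations -/
structure OneSided (C : ∀ (G : Type) [Group G], Prop) (Γ : SimpleGraph V)
    (R : ∀ u v, Set (Monoid.Coprod (G u) (G v))) : Prop where
  tri : ∀ u v w, Γ.Adj u v → Γ.Adj v w → ¬ Γ.Adj u w
  fst : ∀ u v, u < v → Γ.Adj u v → ∀ r ∈ R u v, Monoid.Coprod.fst r = 1
  loc : ∀ v, ∃ (P : Type) (_ : Group P) (j : G v →* P), C P ∧ Function.Injective j ∧
    ∀ u, u < v → Γ.Adj u v → ∃ θ : G u →* P, ∀ r ∈ R u v, Monoid.Coprod.lift θ j r = 1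
  edge : ∀ u v, u < v → Γ.Adj u v →
    C (Monoid.Coprod (G u) (G v) ⧸ Subgroup.normalClosure (R u v))

theorem OneSided.hom (h : OneSided C Γ R) (b : V) : ∃ (P : Type) (_ : Group P)
    (Φ : CoprodI G →* P), C P ∧ (∀ a : G b, Φ (CoprodI.of a) = 1 → a = 1) ∧
      ∀ u, u < b → Γ.Adj u b → ∀ r ∈ R u b, Φ (two G u b r) = 1 := by
  obtain ⟨P, hPg, j, hP, hj, hθ⟩ := h.loc b
  choose! θ hθ using hθ
  let φ : ∀ v, G v →* P := fun v =>
    if v = b then j.comp (prV b v) else if h : v < b ∧ Γ.Adj v b then θ v else 1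
  have hφb : ∀ a : G b, CoprodI.lift φ (CoprodI.of a) = j a := by
    intro a
    rw [CoprodI.lift_of]
    show (if b = b then j.comp (prV b b) else if h : b < b ∧ Γ.Adj b b then θ b else 1) a = _
    rw [if_pos rfl, prV_v]
    rfl
  have hφu : ∀ u, u < b → Γ.Adj u b → ∀ a : G u, CoprodI.lift φ (CoprodI.of a) = θ u a := by
    intro u hub hadj a
    rw [CoprodI.lift_of]
    show (if u = b then j.comp (prV b u) else if h : u < b ∧ Γ.Adj u b then θ u else 1) a = _
    rw [if_neg hub.ne, dif_pos ⟨hub, hadj⟩]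
  refine ⟨P, hPg, CoprodI.lift φ, hP, fun a ha => ?_, fun u hub hadj r hr => ?_⟩
  · rw [hφb] at ha
    exact (injective_iff_map_eq_one j).1 hj a ha
  · have h1 : (CoprodI.lift φ).comp (two G u b) = Monoid.Coprod.lift (θ u) j := by
      apply Monoid.Coprod.hom_ext
      · ext a
        show CoprodI.lift φ (two G u b (Monoid.Coprod.inl a)) =
          Monoid.Coprod.lift (θ u) j (Monoid.Coprod.inl a)
        rw [two, Monoid.Coprod.lift_apply_inl, Monoid.Coprod.lift_apply_inl]
        exact hφu u hub hadj a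
      · ext a
        show CoprodI.lift φ (two G u b (Monoid.Coprod.inr a)) =
          Monoid.Coprod.lift (θ u) j (Monoid.Coprod.inr a)
        rw [two, Monoid.Coprod.lift_apply_inr, Monoid.Coprod.lift_apply_inr]
        exact hφb a
    exact (DFunLike.congr_fun h1 r).trans (hθ u hub hadj r hr)

theorem OneSided.C_edge (hC : ClosedE C) (h : OneSided C Γ R) {u v : V} (huv : u < v)
    (hadj : Γ.Adj u v) : C (Qs Γ R {u, v}) := by
  let E := Monoid.Coprod (G u) (G v) ⧸ Subgroup.normalClosure (R u v)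
  let q : Monoid.Coprod (G u) (G v) →* E := QuotientGroup.mk' _
  let φ : ∀ x, G x →* E := fun x => if x = u then (q.comp Monoid.Coprod.inl).comp (prV u x)
    else if x = v then (q.comp Monoid.Coprod.inr).comp (prV v x) else 1
  have hφu : ∀ a : G u, CoprodI.lift φ (CoprodI.of a) = q (Monoid.Coprod.inl a) := by
    intro a
    rw [CoprodI.lift_of]
    show (if u = u then (q.comp Monoid.Coprod.inl).comp (prV u u)
      else if u = v then (q.comp Monoid.Coprod.inr).comp (prV v u) else 1) a = _
    rw [if_pos rfl, prV_v]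
    rfl
  have hφv : ∀ a : G v, CoprodI.lift φ (CoprodI.of a) = q (Monoid.Coprod.inr a) := by
    intro a
    rw [CoprodI.lift_of]
    show (if v = u then (q.comp Monoid.Coprod.inl).comp (prV u v)
      else if v = v then (q.comp Monoid.Coprod.inr).comp (prV v v) else 1) a = _
    rw [if_neg huv.ne', if_pos rfl, prV_v]
    rfl
  have hφx : ∀ x, x ∉ ({u, v} : Set V) → ∀ a : G x, CoprodI.lift φ (CoprodI.of a) = 1 := by
    intro x hx a
    rw [CoprodI.lift_of]
    show (if x = u then (q.comp Monoid.Coprod.inl).comp (prV u x)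
      else if x = v then (q.comp Monoid.Coprod.inr).comp (prV v x) else 1) a = _
    have h1 : x ≠ u := fun h => hx (Or.inl h)
    have h2 : x ≠ v := fun h => hx (Or.inr h)
    rw [if_neg h1, if_neg h2]
    rfl
  have htwo : ∀ r, CoprodI.lift φ (two G u v r) = q r := by
    intro r
    have h1 : (CoprodI.lift φ).comp (two G u v) = q := by
      apply Monoid.Coprod.hom_ext
      · ext a
        show CoprodI.lift φ (two G u v (Monoid.Coprod.inl a)) = q (Monoid.Coprod.inl a)
        rw [two, Monoid.Coprod.lift_apply_inl, hφu]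
      · ext a
        show CoprodI.lift φ (two G u v (Monoid.Coprod.inr a)) = q (Monoid.Coprod.inr a)
        rw [two, Monoid.Coprod.lift_apply_inr, hφv]
    exact DFunLike.congr_fun h1 r
  let f : Qs Γ R {u, v} →* E := Qs.lift (CoprodI.lift φ)
    (fun x y hx hy hxy _ r hr => by
      obtain ⟨rfl, rfl⟩ : x = u ∧ y = v := by
        rcases hx with rfl | rfl <;> rcases hy with rfl | rfl
        · exact absurd hxy (lt_irrefl _)
        · exact ⟨rfl, rfl⟩
        · exact absurd hxy (lt_asymm huv)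
        · exact absurd hxy (lt_irrefl _)
      rw [htwo]
      exact (QuotientGroup.eq_one_iff _).2 (Subgroup.subset_normalClosure hr))
    (fun x hx a => hφx x hx a)
  let g : E →* Qs Γ R {u, v} := QuotientGroup.lift _ ((pi {u, v}).comp (two G u v)) (by
    apply Subgroup.normalClosure_le_normal
    intro r hr
    exact pi_rel (S := {u, v}) (Or.inl rfl) (Or.inr rfl) huv hadj hr)
  have hgq : ∀ r, g (q r) = pi {u, v} (two G u v r) := fun r => rfl
  have hgf : ∀ x, g (f x) = x := by
    intro x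
    have h1 : g.comp f = MonoidHom.id _ := by
      apply Qs.hom_ext
      intro y hy a
      show g (CoprodI.lift φ (CoprodI.of a)) = pi {u, v} (CoprodI.of a)
      rcases hy with rfl | rfl
      · rw [hφu, hgq, two, Monoid.Coprod.lift_apply_inl]
      · rw [hφv, hgq, two, Monoid.Coprod.lift_apply_inr]
    exact DFunLike.congr_fun h1 x
  exact hC.base.of_injective _ _ f (Function.LeftInverse.injective hgf) (h.edge u v huv hadj)

theorem OneSided.vinj (h : OneSided C Γ R) : VInj Γ R := by
  intro b T hlow hind hb a ha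
  obtain ⟨P, _, Φ, -, hΦ, hrel⟩ := h.hom b
  apply hΦ
  rw [← psi_of Φ b hrel hlow hind hb, ha, map_one]

theorem OneSided.C_fin (hC : ClosedE C) (hh : OneSided C Γ R) (n : ℕ) :
    ∀ S : Set V, S.Finite → S.ncard = n → C (Qs Γ R S) := by
  have hfst := hh.fst
  have htri := hh.tri
  induction n using Nat.strong_induction_on with
  | _ n ih =>
    intro S hfin hn
    by_cases hne : S.Nonempty
    swap
    · refine hC.base.of_injective _ _ (1 : Qs Γ R S →* Multiplicative ℤ) ?_ hC.base.int
      intro x y _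
      rw [empty_eq hne x, empty_eq hne y]
    obtain ⟨b, hb, hmax⟩ := Set.exists_max_image S id hfin hne
    simp only [id] at hmax
    have hlt : (S \ {b}).ncard < n := hn ▸ Set.ncard_sdiff_singleton_lt_of_mem hb hfin
    have hsub : S \ {b} ⊆ S := Set.sdiff_subset
    let K : Set V := {u | u ∈ S ∧ Γ.Adj u b}
    have hKb : b ∉ K := fun h => Γ.loopless.irrefl b h.2
    have h01 : K ⊆ insert b K := Set.subset_insert b K
    have h02 : K ⊆ S \ {b} := fun u hu => ⟨hu.1, fun h => hKb (h ▸ hu)⟩
    have hdK : ∀ u v, u ∈ insert b K → v ∈ insert b K → u < v → Γ.Adj u v → v ∈ K → u ∈ K := by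
      intro u v hu _ huv _ hvK
      rcases hu with rfl | hu
      · exact absurd (hmax v hvK.1) (not_le.2 huv)
      · exact hu
    have hindK : ∀ u ∈ K, ∀ v ∈ K, ¬ Γ.Adj u v := fun u hu v hv huv => htri u v b huv hv.2 hu.2
    have hα : Function.Injective (tr (Γ := Γ) (R := R) h01) :=
      Function.LeftInverse.injective (rt_tr hfst h01 hdK)
    have hβ : Function.Injective (tr (Γ := Γ) (R := R) h02) :=
      indep_inj hfst htri hh.vinj _ (S \ {b}) (hfin.subset hsub) rfl K h02 hindK
    have hno : ∀ u ∈ insert b K, ∀ v ∈ S \ {b}, u ∉ K → v ∉ K → ¬ Γ.Adj u v := by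
      intro u hu v hv huK hvK huv
      rcases hu with rfl | hu
      · exact hvK ⟨hv.1, huv.symm⟩
      · exact huK hu
    have hcup : ∀ x ∈ S, x ∈ insert b K ∨ x ∈ S \ {b} := by
      intro x hx
      by_cases hxb : x = b
      · exact Or.inl (Or.inl hxb)
      · exact Or.inr ⟨hx, hxb⟩
    have hcap : ∀ x ∈ insert b K, x ∈ S \ {b} → x ∈ K := by
      intro x hx hx'
      rcases hx with hx | hx
      · exact absurd hx hx'.2
      · exact hx
    have hT : insert b K ⊆ S := by
      intro x hx
      rcases hx with rfl | hx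
      · exact hb
      · exact hx.1
    obtain ⟨P, _, Φ, hP, hΦ, hrel⟩ := hh.hom b
    have hC1 : C (Qs Γ R (insert b K)) := by
      refine C_star hC b hP Φ hΦ hrel (fun u hub hadj => hh.C_edge hC hub hadj) _ K
        (hfin.subset fun u hu => hu.1) rfl (fun u hu => ⟨?_, hu.2⟩) hindK
      exact lt_of_le_of_ne (hmax u hu.1) (fun h => hKb (h ▸ hu))
    have hC2 : C (Qs Γ R (S \ {b})) := ih _ hlt (S \ {b}) (hfin.subset hsub) rfl
    refine hC.base.of_injective _ _ (toAm h01 h02 hcup hcap hT hsub hno) (toAm_inj ..) ?_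
    refine C_Am hC hα hβ hC1 hC2 (P := Qs Γ R (S \ {b})) (Am.lift _ _
      ((tr h02).comp (rt hfst h01 hdK)) (MonoidHom.id _) (fun c => ?_)) hC2 ?_
    · rw [MonoidHom.comp_apply, rt_tr]
      rfl
    · intro x hx
      rw [Am.lift_inr] at hx
      exact hx

/-- **one-sided relations along a graph without triangles** -/
theorem OneSided.main (hC : ClosedE C) (hh : OneSided C Γ R) :
    C (CoprodI G ⧸ Subgroup.normalClosure (oneRel Γ R)) := by
  let g : ∀ S : Finset V, Qs Γ R (S : Set V) →* (CoprodI G ⧸ Subgroup.normalClosure (oneRel Γ R)) :=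
    fun S => Qs.lift ((QuotientGroup.mk' _).comp (kill G (S : Set V)))
      (fun u v hu hv huv hadj r hr => by
        rw [two_ext (g := QuotientGroup.mk' _) (fun a => ?_) (fun a => ?_) r]
        · exact (QuotientGroup.eq_one_iff _).2
            (Subgroup.subset_normalClosure ⟨u, v, huv, hadj, r, hr, rfl⟩)
        · rw [MonoidHom.comp_apply, kill_of hu]
        · rw [MonoidHom.comp_apply, kill_of hv])
      (fun v hv a => by rw [MonoidHom.comp_apply, kill_of' hv, map_one])
  have hg : ∀ (S : Finset V) (x : CoprodI G), g S (pi (S : Set V) x) =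
      QuotientGroup.mk' _ (kill G (S : Set V) x) := fun S x => rfl
  have hle : ∀ {i j : Finset V}, i ≤ j → (i : Set V) ⊆ (j : Set V) := fun h =>
    Finset.coe_subset.2 h
  refine hC.base.colim (Finset V) (fun i j => ⟨i ∪ j, Finset.subset_union_left,
    Finset.subset_union_right⟩) (fun S => Qs Γ R (S : Set V)) (fun i j h => tr (hle h)) _ g
    (fun i h x => tr_self _ x) (fun i j k h h' x => tr_tr _ _ x) (fun i j h x => ?_)
    (fun y => ?_) (fun i x hx => ?_)
    (fun i => hh.C_fin hC _ (i : Set V) i.finite_toSet rfl)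
  · have h1 : (g j).comp (tr (hle h)) = g i := by
      apply Qs.hom_ext
      intro v hv a
      rw [MonoidHom.comp_apply, tr_of (hle h) hv, hg, hg, kill_of hv, kill_of (hle h hv)]
    exact DFunLike.congr_fun h1 x
  · obtain ⟨y, rfl⟩ := QuotientGroup.mk_surjective y
    obtain ⟨S, hS, h1⟩ := kill_supp y
    refine ⟨hS.toFinset, pi _ y, ?_⟩
    rw [hg, hS.coe_toFinset, h1]
    rfl
  · obtain ⟨y, rfl⟩ := pi_surj (i : Set V) x
    rw [hg] at hx
    let N : Subgroup (CoprodI G) :=
      { carrier := {y | ∃ T₀ : Finset V, ∀ T : Finset V, T₀ ⊆ T →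
          pi (Γ := Γ) (R := R) (T : Set V) y = 1}
        mul_mem' := by
          rintro a b ⟨T₁, h₁⟩ ⟨T₂, h₂⟩
          refine ⟨T₁ ∪ T₂, fun T hT => ?_⟩
          rw [map_mul, h₁ T (Finset.subset_union_left.trans hT),
            h₂ T (Finset.subset_union_right.trans hT), mul_one]
        one_mem' := ⟨∅, fun T _ => map_one _⟩
        inv_mem' := by
          rintro a ⟨T₁, h₁⟩
          exact ⟨T₁, fun T hT => by rw [map_inv, h₁ T hT, inv_one]⟩ }
    have hN : N.Normal := ⟨by
      rintro a ⟨T₁, h₁⟩ b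
      exact ⟨T₁, fun T hT => by rw [map_mul, map_mul, h₁ T hT, mul_one, map_inv,
        mul_inv_cancel]⟩⟩
    have hle' : Subgroup.normalClosure (oneRel Γ R) ≤ N := by
      apply Subgroup.normalClosure_le_normal
      rintro _ ⟨u, v, huv, hadj, r, hr, rfl⟩
      refine ⟨{u, v}, fun T hT => ?_⟩
      refine pi_rel ?_ ?_ huv hadj hr
      · exact hT (by simp)
      · exact hT (by simp)
    obtain ⟨T₀, hT₀⟩ := hle' ((QuotientGroup.eq_one_iff _).1 hx)
    refine ⟨i ∪ T₀, Finset.subset_union_left, ?_⟩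
    have h2 := hT₀ (i ∪ T₀) Finset.subset_union_right
    exact h2

end

end Pool.Agent.U385.RT
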