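import Pool.Agent.U385.RT.Am

/-!
# Groups given by relations between commuting retracts
-/

set_option autoImplicit false

namespace Pool.Agent.U385.RT

open SimpleGraph
open Pool.Agent.Helper705_SA
open Pool.Agent.Y110.FJ
open Pool.Agent.R941.FJ (C_equiv C_le C_cyc mem_sup_normal)
open scoped Classical

variable {V : Type} {G : V → Type} [∀ v, Group (G v)]

/-- the endomorphism of the free product which kills the factors outside `S` -/
noncomputable def kill (G : V → Type) [∀ v, Group (G v)] (S : Set V) :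
    Monoid.CoprodI G →* Monoid.CoprodI G :=
  Monoid.CoprodI.lift fun v => if v ∈ S then Monoid.CoprodI.of else 1

theorem kill_of {S : Set V} {v : V} (h : v ∈ S) (a : G v) :
    kill G S (Monoid.CoprodI.of a) = Monoid.CoprodI.of a := by
  rw [kill, Monoid.CoprodI.lift_of, if_pos h]

theorem kill_of' {S : Set V} {v : V} (h : v ∉ S) (a : G v) :
    kill G S (Monoid.CoprodI.of a) = 1 := by
  rw [kill, Monoid.CoprodI.lift_of, if_neg h]
  rfl

theorem kill_kill (S T : Set V) (x : Monoid.CoprodI G) :
    kill G S (kill G T x) = kill G (S ∩ T) x := by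
  have h : (kill G S).comp (kill G T) = kill G (S ∩ T) := by
    apply Monoid.CoprodI.ext_hom
    intro v
    ext a
    show kill G S (kill G T (Monoid.CoprodI.of a)) = kill G (S ∩ T) (Monoid.CoprodI.of a)
    by_cases hT : v ∈ T
    · rw [kill_of hT]
      by_cases hS : v ∈ S
      · rw [kill_of hS, kill_of (show v ∈ S ∩ T from ⟨hS, hT⟩)]
      · rw [kill_of' hS, kill_of' (show v ∉ S ∩ T from fun h => hS h.1)]
    · rw [kill_of' hT, kill_of' (show v ∉ S ∩ T from fun h => hT h.2), map_one]
  exact DFunLike.congr_fun h x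

/-- `r` is a product of elements of the factors `G v` with `v` in a clique, and becomes trivial when
one of these factors is killed -/
def Rel (Γ : SimpleGraph V) (G : V → Type) [∀ v, Group (G v)] (r : Monoid.CoprodI G) : Prop :=
  ∃ σ : Set V, (∀ u ∈ σ, ∀ v ∈ σ, u ≠ v → Γ.Adj u v) ∧ kill G σ r = r ∧
    ∀ v ∈ σ, kill G {v}ᶜ r = 1

variable {Γ : SimpleGraph V} {R : Set (Monoid.CoprodI G)}

/-- the quotient -/
abbrev Qt (R : Set (Monoid.CoprodI G)) : Type := Monoid.CoprodI G ⧸ Subgroup.normalClosure R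

theorem kill_rel (hR : ∀ r ∈ R, Rel Γ G r) (S : Set V) :
    Subgroup.normalClosure R ≤
      ((QuotientGroup.mk' (Subgroup.normalClosure R)).comp (kill G S)).ker := by
  apply Subgroup.normalClosure_le_normal
  intro r hr
  rw [SetLike.mem_coe, MonoidHom.mem_ker]
  show ((kill G S r : Monoid.CoprodI G) : Qt R) = 1
  rw [QuotientGroup.eq_one_iff]
  obtain ⟨σ, -, h1, h2⟩ := hR r hr
  by_cases hS : σ ⊆ S
  · have h3 : kill G S r = r := by
      conv_lhs => rw [← h1, kill_kill, Set.inter_eq_right.2 hS, h1]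
    rw [h3]
    exact Subgroup.subset_normalClosure hr
  · obtain ⟨v, hv, hvS⟩ := Set.not_subset.1 hS
    have h3 : kill G S r = 1 := by
      have h4 : S ∩ {v}ᶜ = S := by
        ext x
        exact ⟨fun h => h.1, fun h => ⟨h, fun hx => hvS (hx ▸ h)⟩⟩
      rw [← h4, ← kill_kill, h2 v hv, map_one]
    rw [h3]
    exact one_mem _

/-- the retractions of the quotient -/
noncomputable def er (hR : ∀ r ∈ R, Rel Γ G r) (S : Set V) : Qt R →* Qt R :=
  QuotientGroup.lift _ ((QuotientGroup.mk' (Subgroup.normalClosure R)).comp (kill G S))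
    (kill_rel hR S)

theorem er_mk (hR : ∀ r ∈ R, Rel Γ G r) (S : Set V) (x : Monoid.CoprodI G) :
    er hR S (x : Qt R) = ((kill G S x : Monoid.CoprodI G) : Qt R) := rfl

theorem kill_supp (x : Monoid.CoprodI G) : ∃ S : Set V, S.Finite ∧ kill G S x = x := by
  induction x using Monoid.CoprodI.induction_on with
  | one => exact ⟨∅, Set.finite_empty, map_one _⟩
  | of v a => exact ⟨{v}, Set.finite_singleton v, kill_of (Set.mem_singleton v) a⟩
  | mul x y hx hy =>
    obtain ⟨S, hS, h1⟩ := hx
    obtain ⟨T, hT, h2⟩ := hy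
    refine ⟨S ∪ T, hS.union hT, ?_⟩
    rw [map_mul]
    have h3 : kill G (S ∪ T) x = x := by
      conv_lhs => rw [← h1, kill_kill, Set.union_inter_cancel_left, h1]
    have h4 : kill G (S ∪ T) y = y := by
      conv_lhs => rw [← h2, kill_kill, Set.union_inter_cancel_right, h2]
    rw [h3, h4]

theorem er_rets (hR : ∀ r ∈ R, Rel Γ G r) : Rets (er hR) where
  mul S T x := by
    obtain ⟨x, rfl⟩ := QuotientGroup.mk_surjective x
    rw [er_mk, er_mk, er_mk, kill_kill]
  supp x := by
    obtain ⟨x, rfl⟩ := QuotientGroup.mk_surjective x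
    obtain ⟨S, hS, h1⟩ := kill_supp x
    exact ⟨S, hS, by rw [er_mk, h1]⟩

/-- the subgroup generated by the factors in `S` -/
def gp (R : Set (Monoid.CoprodI G)) (S : Set V) : Subgroup (Qt R) :=
  Subgroup.closure {x | ∃ v ∈ S, ∃ a : G v, x = ((Monoid.CoprodI.of a : Monoid.CoprodI G) : Qt R)}

theorem er_range (hR : ∀ r ∈ R, Rel Γ G r) (S : Set V) : (er hR S).range = gp R S := by
  apply le_antisymm
  · rintro _ ⟨x, rfl⟩
    obtain ⟨x, rfl⟩ := QuotientGroup.mk_surjective x
    rw [er_mk]
    induction x using Monoid.CoprodI.induction_on with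
    | one =>
      rw [map_one]
      exact one_mem _
    | of v a =>
      by_cases hv : v ∈ S
      · rw [kill_of hv]
        exact Subgroup.subset_closure ⟨v, hv, a, rfl⟩
      · rw [kill_of' hv]
        exact one_mem _
    | mul x y hx hy =>
      rw [map_mul, QuotientGroup.mk_mul]
      exact mul_mem hx hy
  · rw [gp, Subgroup.closure_le]
    rintro _ ⟨v, hv, a, rfl⟩
    exact ⟨((Monoid.CoprodI.of a : Monoid.CoprodI G) : Qt R), by rw [er_mk, kill_of hv]⟩

theorem er_ind (hR : ∀ r ∈ R, Rel Γ G r) {u v : V} (huv : u ≠ v) (h : ¬ Γ.Adj u v) :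
    Ind (er hR) u v := by
  have hmem : ∀ (w x : V) (a : G x), x ≠ w →
      ((Monoid.CoprodI.of a : Monoid.CoprodI G) : Qt R) ∈ (er hR {w}ᶜ).range := fun w x a hx =>
    ⟨_, by rw [er_mk, kill_of hx]⟩
  refine ⟨?_, ?_⟩
  · rw [eq_top_iff]
    intro x _
    obtain ⟨x, rfl⟩ := QuotientGroup.mk_surjective x
    induction x using Monoid.CoprodI.induction_on with
    | one => exact one_mem _
    | of w a =>
      by_cases hw : w = u
      · exact Subgroup.mem_sup_right (hmem v w a (hw ▸ huv))
      · exact Subgroup.mem_sup_left (hmem u w a hw)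
    | mul x y hx hy =>
      rw [QuotientGroup.mk_mul]
      exact mul_mem (hx trivial) (hy trivial)
  · intro X _ f g hfg
    let F : Monoid.CoprodI G →* X := f.comp ((er hR {u}ᶜ).rangeRestrict.comp (QuotientGroup.mk' _))
    let H : Monoid.CoprodI G →* X := g.comp ((er hR {v}ᶜ).rangeRestrict.comp (QuotientGroup.mk' _))
    have hF : ∀ x, F x = f ⟨er hR {u}ᶜ (x : Qt R), ⟨_, rfl⟩⟩ := fun x => rfl
    have hH : ∀ x, H x = g ⟨er hR {v}ᶜ (x : Qt R), ⟨_, rfl⟩⟩ := fun x => rfl
    have hFH : ∀ (w : V) (a : G w), w ≠ u → w ≠ v →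
        F (Monoid.CoprodI.of a) = H (Monoid.CoprodI.of a) := by
      intro w a hwu hwv
      rw [hF, hH]
      have h1 : er hR {u}ᶜ ((Monoid.CoprodI.of a : Monoid.CoprodI G) : Qt R) =
          ((Monoid.CoprodI.of a : Monoid.CoprodI G) : Qt R) := by rw [er_mk, kill_of hwu]
      have h2 : er hR {v}ᶜ ((Monoid.CoprodI.of a : Monoid.CoprodI G) : Qt R) =
          ((Monoid.CoprodI.of a : Monoid.CoprodI G) : Qt R) := by rw [er_mk, kill_of hwv]
      have h3 := hfg _ (hmem u w a hwu) (hmem v w a hwv)
      convert h3 using 2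
      · exact Subtype.ext h1
      · exact Subtype.ext h2
    let Φ : Monoid.CoprodI G →* X := Monoid.CoprodI.lift fun w =>
      if w = u then H.comp Monoid.CoprodI.of else F.comp Monoid.CoprodI.of
    have hΦ : ∀ (w : V) (a : G w), Φ (Monoid.CoprodI.of a) =
        if w = u then H (Monoid.CoprodI.of a) else F (Monoid.CoprodI.of a) := by
      intro w a
      show Monoid.CoprodI.lift _ (Monoid.CoprodI.of a) = _
      rw [Monoid.CoprodI.lift_of]
      split_ifs <;> rfl
    have hu1 : Φ.comp (kill G {u}ᶜ) = F := by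
      apply Monoid.CoprodI.ext_hom
      intro w
      ext a
      show Φ (kill G {u}ᶜ (Monoid.CoprodI.of a)) = F (Monoid.CoprodI.of a)
      by_cases hw : w = u
      · have h1 : w ∉ ({u}ᶜ : Set V) := fun h => h hw
        rw [kill_of' h1, map_one, hF]
        have h2 : er hR {u}ᶜ ((Monoid.CoprodI.of a : Monoid.CoprodI G) : Qt R) = 1 := by
          rw [er_mk, kill_of' h1]
          rfl
        rw [← map_one f]
        congr 1
        exact Subtype.ext h2.symm
      · rw [kill_of hw, hΦ, if_neg hw]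
    have hv1 : Φ.comp (kill G {v}ᶜ) = H := by
      apply Monoid.CoprodI.ext_hom
      intro w
      ext a
      show Φ (kill G {v}ᶜ (Monoid.CoprodI.of a)) = H (Monoid.CoprodI.of a)
      by_cases hw : w = v
      · have h1 : w ∉ ({v}ᶜ : Set V) := fun h => h hw
        rw [kill_of' h1, map_one, hH]
        have h2 : er hR {v}ᶜ ((Monoid.CoprodI.of a : Monoid.CoprodI G) : Qt R) = 1 := by
          rw [er_mk, kill_of' h1]
          rfl
        rw [← map_one g]
        congr 1
        exact Subtype.ext h2.symm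
      · rw [kill_of hw, hΦ]
        split_ifs with hwu
        · rfl
        · exact hFH w a hwu hw
    have hker : Subgroup.normalClosure R ≤ Φ.ker := by
      apply Subgroup.normalClosure_le_normal
      intro r hr
      rw [SetLike.mem_coe, MonoidHom.mem_ker]
      obtain ⟨σ, hcl, h1, -⟩ := hR r hr
      have hr1 : ((r : Monoid.CoprodI G) : Qt R) = 1 :=
        (QuotientGroup.eq_one_iff r).2 (Subgroup.subset_normalClosure hr)
      by_cases hu : u ∈ σ
      · have hv : v ∉ σ := fun hv => h (hcl u hu v hv huv)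
        have h2 : kill G {v}ᶜ r = r := by
          have h3 : ({v}ᶜ : Set V) ∩ σ = σ :=
            Set.inter_eq_right.2 fun x hx hxv => hv (hxv ▸ hx)
          conv_lhs => rw [← h1, kill_kill, h3, h1]
        have h4 := DFunLike.congr_fun hv1 r
        rw [MonoidHom.comp_apply, h2] at h4
        rw [h4, hH, ← map_one g]
        congr 1
        exact Subtype.ext ((congrArg (er hR {v}ᶜ) hr1).trans (map_one _))
      · have h2 : kill G {u}ᶜ r = r := by
          have h3 : ({u}ᶜ : Set V) ∩ σ = σ :=
            Set.inter_eq_right.2 fun x hx hxu => hu (hxu ▸ hx)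
          conv_lhs => rw [← h1, kill_kill, h3, h1]
        have h4 := DFunLike.congr_fun hu1 r
        rw [MonoidHom.comp_apply, h2] at h4
        rw [h4, hF, ← map_one f]
        congr 1
        exact Subtype.ext ((congrArg (er hR {u}ᶜ) hr1).trans (map_one _))
    refine ⟨QuotientGroup.lift _ Φ hker, ?_, ?_⟩
    · rintro ⟨x, y, rfl⟩
      obtain ⟨y, rfl⟩ := QuotientGroup.mk_surjective y
      have h1 : QuotientGroup.lift _ Φ hker (er hR {u}ᶜ (y : Qt R)) = Φ (kill G {u}ᶜ y) := rfl
      have h2 := DFunLike.congr_fun hu1 y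
      rw [MonoidHom.comp_apply, hF] at h2
      exact h1.trans h2
    · rintro ⟨x, y, rfl⟩
      obtain ⟨y, rfl⟩ := QuotientGroup.mk_surjective y
      have h1 : QuotientGroup.lift _ Φ hker (er hR {v}ᶜ (y : Qt R)) = Φ (kill G {v}ᶜ y) := rfl
      have h2 := DFunLike.congr_fun hv1 y
      rw [MonoidHom.comp_apply, hH] at h2
      exact h1.trans h2

/-- **presentations with relations supported on cliques** -/
theorem pres_main {C : ∀ (G : Type) [Group G], Prop} (hC : ClosedE C) (hR : ∀ r ∈ R, Rel Γ G r) :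
    C (Qt R) ↔ ∀ σ : Set V, σ.Finite → (∀ u ∈ σ, ∀ v ∈ σ, u ≠ v → Γ.Adj u v) → C (gp R σ) := by
  constructor
  · intro h σ _ _
    exact hC.base.of_injective _ _ (Subgroup.subtype _) (Subgroup.subtype_injective _) h
  · intro h
    refine ((er_rets hR).main hC).2 fun σ hfin hσ => ?_
    rw [er_range]
    refine h σ hfin fun u hu v hv huv => ?_
    by_contra hcon
    exact hσ u hu v hv huv (er_ind hR huv hcon)

end Pool.Agent.U385.RT
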