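import Pool.Agent.U385.RT.Comm
import Pool.Agent.Helper705_SA.TreeSets
import Pool.Agent.N509.TK.Cy2

/-!
# Subgroups of amalgamated products: tree arguments
-/

set_option autoImplicit false

namespace Pool.Agent.U385.RT

open SimpleGraph
open Pool.Agent.Helper705_SA
open Pool.Agent.Helper270.Tree
open Pool.Agent.Y110.FJ
open Pool.Agent.R941.FJ (C_equiv C_le)

section

variable {G : Type} [Group G] {A B : Subgroup G}

theorem tact (h : IsAmalgam A B) : TreeAct G (cosetGraph A B) where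
  isTree := cosetGraph_isTree A B h
  adj := coset_act A B
  noInv := by
    rintro g (v | v) (w | w) _ ⟨h1, h2⟩
    · obtain ⟨k, ⟨h3, h4⟩ | ⟨h3, h4⟩⟩ := ‹(cosetGraph A B).Adj _ _› <;> cases h4
    · cases h1
    · cases h1
    · obtain ⟨k, ⟨h3, h4⟩ | ⟨h3, h4⟩⟩ := ‹(cosetGraph A B).Adj _ _› <;> cases h3

/-- the vertices of the first type -/
def vA (A B : Subgroup G) (g : G) : (G ⧸ A) ⊕ (G ⧸ B) := Sum.inl (QuotientGroup.mk g)

/-- the vertices of the second type -/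
def vB (A B : Subgroup G) (g : G) : (G ⧸ A) ⊕ (G ⧸ B) := Sum.inr (QuotientGroup.mk g)

theorem smul_vA (g k : G) : g • vA A B k = vA A B (g * k) := rfl

theorem smul_vB (g k : G) : g • vB A B k = vB A B (g * k) := rfl

theorem vA_eq {g k : G} : vA A B g = vA A B k ↔ g⁻¹ * k ∈ A := by
  rw [vA, vA, Sum.inl.injEq, QuotientGroup.eq]

theorem vB_eq {g k : G} : vB A B g = vB A B k ↔ g⁻¹ * k ∈ B := by
  rw [vB, vB, Sum.inr.injEq, QuotientGroup.eq]

theorem vA_ne {g k : G} : vA A B g ≠ vB A B k := by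
  intro h
  cases h

theorem fix_vA {g k : G} : g • vA A B k = vA A B k ↔ k⁻¹ * g * k ∈ A := by
  rw [smul_vA, eq_comm, vA_eq, mul_assoc]

theorem fix_vB {g k : G} : g • vB A B k = vB A B k ↔ k⁻¹ * g * k ∈ B := by
  rw [smul_vB, eq_comm, vB_eq, mul_assoc]

theorem adj_AB (g : G) : (cosetGraph A B).Adj (vA A B g) (vB A B g) := ⟨g, Or.inl ⟨rfl, rfl⟩⟩

theorem adj_vA {k : G} {v : (G ⧸ A) ⊕ (G ⧸ B)} (h : (cosetGraph A B).Adj (vA A B k) v) :
    ∃ a ∈ A, v = vB A B (k * a) := by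
  obtain ⟨g, ⟨h1, h2⟩ | ⟨h1, h2⟩⟩ := h
  · refine ⟨k⁻¹ * g, vA_eq.1 h1, ?_⟩
    rw [mul_inv_cancel_left]
    exact h2
  · exact absurd h2 vA_ne

theorem adj_vB {k : G} {v : (G ⧸ A) ⊕ (G ⧸ B)} (h : (cosetGraph A B).Adj (vB A B k) v) :
    ∃ b ∈ B, v = vA A B (k * b) := by
  obtain ⟨g, ⟨h1, h2⟩ | ⟨h1, h2⟩⟩ := h
  · exact absurd h1.symm vA_ne
  · refine ⟨k⁻¹ * g, vB_eq.1 h2, ?_⟩
    rw [mul_inv_cancel_left]
    exact h1

theorem exists_rep (v : (G ⧸ A) ⊕ (G ⧸ B)) : ∃ k, v = vA A B k ∨ v = vB A B k := by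
  rcases v with v | v
  · obtain ⟨k, rfl⟩ := QuotientGroup.mk_surjective v
    exact ⟨k, Or.inl rfl⟩
  · obtain ⟨k, rfl⟩ := QuotientGroup.mk_surjective v
    exact ⟨k, Or.inr rfl⟩

/-- an element fixing two vertices fixes a neighbour of the first -/
theorem fix_step (h : IsAmalgam A B) {g : G} {v w : (G ⧸ A) ⊕ (G ⧸ B)} (hv : g • v = v)
    (hw : g • w = w) (hvw : v ≠ w) : ∃ u, (cosetGraph A B).Adj v u ∧ g • u = u ∧
      (cosetGraph A B).dist u w + 1 = (cosetGraph A B).dist v w := by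
  obtain ⟨q, hq0, hq1, hadj, hd, -⟩ := exists_geod (tact h).isTree v w
  have hpos : 0 < (cosetGraph A B).dist v w := (tact h).isTree.connected.pos_dist_of_ne hvw
  have h0 := hadj 0 hpos
  rw [hq0] at h0
  obtain ⟨h1, h2⟩ := hd 1 hpos
  refine ⟨q 1, h0, (tact h).convex hv hw ?_, ?_⟩
  · rw [h1, h2]
    omega
  · rw [h2]
    omega

/-- **elements of a factor which are not conjugate in it to elements of the other** -/
theorem lemE (h : IsAmalgam A B) {g : G} (hg : g ∈ A) (hno : ∀ x ∈ A, x⁻¹ * g * x ∉ B) (p : G) :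
    (p⁻¹ * g * p ∈ A → p ∈ A) ∧ p⁻¹ * g * p ∉ B := by
  have key : ∀ w, g • w = w → w = vA A B 1 := by
    intro w hw
    by_contra hne
    have h1 : g • vA A B 1 = vA A B 1 := fix_vA.2 (by simpa using hg)
    obtain ⟨u, hu, hgu, -⟩ := fix_step h h1 hw (Ne.symm hne)
    obtain ⟨a, ha, rfl⟩ := adj_vA hu
    rw [one_mul, fix_vB] at hgu
    exact hno a ha hgu
  constructor
  · intro hp
    have h1 := key (vA A B p) (fix_vA.2 hp)
    have h2 := vA_eq.1 h1.symm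
    simpa using h2
  · intro hp
    exact vA_ne (key (vB A B p) (fix_vB.2 hp)).symm

theorem IsAmalgam.symm' (h : IsAmalgam A B) : IsAmalgam B A := by
  refine ⟨by rw [sup_comm]; exact h.1, fun K _ f g hfg => ?_⟩
  obtain ⟨Φ, h1, h2⟩ := h.2 K g f (fun x hA hB => (hfg x hB hA).symm)
  exact ⟨Φ, h2, h1⟩

/-- the fixed vertices of an element of a malnormal amalgamated subgroup -/
theorem lemMal (h : IsAmalgam A B) {g : G} (hgA : g ∈ A) (hgB : g ∈ B)
    (hA : ∀ x ∈ A, x⁻¹ * g * x ∈ B → x ∈ B) (hB : ∀ x ∈ B, x⁻¹ * g * x ∈ A → x ∈ A)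
    {w : (G ⧸ A) ⊕ (G ⧸ B)} (hw : g • w = w) : w = vA A B 1 ∨ w = vB A B 1 := by
  by_contra hne
  push Not at hne
  have h1 : g • vA A B 1 = vA A B 1 := fix_vA.2 (by simpa using hgA)
  have h1' : g • vB A B 1 = vB A B 1 := fix_vB.2 (by simpa using hgB)
  obtain ⟨u, hu, hgu, hd⟩ := fix_step h h1 hw (Ne.symm hne.1)
  obtain ⟨a, ha, rfl⟩ := adj_vA hu
  rw [one_mul, fix_vB] at hgu
  have h2 : vB A B (1 * a) = vB A B 1 := by
    rw [vB_eq]
    simpa using hA a ha hgu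
  rw [h2] at hd
  obtain ⟨u', hu', hgu', hd'⟩ := fix_step h h1' hw (Ne.symm hne.2)
  obtain ⟨b, hb, rfl⟩ := adj_vB hu'
  rw [one_mul, fix_vA] at hgu'
  have h3 : vA A B (1 * b) = vA A B 1 := by
    rw [vA_eq]
    simpa using hB b hb hgu'
  rw [h3] at hd'
  omega

/-! ### the subtree of a free product -/

/-- the translates of the base edge -/
def hF (A B F : Subgroup G) : SimpleGraph ((G ⧸ A) ⊕ (G ⧸ B)) where
  Adj x y := ∃ f ∈ F, (x = vA A B f ∧ y = vB A B f) ∨ (y = vA A B f ∧ x = vB A B f)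
  symm := ⟨by
    rintro x y ⟨f, hf, h | h⟩
    · exact ⟨f, hf, Or.inr h⟩
    · exact ⟨f, hf, Or.inl h⟩⟩
  loopless := ⟨by
    rintro x ⟨f, -, ⟨h1, h2⟩ | ⟨h1, h2⟩⟩ <;> exact vA_ne (h1.symm.trans h2)⟩

theorem hF_le (F : Subgroup G) : hF A B F ≤ cosetGraph A B := by
  rintro x y ⟨f, -, h | h⟩
  · exact ⟨f, Or.inl h⟩
  · exact ⟨f, Or.inr h⟩

/-- the vertices -/
def tF (A B F : Subgroup G) : Set ((G ⧸ A) ⊕ (G ⧸ B)) := {v | ∃ f ∈ F, v = vA A B f ∨ v = vB A B f}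

theorem tF_smul {F : Subgroup G} {g : G} (hg : g ∈ F) {v : (G ⧸ A) ⊕ (G ⧸ B)}
    (hv : v ∈ tF A B F) : g • v ∈ tF A B F := by
  obtain ⟨f, hf, rfl | rfl⟩ := hv
  · exact ⟨g * f, mul_mem hg hf, Or.inl rfl⟩
  · exact ⟨g * f, mul_mem hg hf, Or.inr rfl⟩

theorem hF_smul {F : Subgroup G} {g : G} (hg : g ∈ F) {v w : (G ⧸ A) ⊕ (G ⧸ B)}
    (h : (hF A B F).Reachable v w) : (hF A B F).Reachable (g • v) (g • w) := by
  obtain ⟨p⟩ := h
  let φ : hF A B F →g hF A B F := ⟨fun v => g • v, fun {a b} hab => by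
    obtain ⟨f, hf, ⟨rfl, rfl⟩ | ⟨rfl, rfl⟩⟩ := hab
    · exact ⟨g * f, mul_mem hg hf, Or.inl ⟨rfl, rfl⟩⟩
    · exact ⟨g * f, mul_mem hg hf, Or.inr ⟨rfl, rfl⟩⟩⟩
  exact ⟨p.map φ⟩

theorem hF_reach {F X Y : Subgroup G} (hX : X ≤ A) (hY : Y ≤ B) (hF' : F = X ⊔ Y) {f : G}
    (hf : f ∈ F) : (hF A B F).Reachable (vA A B 1) (vA A B f) := by
  have hXF : X ≤ F := by rw [hF']; exact le_sup_left
  have hYF : Y ≤ F := by rw [hF']; exact le_sup_right
  have hf' : f ∈ Subgroup.closure ((X : Set G) ∪ (Y : Set G)) := by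
    rw [Subgroup.closure_union, Subgroup.closure_eq, Subgroup.closure_eq, ← hF']
    exact hf
  have e0 : ∀ f ∈ F, (hF A B F).Adj (vA A B f) (vB A B f) := fun f hf => ⟨f, hf, Or.inl ⟨rfl, rfl⟩⟩
  have key : ∀ s : G, s ∈ (X : Set G) ∪ (Y : Set G) →
      (hF A B F).Reachable (vA A B 1) (vA A B s) := by
    rintro s (hs | hs)
    · have h1 : vA A B 1 = vA A B s := vA_eq.2 (by simpa using hX hs)
      rw [h1]
    · have h1 : vB A B 1 = vB A B s := vB_eq.2 (by simpa using hY hs)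
      refine (e0 1 (one_mem F)).reachable.trans ?_
      rw [h1]
      exact (e0 s (hYF hs)).symm.reachable
  have hmem : ∀ s, s ∈ (X : Set G) ∪ (Y : Set G) → s ∈ F := by
    rintro s (hs | hs)
    · exact hXF hs
    · exact hYF hs
  induction hf' using Subgroup.closure_induction with
  | mem s hs => exact key s hs
  | one => exact Reachable.refl _
  | mul a b ha hb iha ihb =>
    have ha' : a ∈ F := by
      rw [hF', ← Subgroup.closure_eq X, ← Subgroup.closure_eq Y, ← Subgroup.closure_union]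
      exact ha
    have hb' : b ∈ F := by
      rw [hF', ← Subgroup.closure_eq X, ← Subgroup.closure_eq Y, ← Subgroup.closure_union]
      exact hb
    refine (iha ha').trans ?_
    have h1 := hF_smul ha' (ihb hb')
    rw [smul_vA, smul_vA, mul_one] at h1
    exact h1
  | inv a ha iha =>
    have ha' : a ∈ F := by
      rw [hF', ← Subgroup.closure_eq X, ← Subgroup.closure_eq Y, ← Subgroup.closure_union]
      exact ha
    have h1 := hF_smul (inv_mem ha') (iha ha')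
    rw [smul_vA, smul_vA, mul_one, inv_mul_cancel] at h1
    exact h1.symm

theorem tF_reach {F X Y : Subgroup G} (hX : X ≤ A) (hY : Y ≤ B) (hF' : F = X ⊔ Y)
    {v w : (G ⧸ A) ⊕ (G ⧸ B)} (hv : v ∈ tF A B F) (hw : w ∈ tF A B F) :
    (hF A B F).Reachable v w := by
  have key : ∀ v ∈ tF A B F, (hF A B F).Reachable (vA A B 1) v := by
    rintro v ⟨f, hf, rfl | rfl⟩
    · exact hF_reach hX hY hF' hf
    · exact (hF_reach hX hY hF' hf).trans
        (Adj.reachable ⟨f, hf, Or.inl ⟨rfl, rfl⟩⟩)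
  exact (key v hv).symm.trans (key w hw)

/-- a path of the subgraph -/
theorem sub_path {T H : SimpleGraph ((G ⧸ A) ⊕ (G ⧸ B))} (hT : T.IsTree) (hle : H ≤ T)
    {v w : (G ⧸ A) ⊕ (G ⧸ B)} (h : H.Reachable v w) (p : T.Walk v w) (hp : p.IsPath) :
    ∃ q : H.Walk v w, q.mapLe hle = p := by
  classical
  obtain ⟨q⟩ := h
  refine ⟨q.toPath, ?_⟩
  exact (hT.existsUnique_path v w).unique ((q.toPath.2).mapLe hle) hp

theorem tF_adj (h : IsAmalgam A B) {F X Y : Subgroup G} (hX : X ≤ A) (hY : Y ≤ B)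
    (hF' : F = X ⊔ Y) {v w : (G ⧸ A) ⊕ (G ⧸ B)} (hv : v ∈ tF A B F) (hw : w ∈ tF A B F)
    (hvw : (cosetGraph A B).Adj v w) : (hF A B F).Adj v w := by
  obtain ⟨q, hq⟩ := sub_path (tact h).isTree (hF_le F) (tF_reach hX hY hF' hv hw)
    (Walk.cons hvw Walk.nil) (by simp [hvw.ne])
  have h1 : q.length = 1 := by
    have h2 := congrArg Walk.length hq
    simpa using h2
  exact Walk.adj_of_length_eq_one h1

theorem tF_conv (h : IsAmalgam A B) {F X Y : Subgroup G} (hX : X ≤ A) (hY : Y ≤ B)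
    (hF' : F = X ⊔ Y) : Conv (cosetGraph A B) (tF A B F) := by
  intro x hx y hy z hz
  obtain ⟨p1, hp1⟩ := (tact h).isTree.connected.exists_walk_length_eq_dist x z
  obtain ⟨p2, hp2⟩ := (tact h).isTree.connected.exists_walk_length_eq_dist z y
  have hp : (p1.append p2).IsPath := by
    apply Walk.isPath_of_length_eq_dist
    rw [Walk.length_append, hp1, hp2, hz]
  obtain ⟨q, hq⟩ := sub_path (tact h).isTree (hF_le F) (tF_reach hX hY hF' hx hy) _ hp
  have hzq : z ∈ q.support := by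
    have h1 : z ∈ (p1.append p2).support := by
      rw [Walk.mem_support_append_iff]
      exact Or.inl p1.end_mem_support
    rw [← hq] at h1
    simpa using h1
  have key : ∀ {u v : (G ⧸ A) ⊕ (G ⧸ B)} (q : (hF A B F).Walk u v), u ∈ tF A B F →
      ∀ z ∈ q.support, z ∈ tF A B F := by
    intro u v q
    induction q with
    | nil =>
      intro hu z hz
      rw [Walk.support_nil, List.mem_singleton] at hz
      exact hz ▸ hu
    | cons hadj q ih =>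
      intro hu z hz
      rw [Walk.support_cons, List.mem_cons] at hz
      rcases hz with rfl | hz
      · exact hu
      · refine ih ?_ z hz
        obtain ⟨f, hf, ⟨-, h2⟩ | ⟨h2, -⟩⟩ := hadj
        · exact ⟨f, hf, Or.inr h2⟩
        · exact ⟨f, hf, Or.inl h2⟩
  exact key q hx z hzq

/-- elliptic elements of the free product -/
theorem lemEll (h : IsAmalgam A B) {F X Y : Subgroup G} (hX : X ≤ A) (hY : Y ≤ B)
    (hF' : F = X ⊔ Y) {z : G} (hz : z ∈ F) {v : (G ⧸ A) ⊕ (G ⧸ B)} (hv : z • v = v) :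
    ∃ f ∈ F, f⁻¹ * z * f ∈ A ∨ f⁻¹ * z * f ∈ B := by
  obtain ⟨x, ⟨f, hf, rfl | rfl⟩, hfix⟩ := exists_fixed_in_conv (tact h) (tF_conv h hX hY hF')
    ⟨vA A B 1, 1, one_mem F, Or.inl rfl⟩ {z} (by
      rintro k hk x hx
      rw [Set.mem_singleton_iff] at hk
      exact hk ▸ tF_smul hz hx) v (by
      rintro k hk
      rw [Set.mem_singleton_iff] at hk
      exact hk ▸ hv)
  · exact ⟨f, hf, Or.inl (fix_vA.1 (hfix z rfl))⟩
  · exact ⟨f, hf, Or.inr (fix_vB.1 (hfix z rfl))⟩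

/-- the axis lies in the invariant convex sets -/
theorem axis_conv {V : Type} [MulAction G V] {T : SimpleGraph V} (h : TreeAct G T) {g : G}
    {L : ℤ → V} {l : ℕ} (hax : IsAxis T g L l) {S : Set V} (hS : Conv T S) (hne : S.Nonempty)
    (hinv : ∀ v ∈ S, g • v ∈ S) (hinv' : ∀ v ∈ S, g⁻¹ • v ∈ S) (i : ℤ) : L i ∈ S := by
  obtain ⟨z, hz⟩ := hne
  obtain ⟨j, hj, -⟩ := h.proj_between hax z
  have h1 : L j ∈ S := hS z hz _ (hinv z hz) _ hj
  have hpos := hax.pos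
  have hup : ∀ n : ℕ, L (j + n * l) ∈ S := by
    intro n
    induction n with
    | zero => simpa using h1
    | succ n ih =>
      have h2 := hinv _ ih
      rw [hax.smul] at h2
      have h3 : j + ((n + 1 : ℕ) : ℤ) * l = j + n * l + l := by push_cast; ring
      rw [h3]
      exact h2
  have hdown : ∀ n : ℕ, L (j - n * l) ∈ S := by
    intro n
    induction n with
    | zero => simpa using h1
    | succ n ih =>
      have h2 := hinv' _ ih
      have h3 : j - ((n + 1 : ℕ) : ℤ) * l + l = j - n * l := by push_cast; ring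
      have h4 : g • L (j - ((n + 1 : ℕ) : ℤ) * l) = L (j - n * l) := by rw [hax.smul, h3]
      rw [← h4, inv_smul_smul] at h2
      exact h2
  have h5 := hup (i - j).natAbs
  have h6 := hdown (i - j).natAbs
  refine hS _ h6 _ h5 _ ?_
  have hl : (1 : ℤ) ≤ l := by exact_mod_cast hpos
  have habs : |i - j| ≤ ((i - j).natAbs : ℤ) * l := by
    rw [Int.abs_eq_natAbs]
    exact le_mul_of_one_le_right (Int.natCast_nonneg _) hl
  rw [hax.line.dist h.isTree, hax.line.dist h.isTree, hax.line.dist h.isTree]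
  rw [abs_le] at habs
  generalize ((i - j).natAbs : ℤ) * l = m at *
  omega

/-- **conjugates of elements of free products** -/
theorem lemH (h : IsAmalgam A B) {F X Y F' X' Y' : Subgroup G} (hX : X ≤ A) (hY : Y ≤ B)
    (hFXY : F = X ⊔ Y) (hX' : X' ≤ A) (hY' : Y' ≤ B) (hFXY' : F' = X' ⊔ Y')
    (hFB : ∀ x ∈ F, x ∈ B → x ∈ Y) (hFB' : ∀ x ∈ F', x ∈ B → x ∈ Y')
    (hstar : ∀ y ∈ Y, y ≠ 1 → ∀ y' ∈ Y', ∀ m, m ∈ A → m ∈ B → y⁻¹ * m * y' ∈ A →
      y⁻¹ * m * y' ∈ B → m = 1)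
    {g a : G} (hg : g ∈ F) (hag : a⁻¹ * g * a ∈ F') :
    (∃ f ∈ F, ∃ f' ∈ F', a = f * f') ∨ ∃ f ∈ F, f⁻¹ * g * f ∈ A ∨ f⁻¹ * g * f ∈ B := by
  by_cases hell : ∃ v : (G ⧸ A) ⊕ (G ⧸ B), g • v = v
  · obtain ⟨v, hv⟩ := hell
    exact Or.inr (lemEll h hX hY hFXY hg hv)
  left
  push Not at hell
  obtain ⟨L, l, hax⟩ := (tact h).exists_axis hell
  have hL : ∀ i, L i ∈ tF A B F := axis_conv (tact h) hax (tF_conv h hX hY hFXY)
    ⟨vA A B 1, 1, one_mem F, Or.inl rfl⟩ (fun v hv => tF_smul hg hv)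
    (fun v hv => tF_smul (inv_mem hg) hv)
  have hax' : IsAxis (cosetGraph A B) (a⁻¹ * g * a) (fun i => a⁻¹ • L i) l :=
    { line :=
        { adj := fun i => (tact h).adj _ _ _ (hax.line.adj i)
          nb := fun i hi => hax.line.nb i (smul_left_cancel _ hi) }
      pos := hax.pos
      smul := fun i => by
        show (a⁻¹ * g * a) • a⁻¹ • L i = a⁻¹ • L (i + l)
        rw [smul_smul, mul_assoc, mul_assoc, mul_inv_cancel, mul_one, ← smul_smul, hax.smul] }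
  have hL' : ∀ i, a⁻¹ • L i ∈ tF A B F' := axis_conv (tact h) hax' (tF_conv h hX' hY' hFXY')
    ⟨vA A B 1, 1, one_mem F', Or.inl rfl⟩ (fun v hv => tF_smul hag hv)
    (fun v hv => tF_smul (inv_mem hag) hv)
  -- a vertex of the second type
  obtain ⟨i, k, hi⟩ : ∃ i k, L i = vB A B k := by
    obtain ⟨k, hk | hk⟩ := exists_rep (L 0)
    · have h1 := hax.line.adj 0
      rw [hk] at h1
      obtain ⟨a, -, ha⟩ := adj_vA h1
      exact ⟨0 + 1, _, ha⟩
    · exact ⟨0, k, hk⟩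
  have edge : ∀ {F X Y : Subgroup G} (_ : X ≤ A) (_ : Y ≤ B) (_ : F = X ⊔ Y) (c : G) (j : ℤ),
      (∀ i, c • L i ∈ tF A B F) → (cosetGraph A B).Adj (L i) (L j) →
        ∃ f ∈ F, c • L j = vA A B f ∧ c • L i = vB A B f := by
    intro F X Y hX hY hFXY c j hc hadj
    obtain ⟨f, hf, ⟨h1, h2⟩ | ⟨h1, h2⟩⟩ := tF_adj h hX hY hFXY (hc i) (hc j)
      ((tact h).adj c _ _ hadj)
    · rw [hi, smul_vB] at h1
      exact absurd h1.symm vA_ne
    · exact ⟨f, hf, h1, h2⟩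
  have hadj1 : (cosetGraph A B).Adj (L i) (L (i - 1)) := by
    have h1 := (hax.line.adj (i - 1)).symm
    rwa [sub_add_cancel] at h1
  have hadj2 : (cosetGraph A B).Adj (L i) (L (i + 1)) := hax.line.adj i
  have h1L : ∀ i, (1 : G) • L i ∈ tF A B F := fun i => by rw [one_smul]; exact hL i
  obtain ⟨f1, hf1, e1, e1'⟩ := edge hX hY hFXY 1 (i - 1) h1L hadj1
  obtain ⟨f2, hf2, e2, e2'⟩ := edge hX hY hFXY 1 (i + 1) h1L hadj2
  obtain ⟨g1, hg1, d1, d1'⟩ := edge hX' hY' hFXY' a⁻¹ (i - 1) hL' hadj1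
  obtain ⟨g2, hg2, d2, d2'⟩ := edge hX' hY' hFXY' a⁻¹ (i + 1) hL' hadj2
  rw [one_smul] at e1 e1' e2 e2'
  rw [inv_smul_eq_iff, smul_vA] at d1 d2
  rw [inv_smul_eq_iff, smul_vB] at d1' d2'
  have hyB : f1⁻¹ * f2 ∈ B := vB_eq.1 (e1'.symm.trans e2')
  have hy : f1⁻¹ * f2 ∈ Y := hFB _ (mul_mem (inv_mem hf1) hf2) hyB
  have hyB' : (a * g1)⁻¹ * (a * g2) ∈ B := vB_eq.1 (d1'.symm.trans d2')
  have hy' : g1⁻¹ * g2 ∈ Y' := by
    refine hFB' _ (mul_mem (inv_mem hg1) hg2) ?_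
    have h1 : (a * g1)⁻¹ * (a * g2) = g1⁻¹ * g2 := by group
    rwa [h1] at hyB'
  have hy1 : f1⁻¹ * f2 ≠ 1 := by
    intro h1
    have h2 : f1 = f2 := inv_mul_eq_one.1 h1
    have h3 := hax.line.nb (i - 1)
    have h4 : i - 1 + 2 = i + 1 := by ring
    rw [h4, e1, e2, h2] at h3
    exact h3 rfl
  have hm1 : f1⁻¹ * (a * g1) ∈ A := vA_eq.1 (e1.symm.trans d1)
  have hm1' : f1⁻¹ * (a * g1) ∈ B := vB_eq.1 (e1'.symm.trans d1')
  have hm2 : f2⁻¹ * (a * g2) ∈ A := vA_eq.1 (e2.symm.trans d2)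
  have hm2' : f2⁻¹ * (a * g2) ∈ B := vB_eq.1 (e2'.symm.trans d2')
  have e5 : (f1⁻¹ * f2)⁻¹ * (f1⁻¹ * (a * g1)) * (g1⁻¹ * g2) = f2⁻¹ * (a * g2) := by group
  have h5 := hstar _ hy hy1 _ hy' _ hm1 hm1' (by rw [e5]; exact hm2) (by rw [e5]; exact hm2')
  refine ⟨f1, hf1, g1⁻¹, inv_mem hg1, ?_⟩
  have h6 : f1 = a * g1 := inv_mul_eq_one.1 h5
  rw [h6, mul_inv_cancel_right]

end

end Pool.Agent.U385.RT
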