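import Pool.Agent.U385.RT.One3
import Pool.Agent.TH107.RF.Mono

/-!
# Amalgamated products of locally indicable groups
-/

set_option autoImplicit false

namespace Pool.Agent.U385.RT

open Pool.Agent.Y110.FJ (permAut)
open Pool.Agent.Y462.PA (Am)
open Pool.Agent.TH107.RF (LI)

/-! ### wreath products -/

section shift

variable (N P : Type) [Group N] [Group P]

/-- the translation action on the functions -/
def shift : P →* MulAut (P → N) where
  toFun q :=
    { toFun := fun φ p => φ (q⁻¹ * p)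
      invFun := fun φ p => φ (q * p)
      left_inv := fun φ => by
        funext p
        show φ (q⁻¹ * (q * p)) = φ p
        rw [inv_mul_cancel_left]
      right_inv := fun φ => by
        funext p
        show φ (q * (q⁻¹ * p)) = φ p
        rw [mul_inv_cancel_left]
      map_mul' := fun φ ψ => rfl }
  map_one' := by
    ext φ p
    show φ ((1 : P)⁻¹ * p) = φ p
    rw [inv_one, one_mul]
  map_mul' q q' := by
    ext φ p
    show φ ((q * q')⁻¹ * p) = φ (q'⁻¹ * (q⁻¹ * p))
    rw [mul_inv_rev, mul_assoc]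

/-- the wreath product -/
abbrev Wre : Type := (P → N) ⋊[shift N P] P

end shift

/-! ### equivariant sections -/

section sec

variable {K A P : Type} [Group K] [Group A] [Group P]

/-- representatives of the right cosets -/
theorem exists_rep (I : Subgroup P) : ∃ t : P → P, (∀ p, p * (t p)⁻¹ ∈ I) ∧
    ∀ x ∈ I, ∀ p, t (x * p) = t p := by
  refine ⟨fun p => (Quotient.out (Quotient.mk (QuotientGroup.rightRel I) p)), fun p => ?_,
    fun x hx p => ?_⟩
  · have h1 : Quotient.mk (QuotientGroup.rightRel I)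
        (Quotient.out (Quotient.mk (QuotientGroup.rightRel I) p)) =
        Quotient.mk (QuotientGroup.rightRel I) p := Quotient.out_eq _
    exact QuotientGroup.rightRel_apply.1 (Quotient.exact h1)
  · show Quotient.out (Quotient.mk (QuotientGroup.rightRel I) (x * p)) =
      Quotient.out (Quotient.mk (QuotientGroup.rightRel I) p)
    congr 1
    refine Quotient.sound (QuotientGroup.rightRel_apply.2 ?_)
    rw [mul_inv_rev, mul_inv_cancel_left]
    exact I.inv_mem hx

theorem exists_sec (α : K →* A) (f : A →* P) (hf : Function.Injective (f.comp α)) :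
    ∃ (s : P → A) (t : P → P), (∀ p, f (s p) * t p = p) ∧ (∀ a p, t (f a * p) = t p) ∧
      ∀ k p, s (f (α k) * p) = α k * s p := by
  obtain ⟨o, ho1, ho2⟩ := exists_rep (f.comp α).range
  obtain ⟨t, ht1, ht2⟩ := exists_rep f.range
  have hκ : ∀ p, ∃ k, f (α k) = p * (o p)⁻¹ := fun p => ho1 p
  have ha : ∀ p, ∃ a, f a = p * (t p)⁻¹ := fun p => ht1 p
  choose κ hκ using hκ
  choose a ha using ha
  have hto : ∀ p, t (o p) = t p := by
    intro p
    have h1 : f (α (κ p)) * o p = p := by rw [hκ, inv_mul_cancel_right]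
    rw [← h1, ht2 _ ⟨_, rfl⟩, h1]
  refine ⟨fun p => α (κ p) * a (o p), t, fun p => ?_, fun b p => ht2 _ ⟨b, rfl⟩ p, fun k p => ?_⟩
  · rw [map_mul, hκ, ha, hto, ← mul_assoc, inv_mul_cancel_right, inv_mul_cancel_right]
  · have h1 : o (f (α k) * p) = o p := ho2 _ ⟨k, rfl⟩ p
    have h2 : κ (f (α k) * p) = k * κ p := by
      apply hf
      show f (α (κ (f (α k) * p))) = f (α (k * κ p))
      rw [hκ, h1, map_mul, map_mul, hκ, mul_assoc]
    show α (κ (f (α k) * p)) * a (o (f (α k) * p)) = α k * (α (κ p) * a (o p))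
    rw [h1, h2, map_mul, mul_assoc]

/-- the embedding in the wreath product which is standard on a subgroup -/
theorem exists_emb (α : K →* A) (f : A →* P) (hf : Function.Injective (f.comp α)) :
    ∃ φ : A → P → f.ker, (∀ a b p, φ (a * b) p = φ a p * φ b ((f a)⁻¹ * p)) ∧
      (∀ a, f a = 1 → (∀ p, φ a p = 1) → a = 1) ∧ ∀ k p, φ (α k) p = 1 := by
  obtain ⟨s, t, hs, ht, hk⟩ := exists_sec α f hf
  have hfs : ∀ p, f (s p) = p * (t p)⁻¹ := fun p => by rw [eq_mul_inv_iff_mul_eq, hs]
  have hmem : ∀ a p, (s p)⁻¹ * a * s ((f a)⁻¹ * p) ∈ f.ker := by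
    intro a p
    have h1 : t ((f a)⁻¹ * p) = t p := by rw [← map_inv, ht]
    rw [MonoidHom.mem_ker, map_mul, map_mul, map_inv, hfs, hfs, h1]
    group
  refine ⟨fun a p => ⟨_, hmem a p⟩, fun a b p => ?_, fun a ha h => ?_, fun k p => ?_⟩
  · apply Subtype.ext
    show (s p)⁻¹ * (a * b) * s ((f (a * b))⁻¹ * p) =
      (s p)⁻¹ * a * s ((f a)⁻¹ * p) * ((s ((f a)⁻¹ * p))⁻¹ * b * s ((f b)⁻¹ * ((f a)⁻¹ * p)))
    rw [map_mul, mul_inv_rev, mul_assoc (f b)⁻¹]
    group
  · have h1 : (s 1)⁻¹ * a * s ((f a)⁻¹ * 1) = 1 := congrArg Subtype.val (h 1)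
    rw [ha, inv_one, one_mul, mul_assoc, inv_mul_eq_one] at h1
    exact mul_eq_right.1 h1.symm
  · apply Subtype.ext
    show (s p)⁻¹ * α k * s ((f (α k))⁻¹ * p) = 1
    rw [← map_inv, ← map_inv, hk, map_inv]
    group

end sec

end Pool.Agent.U385.RT
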